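import Pool.Agent.Lib.BedG.SpecT
import Pool.Agent.Lib.Osgood

/-!
# MP_6f050a_an, theorem G: Cauchy's estimate on the ball of a smaller norm
-/

set_option autoImplicit false

open scoped Topology
open Set Filter Metric

namespace Pool.Agent.Lib.BedG

theorem sCau : S_Cau := by
  intro k ν h ρ ε hν hρ hε hd hb
  have hsub : ∀ z, ν z < ρ / 2 → ball z (ρ / 2) ⊆ {z | ν z < ρ} := by
    intro z hz y hy
    rw [mem_ball, dist_eq_norm] at hy
    have h1 := hν.sub_le y z
    have h2 := hν.le (y - z)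
    change ν y < ρ
    linarith
  have hf : ∀ z ∈ {z | ν z < ρ / 2}, ‖fderiv ℂ h z‖ ≤ 2 * ε / ρ := by
    intro z hz
    have h1 := Osgood.norm_fderiv_le (f := h) (z := z) (R := ρ / 2) (M := ε) (by positivity)
      (hd.mono (hsub z hz)) (fun w hw => hb w (hsub z hz hw))
    have h2 : ε / (ρ / 2) = 2 * ε / ρ := by field_simp
    rwa [h2] at h1
  have h0 : 0 ≤ 2 * ε / ρ := by positivity
  refine ⟨fun z hz w => ?_, fun z hz z' hz' => ?_⟩
  · exact ((fderiv ℂ h z).le_opNorm w).trans
      (mul_le_mul_of_nonneg_right (hf z hz) (norm_nonneg _))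
  · refine Convex.norm_image_sub_le_of_norm_fderiv_le (𝕜 := ℂ) (s := {z | ν z < ρ / 2}) ?_ hf
      (hν.convex (ρ / 2)) hz' hz
    intro u hu
    have hu' : ν u < ρ := by
      have : ν u < ρ / 2 := hu
      linarith
    exact hd.differentiableAt ((hν.isOpen ρ).mem_nhds hu')

end Pool.Agent.Lib.BedG
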