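import Pool.Agent.Lib.BedG.SpecR

/-!
# MP_6f050a_an, theorem G, part E: task Cmp (compositions of the maps of the blocks)
-/

set_option autoImplicit false

open scoped Topology
open Set Filter Metric

namespace Pool.Agent.Lib.BedG

namespace sCmpAux

/-- A block after a piece of the orbit. -/
theorem Th_Wo {k : ℕ} (L : ℕ → EE k ≃L[ℂ] EE k) (f : ℕ → EE k → EE k) (t N n' : ℕ) (z : EE k) :
    Th L f (t + N) n' (Wo L f t z N) = Wo L f t z (N + n') := by
  unfold Th
  rw [La_Wo, ← orbE_add]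
  unfold Wo
  rw [Nat.add_assoc]

end sCmpAux

theorem sCmp : S_Cmp := by
  intro k f L t n ht l i z
  induction i with
  | zero => exact ⟨0, rfl, (Wo_zero L f (t l) z).symm⟩
  | succ i ih =>
    obtain ⟨N, hN, hW⟩ := ih
    refine ⟨N + n (l + i), ?_, ?_⟩
    · rw [← Nat.add_assoc, ht, hN, Nat.add_assoc]
    · rw [orbE_succ, hW]
      rw [hN]
      exact sCmpAux.Th_Wo L f (t l) N (n (l + i)) z

end Pool.Agent.Lib.BedG
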