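import Pool.Agent.Lib.BedG.SpecL

/-!
# MP_6f050a_an, theorem G, part L: the terms `D_m` for `m ≥ s`
-/

set_option autoImplicit false

open scoped Topology
open Set Filter Metric

namespace Pool.Agent.Lib.BedG

namespace sDmAAux

/-- The common part of the estimates of `D_m`. -/
theorem core {k : ℕ} {ℓ : ℝ} {L : ℕ → EE k ≃L[ℂ] EE k} {B : ℕ → EE k →L[ℂ] EE k →L[ℂ] EE k}
    {a s : ℕ} {e : Fin k → EE k} {c : Fin k → EE k →L[ℂ] ℂ} {σ : Fin k → ℝ}
    (hS : SB ℓ L a s e c σ) (hP : PrC ℓ L a s e c σ) (m : ℕ) (p q : EE k) (F G X : ℝ)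
    (h1 : Nm ℓ L s (bm L B m p q) ≤ F * X)
    (h2 : ∀ i : Fin k, Nm ℓ L s (bm L B m (Pj e c i.val p) (Pj e c i.val q)) ≤ F * X)
    (h3 : ∀ i : Fin k, Nm ℓ L s (bm L B m (p - Pj e c i.val p) q) ≤ G * σ i * X)
    (h4 : ∀ i : Fin k, Nm ℓ L s (bm L B m (Pj e c i.val p) (q - Pj e c i.val q)) ≤
      G * σ i * X) :
    Nm ℓ L s (Dm L B e c m p q) ≤ 2 * k * F * X ∧ Nm ℓ L a (Dm L B e c m p q) ≤ 2 * k * G * X := by
  set d : Fin k → ℂ := fun i =>
    c i (bm L B m p q - bm L B m (Pj e c i.val p) (Pj e c i.val q)) with hd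
  have hD : Dm L B e c m p q = ∑ i, d i • e i := rfl
  have h5 : ∀ i, σ i * ‖d i‖ ≤ 2 * F * X := by
    intro i
    have h6 := (hP.c_s i (bm L B m p q - bm L B m (Pj e c i.val p) (Pj e c i.val q))).trans
      (Nm_sub_le ℓ L s _ _)
    have h7 := h2 i
    change σ i * ‖d i‖ ≤ _ at h6
    linarith
  have h8 : ∀ i, ‖d i‖ ≤ 2 * G * X := by
    intro i
    have h6 := hP.c_s i (bm L B m p q - bm L B m (Pj e c i.val p) (Pj e c i.val q))
    change σ i * ‖d i‖ ≤ _ at h6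
    rw [bm_proj] at h6
    have h7 := h6.trans (Nm_add_le ℓ L s _ _)
    have h9 := h3 i
    have h10 := h4 i
    have h11 := hS.pos i
    have h12 : σ i * ‖d i‖ ≤ σ i * (2 * G * X) := by linarith
    exact le_of_mul_le_mul_left h12 h11
  rw [hD]
  constructor
  · refine (hP.e_s d).trans ((Finset.sum_le_sum fun i _ => h5 i).trans (le_of_eq ?_))
    rw [Finset.sum_const, Finset.card_univ, Fintype.card_fin, nsmul_eq_mul]
    ring
  · refine (hP.e_a d).trans ((Finset.sum_le_sum fun i _ => h8 i).trans (le_of_eq ?_))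
    rw [Finset.sum_const, Finset.card_univ, Fintype.card_fin, nsmul_eq_mul]
    ring

end sDmAAux

theorem sDmA : S_DmA := by
  intro k ε ℓ C L B hpin hC hb a s e c σ hS hP has m hsm p q
  have hcB : 0 ≤ cB ε ℓ C := zero_le_one.trans (one_le_cB hC hpin.ε_pos.le hpin.ℓ_pos.le)
  set E : ℝ := Real.exp (ℓ * (ε * ((m : ℝ) - s) - s)) with hE
  have hE0 : 0 < E := Real.exp_pos _
  have hcE : 0 ≤ cB ε ℓ C * E := mul_nonneg hcB hE0.le
  have hb' : ∀ x y, Nm ℓ L s (bm L B m x y) ≤ cB ε ℓ C * E * (Nm ℓ L s x * Nm ℓ L s y) := by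
    intro x y
    have h1 := (hb m s x y).1 (by omega)
    have h2 : ℓ * ((1 + ε) * ((m : ℝ) - s) - m) = ℓ * (ε * ((m : ℝ) - s) - s) := by ring
    rw [h2] at h1
    refine h1.trans (mul_le_mul_of_nonneg_left ?_ hcE)
    exact mul_le_mul (hpin.Nm_anti hsm x) (hpin.Nm_anti hsm y) (Nm_nonneg _ _ _ _)
      (Nm_nonneg _ _ _ _)
  have has' : ∀ x, Nm ℓ L s x ≤ Nm ℓ L a x := fun x => hpin.Nm_anti has x
  have n0 : ∀ j x, 0 ≤ Nm ℓ L j x := fun j x => Nm_nonneg ℓ L j x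
  have h := sDmAAux.core hS hP (B := B) m p q (cB ε ℓ C * E) (cB ε ℓ C * E)
    (Nm ℓ L a p * Nm ℓ L a q)
    ((hb' p q).trans (mul_le_mul_of_nonneg_left
      (mul_le_mul (has' p) (has' q) (n0 _ _) (n0 _ _)) hcE))
    (fun i => (hb' _ _).trans (mul_le_mul_of_nonneg_left
      (mul_le_mul ((hP.P_s i p).trans (has' p)) ((hP.P_s i q).trans (has' q)) (n0 _ _)
        (n0 _ _)) hcE))
    (fun i => by
      have h1 := (hb' (p - Pj e c i.val p) q).trans (mul_le_mul_of_nonneg_left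
        (mul_le_mul (hP.R_σ i p) (has' q) (n0 _ _) (mul_nonneg (hS.pos i).le (n0 _ _))) hcE)
      refine h1.trans (le_of_eq ?_)
      ring)
    (fun i => by
      have h1 := (hb' (Pj e c i.val p) (q - Pj e c i.val q)).trans (mul_le_mul_of_nonneg_left
        (mul_le_mul ((hP.P_s i p).trans (has' p)) (hP.R_σ i q) (n0 _ _) (n0 _ _)) hcE)
      refine h1.trans (le_of_eq ?_)
      ring)
  refine ⟨h.1.trans (le_of_eq ?_), h.2.trans (le_of_eq ?_)⟩ <;> ring

end Pool.Agent.Lib.BedG
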