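import Pool.Agent.Lib.BedG.SpecL
import Pool.Agent.Lib.BedG.DmA

/-!
# MP_6f050a_an, theorem G, part L: the terms `D_m` for `a ≤ m < s`
-/

set_option autoImplicit false

open scoped Topology
open Set Filter Metric

namespace Pool.Agent.Lib.BedG

theorem sDmB : S_DmB := by
  intro k ε ℓ C L B hpin hC hb a s e c σ hS hP m ham hms p q
  have hcB : 0 ≤ cB ε ℓ C := zero_le_one.trans (one_le_cB hC hpin.ε_pos.le hpin.ℓ_pos.le)
  set E : ℝ := Real.exp (-(ℓ * m)) with hE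
  have hE0 : 0 < E := Real.exp_pos _
  have hcE : 0 ≤ cB ε ℓ C * E := mul_nonneg hcB hE0.le
  have hb' : ∀ x y, Nm ℓ L s (bm L B m x y) ≤ cB ε ℓ C * E * (Nm ℓ L m x * Nm ℓ L m y) :=
    fun x y => (hb m s x y).2 (by omega)
  have ham' : ∀ x, Nm ℓ L m x ≤ Nm ℓ L a x := fun x => hpin.Nm_anti ham x
  have n0 : ∀ j x, 0 ≤ Nm ℓ L j x := fun j x => Nm_nonneg ℓ L j x
  set H : ℝ := Real.exp ((1 + ε) * ℓ * ((s : ℝ) - m)) with hH
  have hH0 : 0 < H := Real.exp_pos _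
  have hR : ∀ (i : Fin k) x, Nm ℓ L m (x - Pj e c i.val x) ≤ H * (σ i * Nm ℓ L a x) := fun i x =>
    (hpin.Nm_le_exp hms.le _).trans (mul_le_mul_of_nonneg_left (hP.R_σ i x) hH0.le)
  have hEH : Real.exp (ℓ * ((1 + ε) * ((s : ℝ) - m) - m)) = E * H := by
    rw [hE, hH, ← Real.exp_add]
    congr 1
    ring
  have hσ : ∀ (i : Fin k) x, 0 ≤ H * (σ i * Nm ℓ L a x) := fun i x =>
    mul_nonneg hH0.le (mul_nonneg (hS.pos i).le (n0 _ _))
  have h := sDmAAux.core hS hP (B := B) m p q (cB ε ℓ C * E) (cB ε ℓ C * (E * H))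
    (Nm ℓ L a p * Nm ℓ L a q)
    ((hb' p q).trans (mul_le_mul_of_nonneg_left
      (mul_le_mul (ham' p) (ham' q) (n0 _ _) (n0 _ _)) hcE))
    (fun i => (hb' _ _).trans (mul_le_mul_of_nonneg_left
      (mul_le_mul ((ham' _).trans (hP.P_a i p)) ((ham' _).trans (hP.P_a i q)) (n0 _ _)
        (n0 _ _)) hcE))
    (fun i => by
      have h1 := (hb' (p - Pj e c i.val p) q).trans (mul_le_mul_of_nonneg_left
        (mul_le_mul (hR i p) (ham' q) (n0 _ _) (hσ i p)) hcE)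
      refine h1.trans (le_of_eq ?_)
      ring)
    (fun i => by
      have h1 := (hb' (Pj e c i.val p) (q - Pj e c i.val q)).trans (mul_le_mul_of_nonneg_left
        (mul_le_mul ((ham' _).trans (hP.P_a i p)) (hR i q) (n0 _ _) (n0 _ _)) hcE)
      refine h1.trans (le_of_eq ?_)
      ring)
  rw [hEH]
  refine ⟨h.1.trans (le_of_eq ?_), h.2.trans (le_of_eq ?_)⟩ <;> ring

end Pool.Agent.Lib.BedG
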