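import Pool.Agent.Lib.BedG.SpecL

/-!
# MP_6f050a_an, theorem G: the key estimate for the bilinear maps
-/

set_option autoImplicit false

open Set Filter Metric

namespace Pool.Agent.Lib.BedG

namespace sDmEAux

/-- The exponent bookkeeping of one case. -/
theorem step {ε ℓ κ X Y N m' u v t : ℝ} (hℓ : 0 < ℓ) (hX : 0 ≤ X)
    (hN : N ≤ Real.exp (ℓ * u) * Y) (hY : Y ≤ X * Real.exp (ℓ * v))
    (hE : ε * m' + u + v ≤ (1 + ε) - κ * t) :
    Real.exp (ε * ℓ * m') * N ≤ X * (Real.exp ((1 + ε) * ℓ) * Real.exp (-(κ * ℓ * t))) := by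
  have h1 : Real.exp (ε * ℓ * m') * N ≤
      Real.exp (ε * ℓ * m') * (Real.exp (ℓ * u) * (X * Real.exp (ℓ * v))) := by
    refine mul_le_mul_of_nonneg_left (hN.trans ?_) (Real.exp_pos _).le
    exact mul_le_mul_of_nonneg_left hY (Real.exp_pos _).le
  refine h1.trans ?_
  have h2 : Real.exp (ε * ℓ * m') * (Real.exp (ℓ * u) * (X * Real.exp (ℓ * v))) =
      X * Real.exp (ℓ * (ε * m' + u + v)) := by
    have h3 : ℓ * (ε * m' + u + v) = ε * ℓ * m' + ℓ * u + ℓ * v := by ring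
    rw [h3, Real.exp_add, Real.exp_add]
    ring
  rw [h2, ← Real.exp_add]
  refine mul_le_mul_of_nonneg_left (Real.exp_le_exp.2 ?_) hX
  have h4 := mul_le_mul_of_nonneg_left hE hℓ.le
  have h5 : ℓ * (1 + ε - κ * t) = (1 + ε) * ℓ + -(κ * ℓ * t) := by ring
  linarith

/-- The direct case, without the growth factor. -/
theorem step0 {ε ℓ κ X Y N m' v t : ℝ} (hℓ : 0 < ℓ) (hX : 0 ≤ X)
    (hN : N ≤ Y) (hY : Y ≤ X * Real.exp (ℓ * v))
    (hE : ε * m' + v ≤ (1 + ε) - κ * t) :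
    Real.exp (ε * ℓ * m') * N ≤ X * (Real.exp ((1 + ε) * ℓ) * Real.exp (-(κ * ℓ * t))) :=
  step (u := 0) hℓ hX (by simpa using hN) hY (by linarith)

end sDmEAux

open sDmEAux in
theorem sDmE : S_DmE := by
  intro hA hB k ε ℓ C L B hP hC hBm κ a t s n e c σ hblk hSB hPr m hm1 hm2 p q
  have hε := hP.ε_pos
  have hε2 := hP.ε_lt
  have hℓ := hP.ℓ_pos
  have hκ := hblk.κ_pos
  have hcB : 1 ≤ cB ε ℓ C := one_le_cB hC hε.le hℓ.le
  have hNN : 0 ≤ Nm ℓ L a p * Nm ℓ L a q := mul_nonneg (Nm_nonneg _ _ _ _) (Nm_nonneg _ _ _ _)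
  obtain ⟨X, hXdef⟩ : ∃ X : ℝ, X = 2 * k * cB ε ℓ C * (Nm ℓ L a p * Nm ℓ L a q) := ⟨_, rfl⟩
  have hX : 0 ≤ X := by
    rw [hXdef]
    have : (0 : ℝ) ≤ k := Nat.cast_nonneg k
    positivity
  -- the real inequalities of the block
  have ht1 : (1 : ℝ) ≤ t := by exact_mod_cast hblk.one_le
  have hat : (a : ℝ) ≤ t := by exact_mod_cast hblk.a_le_t
  have hts : (t : ℝ) ≤ s := by exact_mod_cast hblk.t_le_s
  have hst : (s : ℝ) ≤ t + n := by exact_mod_cast hblk.s_le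
  have hale := hblk.a_le
  have hc1 := hblk.c1
  have hc2 := hblk.c2
  have htm : (t : ℝ) ≤ m := by exact_mod_cast hm1
  have hmt : (m : ℝ) ≤ t + n := by exact_mod_cast hm2.le
  have has : a ≤ s := hblk.a_le_t.trans hblk.t_le_s
  have hkey : ε * ((t : ℝ) + n) ≤ (1 - κ) * t := by nlinarith
  have hgoal : X * (Real.exp ((1 + ε) * ℓ) * Real.exp (-(κ * ℓ * t))) ≤
      cD k ε ℓ C * Real.exp (-(κ * ℓ * t)) * (Nm ℓ L a p * Nm ℓ L a q) := by
    rw [hXdef]
    unfold cD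
    have hk : (2 : ℝ) * k ≤ 2 * (k + 1) := by linarith
    have hfac : 0 ≤ cB ε ℓ C * Real.exp ((1 + ε) * ℓ) * Real.exp (-(κ * ℓ * t)) *
        (Nm ℓ L a p * Nm ℓ L a q) := by positivity
    calc 2 * k * cB ε ℓ C * (Nm ℓ L a p * Nm ℓ L a q) *
          (Real.exp ((1 + ε) * ℓ) * Real.exp (-(κ * ℓ * t)))
        = (2 * k) * (cB ε ℓ C * Real.exp ((1 + ε) * ℓ) * Real.exp (-(κ * ℓ * t)) *
        (Nm ℓ L a p * Nm ℓ L a q)) := by ring
      _ ≤ (2 * (k + 1)) * (cB ε ℓ C * Real.exp ((1 + ε) * ℓ) * Real.exp (-(κ * ℓ * t)) *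
        (Nm ℓ L a p * Nm ℓ L a q)) := mul_le_mul_of_nonneg_right hk hfac
      _ = _ := by ring
  rw [rho_le_iff]
  intro m' hm'
  refine le_trans ?_ hgoal
  have hm'r : (m' : ℝ) ≤ t + n := by exact_mod_cast hm'
  have hm0 : (0 : ℝ) ≤ m' := Nat.cast_nonneg _
  rcases le_or_gt s m with hsm | hms
  · obtain ⟨h1, h2⟩ := hA k ε ℓ C L B hP hC hBm a s e c σ hSB hPr has m hsm p q
    have hsmr : (s : ℝ) ≤ m := by exact_mod_cast hsm
    have h1' : Nm ℓ L s (Dm L B e c m p q) ≤ X * Real.exp (ℓ * (ε * ((m : ℝ) - s) - s)) := by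
      rw [hXdef]
      refine h1.trans (le_of_eq ?_)
      ring
    have h2' : Nm ℓ L a (Dm L B e c m p q) ≤ X * Real.exp (ℓ * (ε * ((m : ℝ) - s) - s)) := by
      rw [hXdef]
      refine h2.trans (le_of_eq ?_)
      ring
    rcases le_or_gt s m' with h3 | h3
    · refine step0 hℓ hX (hP.Nm_anti h3 _) h1' ?_
      have e1 : ε * (m' : ℝ) ≤ ε * (t + n) := mul_le_mul_of_nonneg_left hm'r hε.le
      have e2 : ε * (m : ℝ) ≤ ε * (t + n) := mul_le_mul_of_nonneg_left hmt hε.le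
      nlinarith
    · have h3r : (m' : ℝ) ≤ s := by exact_mod_cast h3.le
      rcases le_or_gt a m' with h4 | h4
      · refine step0 hℓ hX (hP.Nm_anti h4 _) h2' ?_
        have e1 : ε * (m' : ℝ) ≤ ε * s := mul_le_mul_of_nonneg_left h3r hε.le
        have e2 : ε * (m : ℝ) ≤ ε * (t + n) := mul_le_mul_of_nonneg_left hmt hε.le
        nlinarith
      · have h5 := hP.Nm_le_exp h4.le (Dm L B e c m p q)
        have h6 : (1 + ε) * ℓ * ((a : ℝ) - m') = ℓ * ((1 + ε) * ((a : ℝ) - m')) := by ring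
        rw [h6] at h5
        refine step hℓ hX h5 h2' ?_
        have e2 : ε * (m : ℝ) ≤ ε * (t + n) := mul_le_mul_of_nonneg_left hmt hε.le
        have e3 : ε * (t : ℝ) ≤ ε * (t + n) :=
          mul_le_mul_of_nonneg_left (hts.trans hst) hε.le
        nlinarith
  · have hmsr : (m : ℝ) ≤ s := by exact_mod_cast hms.le
    obtain ⟨h1, h2⟩ := hB k ε ℓ C L B hP hC hBm a s e c σ hSB hPr m
      (hblk.a_le_t.trans hm1) hms p q
    have h1' : Nm ℓ L s (Dm L B e c m p q) ≤ X * Real.exp (ℓ * (-(m : ℝ))) := by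
      rw [hXdef, mul_neg]
      refine h1.trans (le_of_eq ?_)
      ring
    have h2' : Nm ℓ L a (Dm L B e c m p q) ≤
        X * Real.exp (ℓ * ((1 + ε) * ((s : ℝ) - m) - m)) := by
      rw [hXdef]
      refine h2.trans (le_of_eq ?_)
      ring
    rcases le_or_gt s m' with h3 | h3
    · refine step0 hℓ hX (hP.Nm_anti h3 _) h1' ?_
      have e1 : ε * (m' : ℝ) ≤ ε * (t + n) := mul_le_mul_of_nonneg_left hm'r hε.le
      nlinarith
    · have h3r : (m' : ℝ) ≤ s := by exact_mod_cast h3.le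
      rcases le_or_gt m m' with h4 | h4
      · have h4r : (m : ℝ) ≤ m' := by exact_mod_cast h4
        have h5 := hP.Nm_le_exp h3.le (Dm L B e c m p q)
        have h6 : (1 + ε) * ℓ * ((s : ℝ) - m') = ℓ * ((1 + ε) * ((s : ℝ) - m')) := by ring
        rw [h6] at h5
        refine step hℓ hX h5 h1' ?_
        nlinarith
      · have h4r : (m' : ℝ) ≤ m := by exact_mod_cast h4.le
        rcases le_or_gt a m' with h7 | h7
        · refine step0 hℓ hX (hP.Nm_anti h7 _) h2' ?_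
          have e1 : ε * (m' : ℝ) ≤ ε * m := mul_le_mul_of_nonneg_left h4r hε.le
          nlinarith
        · have h5 := hP.Nm_le_exp h7.le (Dm L B e c m p q)
          have h6 : (1 + ε) * ℓ * ((a : ℝ) - m') = ℓ * ((1 + ε) * ((a : ℝ) - m')) := by ring
          rw [h6] at h5
          refine step hℓ hX h5 h2' ?_
          have e2 : (1 + ε) * (t : ℝ) ≤ (1 + ε) * m :=
            mul_le_mul_of_nonneg_left htm (by linarith)
          nlinarith

end Pool.Agent.Lib.BedG
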