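import Pool.Agent.Lib.BedG.SpecR

/-!
# MP_6f050a_an, theorem G: the times of the blocks
-/

set_option autoImplicit false

namespace Pool.Agent.Lib.BedG

namespace sEKAux

/-- The times. -/
noncomputable def tt (K : ℝ) (M : ℕ) : ℕ → ℕ
  | 0 => M
  | j + 1 => ⌊K * (tt K M j : ℝ)⌋₊

theorem step {ε K : ℝ} (h0 : 0 < ε) (h1 : ε < 1 / 2) (hK : ε * K = ε + 1 / 2) (hK2 : 2 < K)
    {τ : ℕ} (hτ : 4 ≤ (1 - 2 * ε) * τ) (h8 : 8 ≤ (τ : ℝ)) :
    (K + 2) / 2 * τ ≤ (⌊K * τ⌋₊ : ℝ) ∧ (⌊K * τ⌋₊ : ℝ) ≤ K * τ ∧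
      Blk ε ((1 - 2 * ε) / 4) ⌈ε * τ / (1 + ε)⌉₊ τ ⌊(2 - (1 - 2 * ε) / 4) * τ / (1 + ε)⌋₊
        (⌊K * τ⌋₊ - τ) := by
  have hτ0 : (0 : ℝ) ≤ τ := by linarith
  have h1e : (0 : ℝ) < 1 + ε := by linarith
  have hKt : 0 ≤ K * τ := by positivity
  have f1 : (⌊K * τ⌋₊ : ℝ) ≤ K * τ := Nat.floor_le hKt
  have f2 : K * τ < ⌊K * τ⌋₊ + 1 := Nat.lt_floor_add_one _
  have e1 : 1 ≤ (K - 2) / 2 * τ := by
    have e2 : ε * ((K - 2) / 2 * τ) = (1 - 2 * ε) * τ / 4 := by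
      have : ε * ((K - 2) / 2 * τ) = (ε * K - 2 * ε) / 2 * τ := by ring
      rw [this, hK]
      ring
    by_contra hc
    have hc' : (K - 2) / 2 * τ < 1 := not_le.1 hc
    have : ε * ((K - 2) / 2 * τ) < ε * 1 := mul_lt_mul_of_pos_left hc' h0
    linarith
  have f3 : (K + 2) / 2 * τ ≤ (⌊K * τ⌋₊ : ℝ) := by
    have : (K + 2) / 2 * τ = K * τ - (K - 2) / 2 * τ := by ring
    linarith
  have f4 : (2 : ℝ) * τ ≤ (⌊K * τ⌋₊ : ℝ) := by
    have : (2 : ℝ) * τ ≤ (K + 2) / 2 * τ := by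
      apply mul_le_mul_of_nonneg_right _ hτ0
      linarith
    linarith
  have f5 : τ ≤ ⌊K * τ⌋₊ := by
    have : (τ : ℝ) ≤ (⌊K * τ⌋₊ : ℝ) := by linarith
    exact_mod_cast this
  have f6 : τ + (⌊K * τ⌋₊ - τ) = ⌊K * τ⌋₊ := by omega
  have f7 : (τ : ℝ) + ((⌊K * τ⌋₊ - τ : ℕ) : ℝ) = (⌊K * τ⌋₊ : ℝ) := by
    exact_mod_cast f6
  -- the auxiliary times
  have a1 : ε * τ / (1 + ε) ≤ (⌈ε * τ / (1 + ε)⌉₊ : ℝ) := Nat.le_ceil _
  have a2 : (⌈ε * τ / (1 + ε)⌉₊ : ℝ) < ε * τ / (1 + ε) + 1 :=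
    Nat.ceil_lt_add_one (by positivity)
  have a3 : ε * τ / (1 + ε) * (1 + ε) = ε * τ := div_mul_cancel₀ _ h1e.ne'
  have s0 : 0 ≤ (2 - (1 - 2 * ε) / 4) * τ / (1 + ε) := by
    have : 0 ≤ 2 - (1 - 2 * ε) / 4 := by linarith
    positivity
  have s1 : (⌊(2 - (1 - 2 * ε) / 4) * τ / (1 + ε)⌋₊ : ℝ) ≤
      (2 - (1 - 2 * ε) / 4) * τ / (1 + ε) := Nat.floor_le s0
  have s2 : (2 - (1 - 2 * ε) / 4) * τ / (1 + ε) <
      (⌊(2 - (1 - 2 * ε) / 4) * τ / (1 + ε)⌋₊ : ℝ) + 1 := Nat.lt_floor_add_one _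
  have s3 : (2 - (1 - 2 * ε) / 4) * τ / (1 + ε) * (1 + ε) = (2 - (1 - 2 * ε) / 4) * τ :=
    div_mul_cancel₀ _ h1e.ne'
  set A : ℝ := (⌈ε * τ / (1 + ε)⌉₊ : ℝ) with hA
  set S : ℝ := (⌊(2 - (1 - 2 * ε) / 4) * τ / (1 + ε)⌋₊ : ℝ) with hS
  have a4 : ε * τ ≤ (1 + ε) * A := by
    have := mul_le_mul_of_nonneg_right a1 h1e.le
    linarith
  have a5 : (1 + ε) * A ≤ ε * τ + (1 + ε) := by
    have := mul_le_mul_of_nonneg_right a2.le h1e.le
    linarith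
  have s4 : (1 + ε) * S ≤ (2 - (1 - 2 * ε) / 4) * τ := by
    have := mul_le_mul_of_nonneg_right s1 h1e.le
    linarith
  have s5 : (2 - (1 - 2 * ε) / 4) * τ ≤ (1 + ε) * S + (1 + ε) := by
    have := mul_le_mul_of_nonneg_right s2.le h1e.le
    linarith
  have et : ε * τ ≤ τ / 2 := by nlinarith
  refine ⟨f3, f1, ?_⟩
  constructor
  · linarith
  · have : (1 : ℝ) ≤ τ := by linarith
    exact_mod_cast this
  · have : A ≤ τ := by
      have h3 : (1 + ε) * A ≤ (1 + ε) * τ := by nlinarith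
      exact le_of_mul_le_mul_left h3 h1e
    rw [hA] at this
    exact_mod_cast this
  · have : (τ : ℝ) ≤ S := by
      have h3 : (1 + ε) * τ ≤ (1 + ε) * S := by nlinarith
      exact le_of_mul_le_mul_left h3 h1e
    rw [hS] at this
    exact_mod_cast this
  · rw [f6]
    have : S ≤ (⌊K * τ⌋₊ : ℝ) := by
      have h3 : S ≤ 2 * τ := by
        have h4 : (1 + ε) * S ≤ (1 + ε) * (2 * τ) := by nlinarith
        exact le_of_mul_le_mul_left h4 h1e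
      linarith
    rw [hS] at this
    exact_mod_cast this
  · exact a4
  · exact a5
  · rw [f7]
    have h3 : ε * (⌊K * τ⌋₊ : ℝ) ≤ ε * (K * τ) := mul_le_mul_of_nonneg_left f1 h0.le
    have h4 : ε * (K * τ) = (ε + 1 / 2) * τ := by rw [← hK]; ring
    nlinarith
  · exact s4

end sEKAux

open sEKAux in
/-- The times of the blocks. -/
theorem sEK : S_EK := by
  intro ε h0 h1
  obtain ⟨K, hK⟩ : ∃ K : ℝ, ε * K = ε + 1 / 2 := ⟨1 + 1 / (2 * ε), by field_simp⟩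
  have hK2 : 2 < K := by
    by_contra h
    have h' : K ≤ 2 := not_lt.1 h
    have : ε * K ≤ ε * 2 := mul_le_mul_of_nonneg_left h' h0.le
    linarith
  refine ⟨(1 - 2 * ε) / 4, (K + 2) / 2, K, by linarith, by linarith, by linarith, by linarith,
    fun T => ?_⟩
  have h2 : 0 < 1 - 2 * ε := by linarith
  obtain ⟨M, hM⟩ := exists_nat_ge (4 / (1 - 2 * ε) + 8 + T)
  obtain ⟨t, t0, ts⟩ : ∃ t : ℕ → ℕ, t 0 = M ∧ ∀ j, t (j + 1) = ⌊K * (t j : ℝ)⌋₊ :=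
    ⟨tt K M, rfl, fun j => rfl⟩
  have hq : 0 ≤ 4 / (1 - 2 * ε) := by positivity
  have hT0 : (0 : ℝ) ≤ T := Nat.cast_nonneg T
  have inv : ∀ j, 4 ≤ (1 - 2 * ε) * (t j : ℝ) ∧ 8 ≤ (t j : ℝ) := by
    intro j
    induction j with
    | zero =>
      rw [t0]
      refine ⟨?_, by linarith⟩
      have h3 : 4 / (1 - 2 * ε) ≤ (M : ℝ) := by linarith
      rw [div_le_iff₀ h2] at h3
      linarith
    | succ j ih =>
      obtain ⟨g1, g2, g3⟩ := step h0 h1 hK hK2 ih.1 ih.2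
      have h3 : (t j : ℝ) ≤ (t (j + 1) : ℝ) := by
        rw [ts]
        refine le_trans ?_ g1
        have : (1 : ℝ) * (t j : ℝ) ≤ (K + 2) / 2 * (t j : ℝ) := by
          apply mul_le_mul_of_nonneg_right _ (by linarith [ih.2])
          linarith
        linarith
      refine ⟨ih.1.trans (mul_le_mul_of_nonneg_left h3 h2.le), ih.2.trans h3⟩
  have st := fun j => step h0 h1 hK hK2 (inv j).1 (inv j).2
  have mono : ∀ j, (t j : ℝ) ≤ (t (j + 1) : ℝ) := by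
    intro j
    rw [ts]
    refine le_trans ?_ (st j).1
    have : (1 : ℝ) * (t j : ℝ) ≤ (K + 2) / 2 * (t j : ℝ) := by
      apply mul_le_mul_of_nonneg_right _ (by linarith [(inv j).2])
      linarith
    linarith
  refine ⟨t, fun j => ⌈ε * (t j : ℝ) / (1 + ε)⌉₊,
    fun j => ⌊(2 - (1 - 2 * ε) / 4) * (t j : ℝ) / (1 + ε)⌋₊, fun j => t (j + 1) - t j, ?_, ?_⟩
  · have : (T : ℝ) ≤ (M : ℝ) := by linarith
    rw [t0]
    exact_mod_cast this
  · constructor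
    · intro j
      have h3 : t j ≤ t (j + 1) := by exact_mod_cast mono j
      change t (j + 1) = t j + (t (j + 1) - t j)
      omega
    · intro j
      change Blk _ _ _ _ _ (t (j + 1) - t j)
      rw [ts]
      exact (st j).2.2
    · intro j
      rw [ts]
      exact (st j).1
    · intro j
      rw [ts]
      exact (st j).2.1
    · intro j
      refine Nat.ceil_mono ?_
      have h3 : ε * (t j : ℝ) ≤ ε * (t (j + 1) : ℝ) := mul_le_mul_of_nonneg_left (mono j) h0.le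
      exact div_le_div_of_nonneg_right h3 (by linarith)

end Pool.Agent.Lib.BedG
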