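import Pool.Agent.Lib.BedG.SpecR

/-!
# MP_6f050a_an, theorem G, part E: large numbers
-/

set_option autoImplicit false

open scoped Topology
open Set Filter Metric

namespace Pool.Agent.Lib.BedG

namespace sEL1Aux

theorem ev (M c : ℝ) (n : ℕ) (hc : 0 < c) : ∀ᶠ τ : ℝ in atTop, M * τ ^ n ≤ Real.exp (c * τ) := by
  have h1 := (isLittleO_pow_exp_pos_mul_atTop n hc).bound
    (show (0 : ℝ) < 1 / (|M| + 1) by positivity)
  filter_upwards [h1] with τ hτ
  rw [Real.norm_eq_abs, Real.norm_eq_abs, abs_of_pos (Real.exp_pos _)] at hτ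
  have h2 : (0 : ℝ) < |M| + 1 := by positivity
  have h3 : (|M| + 1) * |τ ^ n| ≤ Real.exp (c * τ) := by
    calc (|M| + 1) * |τ ^ n| ≤ (|M| + 1) * (1 / (|M| + 1) * Real.exp (c * τ)) :=
          mul_le_mul_of_nonneg_left hτ h2.le
      _ = Real.exp (c * τ) := by field_simp
  calc M * τ ^ n ≤ |M * τ ^ n| := le_abs_self _
    _ = |M| * |τ ^ n| := abs_mul _ _
    _ ≤ (|M| + 1) * |τ ^ n| := by
        have := abs_nonneg (τ ^ n)
        nlinarith
    _ ≤ _ := h3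

end sEL1Aux

theorem sEL1 : S_EL1 := by
  intro C κ ℓ K₁ K r hC hκ hκ1 hℓ hK₁ hK hr
  have hα : 0 < κ * ℓ := mul_pos hκ hℓ
  have hK0 : 0 < K := by linarith
  have hC0 : 0 < C := by linarith
  have hb0 : 0 < (1 - κ / 10) * ℓ := mul_pos (by linarith) hℓ
  have hall := ((sEL1Aux.ev 8 (κ * ℓ / 10) 0 (by positivity)).and
    ((sEL1Aux.ev (2 / r) ((1 - κ / 10) * ℓ) 0 hb0).and
    ((sEL1Aux.ev (4 * C * K ^ 2) (4 / 5 * (κ * ℓ)) 2 (by positivity)).and
    ((sEL1Aux.ev (5 * C * K) (κ * ℓ * (K₁ - 2) / 10) 1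
      (div_pos (mul_pos hα (by linarith)) (by norm_num))).and
    ((sEL1Aux.ev (C * K) (κ * ℓ / 10) 1 (by positivity)).and
    (sEL1Aux.ev (2 * C * K) (κ * ℓ / 20) 1 (by positivity)))))))
  obtain ⟨τ₁, hτ₁⟩ := eventually_atTop.1 hall
  refine ⟨max 1 τ₁, le_max_left _ _, ?_⟩
  intro τ τ' R R' hτ hlo hup hR hR'
  have hτ1 : 1 ≤ τ := (le_max_left _ _).trans hτ
  have hτ0 : 0 < τ := by linarith
  obtain ⟨a1, a2, a3, a4, a5, a6⟩ := hτ₁ τ ((le_max_right _ _).trans hτ)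
  rw [pow_zero, mul_one] at a1 a2
  rw [pow_one] at a4 a5 a6
  have hτ'1 : 1 ≤ τ' := by nlinarith
  have hτ'0 : 0 < τ' := by linarith
  have hR8 : 8 ≤ R := by rw [hR]; exact a1
  have hR0 : 0 < R := by linarith
  have e2 : R ^ 2 = Real.exp (κ * ℓ / 5 * τ) := by
    rw [hR, ← Real.exp_nat_mul]
    congr 1
    push_cast
    ring
  have e3 : R ^ 3 * Real.exp (-(κ * ℓ * τ)) = Real.exp (-(7 / 10 * (κ * ℓ) * τ)) := by
    rw [hR, ← Real.exp_nat_mul, ← Real.exp_add]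
    congr 1
    push_cast
    ring
  -- the fifth claim
  have c5 : C * τ' * R ^ 3 * Real.exp (-(κ * ℓ * τ)) ≤ Real.exp (-(3 / 5 * κ * ℓ * τ)) := by
    rw [mul_assoc, e3]
    have h1 : C * τ' ≤ Real.exp (κ * ℓ / 10 * τ) := by
      refine le_trans ?_ a5
      rw [mul_assoc]
      exact mul_le_mul_of_nonneg_left hup hC0.le
    calc C * τ' * Real.exp (-(7 / 10 * (κ * ℓ) * τ)) ≤
          Real.exp (κ * ℓ / 10 * τ) * Real.exp (-(7 / 10 * (κ * ℓ) * τ)) :=
          mul_le_mul_of_nonneg_right h1 (Real.exp_pos _).le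
      _ = Real.exp (-(3 / 5 * κ * ℓ * τ)) := by
          rw [← Real.exp_add]
          congr 1
          ring
  refine ⟨hR8, ?_, ?_, ?_, c5, ?_, ?_⟩
  · -- the second claim
    have h1 : Real.exp (-(ℓ * τ)) * R = Real.exp (-((1 - κ / 10) * ℓ * τ)) := by
      rw [hR, ← Real.exp_add]
      congr 1
      ring
    rw [h1, Real.exp_neg]
    have h2 : (0 : ℝ) < 2 / r := by positivity
    calc (Real.exp ((1 - κ / 10) * ℓ * τ))⁻¹ ≤ (2 / r)⁻¹ := inv_anti₀ h2 a2
      _ = r / 2 := inv_div _ _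
      _ < r := by linarith
  · -- the third claim
    have h1 : C * τ' ^ 2 * (2 * R) ^ 2 ≤ 4 * C * K ^ 2 * τ ^ 2 * R ^ 2 := by
      have h2 : τ' ^ 2 ≤ (K * τ) ^ 2 := pow_le_pow_left₀ hτ'0.le hup 2
      have h3 : 0 ≤ 4 * C * R ^ 2 := by positivity
      nlinarith [mul_le_mul_of_nonneg_left h2 h3]
    calc C * τ' ^ 2 * (2 * R) ^ 2 * Real.exp (-(κ * ℓ * τ)) ≤
          4 * C * K ^ 2 * τ ^ 2 * R ^ 2 * Real.exp (-(κ * ℓ * τ)) :=
          mul_le_mul_of_nonneg_right h1 (Real.exp_pos _).le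
      _ ≤ Real.exp (4 / 5 * (κ * ℓ) * τ) * R ^ 2 * Real.exp (-(κ * ℓ * τ)) := by
          refine mul_le_mul_of_nonneg_right (mul_le_mul_of_nonneg_right a3 (by positivity))
            (Real.exp_pos _).le
      _ = 1 := by
          rw [e2, ← Real.exp_add, ← Real.exp_add, ← Real.exp_zero]
          congr 1
          ring
  · -- the fourth claim
    have h1 : C * τ' * R ^ 3 * Real.exp (-(κ * ℓ * τ)) ≤ C * τ' * R ^ 2 := by
      have h2 : R * Real.exp (-(κ * ℓ * τ)) ≤ 1 := by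
        rw [hR, ← Real.exp_add, Real.exp_le_one_iff]
        nlinarith [mul_pos hα hτ0]
      have h3 : 0 ≤ C * τ' * R ^ 2 := by positivity
      calc C * τ' * R ^ 3 * Real.exp (-(κ * ℓ * τ)) =
            C * τ' * R ^ 2 * (R * Real.exp (-(κ * ℓ * τ))) := by ring
        _ ≤ C * τ' * R ^ 2 * 1 := mul_le_mul_of_nonneg_left h2 h3
        _ = C * τ' * R ^ 2 := mul_one _
    have h4 : C * τ' * (1 + R) ^ 2 ≤ C * τ' * (4 * R ^ 2) := by
      refine mul_le_mul_of_nonneg_left ?_ (by positivity)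
      nlinarith
    have h5 : C * τ' * R ^ 2 ≤ C * (K * τ) * R ^ 2 :=
      mul_le_mul_of_nonneg_right (mul_le_mul_of_nonneg_left hup hC0.le) (by positivity)
    calc C * τ' * (1 + R) ^ 2 + C * τ' * R ^ 3 * Real.exp (-(κ * ℓ * τ)) ≤
          5 * C * K * τ * R ^ 2 := by linarith
      _ ≤ Real.exp (κ * ℓ * (K₁ - 2) / 10 * τ) * R ^ 2 :=
          mul_le_mul_of_nonneg_right a4 (by positivity)
      _ = Real.exp (κ * ℓ / 10 * (K₁ * τ)) := by
          rw [e2, ← Real.exp_add]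
          congr 1
          ring
      _ ≤ R' := by
          rw [hR']
          exact Real.exp_le_exp.2 (mul_le_mul_of_nonneg_left hlo (by positivity))
  · have h1 : 1 ≤ C * τ' := one_le_mul_of_one_le_of_one_le hC hτ'1
    nlinarith
  · have h1 : C * τ' * (2 * R) ≤ 2 * C * K * τ * R := by
      have h2 : 0 ≤ 2 * C * R := by positivity
      nlinarith [mul_le_mul_of_nonneg_left hup h2]
    calc C * τ' * (2 * R) ≤ 2 * C * K * τ * R := h1
      _ ≤ Real.exp (κ * ℓ / 20 * τ) * R := mul_le_mul_of_nonneg_right a6 hR0.le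
      _ = Real.exp (3 / 20 * κ * ℓ * τ) := by
          rw [hR, ← Real.exp_add]
          congr 1
          ring

end Pool.Agent.Lib.BedG
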