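import Pool.Agent.Lib.BedG.SpecR

/-!
# EL2: the products of the factors
-/

set_option autoImplicit false

open scoped Topology
open Set Filter Metric

namespace Pool.Agent.Lib.BedG

namespace sEL2Aux

theorem prod_le (κ ℓ : ℝ) (t A : ℕ → ℝ) (hκ : 0 < κ) (hℓ : 0 < ℓ) (ht : ∀ j, 0 ≤ t j)
    (h2 : ∀ j, 2 * t j ≤ t (j + 1))
    (hA : ∀ j, 1 ≤ A j ∧ A j ≤ Real.exp (3 / 20 * κ * ℓ * t j)) (i j : ℕ) (hij : i ≤ j) :
    ∏ l ∈ Finset.Icc i j, A l ≤ Real.exp (3 / 10 * κ * ℓ * t j) := by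
  have hκℓ : 0 < κ * ℓ := mul_pos hκ hℓ
  induction j, hij using Nat.le_induction with
  | base =>
    rw [Finset.Icc_self, Finset.prod_singleton]
    refine (hA i).2.trans (Real.exp_le_exp.mpr ?_)
    have := mul_nonneg hκℓ.le (ht i)
    nlinarith
  | succ j hij ih =>
    rw [Finset.prod_Icc_succ_top (by omega)]
    have h0 : (0 : ℝ) ≤ A (j + 1) := le_trans zero_le_one (hA (j + 1)).1
    calc (∏ l ∈ Finset.Icc i j, A l) * A (j + 1)
        ≤ Real.exp (3 / 10 * κ * ℓ * t j) * Real.exp (3 / 20 * κ * ℓ * t (j + 1)) :=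
          mul_le_mul ih (hA (j + 1)).2 h0 (Real.exp_pos _).le
      _ = Real.exp (3 / 10 * κ * ℓ * t j + 3 / 20 * κ * ℓ * t (j + 1)) := (Real.exp_add _ _).symm
      _ ≤ Real.exp (3 / 10 * κ * ℓ * t (j + 1)) := by
          apply Real.exp_le_exp.mpr
          have := mul_le_mul_of_nonneg_left (h2 j) hκℓ.le
          nlinarith

theorem t_ge (κ ℓ : ℝ) (t : ℕ → ℝ) (hκ : 0 < κ) (hℓ : 0 < ℓ) (h0 : 7 ≤ κ * ℓ * t 0)
    (h2 : ∀ j, 2 * t j ≤ t (j + 1)) (j : ℕ) : 7 * ((j : ℝ) + 1) ≤ κ * ℓ * t j := by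
  have hκℓ : 0 < κ * ℓ := mul_pos hκ hℓ
  induction j with
  | zero => simpa using h0
  | succ j ih =>
    have h1 := mul_le_mul_of_nonneg_left (h2 j) hκℓ.le
    push_cast
    have hj : (0 : ℝ) ≤ j := Nat.cast_nonneg j
    nlinarith

end sEL2Aux

open sEL2Aux in
theorem sEL2 : S_EL2 := by
  intro κ ℓ t e A hκ hℓ h0 h2 he hA i j hij
  have hκℓ : 0 < κ * ℓ := mul_pos hκ hℓ
  have hge := t_ge κ ℓ t hκ hℓ h0 h2
  have ht : ∀ j, 0 ≤ t j := by
    intro j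
    have h1 := hge j
    have hj : (0 : ℝ) ≤ j := Nat.cast_nonneg j
    by_contra h3
    push Not at h3
    have := mul_neg_of_pos_of_neg hκℓ h3
    nlinarith
  have hP := prod_le κ ℓ t A hκ hℓ ht h2 hA i j hij
  have hP0 : 0 ≤ ∏ l ∈ Finset.Icc i j, A l :=
    Finset.prod_nonneg fun l _ => le_trans zero_le_one (hA l).1
  calc e j * ∏ l ∈ Finset.Icc i j, A l
      ≤ Real.exp (-(3 / 5 * κ * ℓ * t j)) * Real.exp (3 / 10 * κ * ℓ * t j) :=
        mul_le_mul (he j).2 hP hP0 (Real.exp_pos _).le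
    _ = Real.exp (-(3 / 5 * κ * ℓ * t j) + 3 / 10 * κ * ℓ * t j) := (Real.exp_add _ _).symm
    _ ≤ Real.exp (-(((j + 3 : ℕ) : ℝ) * Real.log 2)) := by
        apply Real.exp_le_exp.mpr
        have h1 := hge j
        have hl : Real.log 2 < 0.7 := lt_trans Real.log_two_lt_d9 (by norm_num)
        have hj : (0 : ℝ) ≤ j := Nat.cast_nonneg j
        have h3 : ((j + 3 : ℕ) : ℝ) * Real.log 2 ≤ ((j + 3 : ℕ) : ℝ) * 0.7 :=
          mul_le_mul_of_nonneg_left hl.le (Nat.cast_nonneg _)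
        push_cast at h3 ⊢
        nlinarith
    _ = (1 / 2) ^ (j + 3) := by
        rw [Real.exp_neg, Real.exp_nat_mul, Real.exp_log (by norm_num : (0 : ℝ) < 2), one_div,
          inv_pow]

end Pool.Agent.Lib.BedG
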