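import Pool.Agent.Lib.BedG.SpecN

/-!
# Theorem G, EmE: the increments of the orbit and the quadratic terms
-/

set_option autoImplicit false

open scoped Topology
open Set Filter Metric

namespace Pool.Agent.Lib.BedG

namespace sEmEAux

theorem final {C C₁ R E T X Y D : ℝ} (hC : 1 ≤ C) (hC1 : 1 ≤ C₁) (hR : 1 ≤ R) (hE : 0 < E)
    (hET : E ≤ T) (hX0 : 0 ≤ X) (hY0 : 0 ≤ Y) (hD0 : 0 ≤ D)
    (hX : X ≤ C₁ * E * R) (hY : Y ≤ E * R) (hD : D ≤ E * (C₁ * T * R ^ 2)) :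
    C * X ^ 3 + C * D * X + C * Y * D ≤ 3 * C * C₁ ^ 3 * R ^ 3 * (E ^ 2 * T) := by
  have hT : 0 < T := hE.trans_le hET
  have h1 : X ^ 3 ≤ C₁ ^ 3 * R ^ 3 * (E ^ 2 * T) := by
    calc X ^ 3 ≤ (C₁ * E * R) ^ 3 := pow_le_pow_left₀ hX0 hX 3
      _ = C₁ ^ 3 * R ^ 3 * (E ^ 2 * E) := by ring
      _ ≤ _ := by gcongr
  have h2 : D * X ≤ C₁ ^ 3 * R ^ 3 * (E ^ 2 * T) := by
    calc D * X ≤ (E * (C₁ * T * R ^ 2)) * (C₁ * E * R) := by gcongr
      _ = C₁ ^ 2 * R ^ 3 * (E ^ 2 * T) := by ring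
      _ ≤ C₁ ^ 3 * R ^ 3 * (E ^ 2 * T) := by
        gcongr
        norm_num
  have h3 : Y * D ≤ C₁ ^ 3 * R ^ 3 * (E ^ 2 * T) := by
    calc Y * D ≤ (E * R) * (E * (C₁ * T * R ^ 2)) := by gcongr
      _ = C₁ ^ 1 * R ^ 3 * (E ^ 2 * T) := by ring
      _ ≤ C₁ ^ 3 * R ^ 3 * (E ^ 2 * T) := by
        gcongr
        norm_num
  have hC0 : 0 ≤ C := zero_le_one.trans hC
  calc C * X ^ 3 + C * D * X + C * Y * D = C * (X ^ 3 + D * X + Y * D) := by ring
    _ ≤ C * (3 * (C₁ ^ 3 * R ^ 3 * (E ^ 2 * T))) :=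
        mul_le_mul_of_nonneg_left (by linarith) hC0
    _ = _ := by ring

end sEmEAux

theorem sEmE : S_EmE := by
  intro hOrb k ε ℓ r C₀ C C₁ f L B hS hQ hC1 hW t w R hw hR hNw i
  obtain ⟨hx, -, hdiff⟩ := hW t w hw i
  have hℓ := hS.pin.ℓ_pos
  have hC := hQ.one_le
  have hwb : La L t w ∈ ball (0 : EE k) r := by rwa [mem_ball_zero_iff]
  have hxr := (hOrb k ε ℓ r C₀ f L hS t i).2.1 hwb
  set x := orbE f t i (La L t w) with hxdef
  set E := Real.exp (-(ℓ * ((t : ℝ) + i))) with hE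
  set T := Real.exp (-(ℓ * t)) with hT
  have hN0 := Nm_nonneg ℓ L t w
  have hE0 : 0 < E := Real.exp_pos _
  have hET : E ≤ T := by
    rw [hE, hT, Real.exp_le_exp]
    have : 0 ≤ ℓ * (i : ℝ) := by positivity
    linarith
  have hX : ‖x‖ ≤ C₁ * E * R := hx.trans (by gcongr)
  have hcast : ((t + i : ℕ) : ℝ) = (t : ℝ) + i := by push_cast; ring
  have hY : ‖La L (t + i) w‖ ≤ E * R := by
    rw [norm_La ℓ L (t + i) w, hcast]
    exact mul_le_mul_of_nonneg_left ((hS.pin.Nm_anti (by omega) w).trans hNw) hE0.le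
  have hD : ‖x - La L (t + i) w‖ ≤ E * (C₁ * T * R ^ 2) := by
    have h1 : x - La L (t + i) w = La L (t + i) (Wo L f t w i - w) := by
      rw [map_sub, La_Wo]
    rw [h1, norm_La ℓ L (t + i), hcast]
    refine mul_le_mul_of_nonneg_left (hdiff.trans ?_) hE0.le
    have hT0 : 0 < T := Real.exp_pos _
    gcongr
  have h2 : La L (t + i + 1) (Wo L f t w (i + 1) - Wo L f t w i - bm L B (t + i) w w) =
      (f (t + i) x - L (t + i) x - B (t + i) x x) + B (t + i) (x - La L (t + i) w) x +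
        B (t + i) (La L (t + i) w) (x - La L (t + i) w) := by
    rw [map_sub, La_Wo_sub, La_bm, ← hxdef]
    rw [map_sub (B (t + i)) x, map_sub (B (t + i) (La L (t + i) w))]
    change _ = _ + (B (t + i) x x - B (t + i) (La L (t + i) w) x) + _
    abel
  have h3 : ‖La L (t + i + 1) (Wo L f t w (i + 1) - Wo L f t w i - bm L B (t + i) w w)‖ ≤
      C * ‖x‖ ^ 3 + C * ‖x - La L (t + i) w‖ * ‖x‖ +
        C * ‖La L (t + i) w‖ * ‖x - La L (t + i) w‖ := by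
    rw [h2]
    refine (norm_add_le _ _).trans (add_le_add ((norm_add_le _ _).trans (add_le_add ?_ ?_)) ?_)
    · exact hQ.ap (t + i) x hxr
    · exact hQ.bd _ _ _
    · exact hQ.bd _ _ _
  have h4 := sEmEAux.final hC hC1 hR hE0 hET (norm_nonneg x) (norm_nonneg (La L (t + i) w))
    (norm_nonneg (x - La L (t + i) w)) hX hY hD
  have h5 : Nm ℓ L (t + i + 1) (Wo L f t w (i + 1) - Wo L f t w i - bm L B (t + i) w w) =
      Real.exp (ℓ * ((t + i + 1 : ℕ) : ℝ)) *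
        ‖La L (t + i + 1) (Wo L f t w (i + 1) - Wo L f t w i - bm L B (t + i) w w)‖ := rfl
  rw [h5]
  calc Real.exp (ℓ * ((t + i + 1 : ℕ) : ℝ)) *
        ‖La L (t + i + 1) (Wo L f t w (i + 1) - Wo L f t w i - bm L B (t + i) w w)‖
      ≤ Real.exp (ℓ * ((t + i + 1 : ℕ) : ℝ)) * (3 * C * C₁ ^ 3 * R ^ 3 * (E ^ 2 * T)) :=
        mul_le_mul_of_nonneg_left (h3.trans h4) (Real.exp_pos _).le
    _ = 3 * C * C₁ ^ 3 * R ^ 3 * (Real.exp (ℓ * ((t + i + 1 : ℕ) : ℝ)) * (E ^ 2 * T)) := by ring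
    _ = 3 * C * C₁ ^ 3 * R ^ 3 * (Real.exp ℓ * Real.exp (-(ℓ * (2 * t + i)))) := by
        congr 1
        rw [hE, hT, pow_two, ← Real.exp_add, ← Real.exp_add, ← Real.exp_add, ← Real.exp_add]
        congr 1
        push_cast
        ring
    _ = _ := by ring

end Pool.Agent.Lib.BedG
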