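import Pool.Agent.Lib.BedG.SpecN

/-!
# MP_6f050a_an, theorem G: from the time `m + 1` to all times
-/

set_option autoImplicit false

open scoped Topology
open Set Filter Metric

namespace Pool.Agent.Lib.BedG

theorem sEmR : S_EmR := by
  intro k ε ℓ κ Y L hL hY t n i E hκ hin hE
  have hℓ := hL.ℓ_pos
  have hε := hL.ε_pos
  rw [rho_le_iff]
  intro m hm
  have hin' : (i : ℝ) + 1 ≤ n := by exact_mod_cast hin
  have hm0 : (0 : ℝ) ≤ m := Nat.cast_nonneg m
  have hi0 : (0 : ℝ) ≤ i := Nat.cast_nonneg i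
  have hm' : (m : ℝ) ≤ t + n := by exact_mod_cast hm
  have key : ∀ x : ℝ, x ≤ (1 + ε) * ℓ - κ * ℓ * t →
      Real.exp x * Y ≤ Real.exp ((1 + ε) * ℓ) * Y * Real.exp (-(κ * ℓ * t)) := by
    intro x hx
    have h1 : Real.exp ((1 + ε) * ℓ) * Y * Real.exp (-(κ * ℓ * t)) =
        Real.exp ((1 + ε) * ℓ - κ * ℓ * t) * Y := by
      rw [sub_eq_add_neg, Real.exp_add]
      ring
    rw [h1]
    exact mul_le_mul_of_nonneg_right (Real.exp_le_exp.2 hx) hY
  rcases le_total m (t + i + 1) with h | h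
  · have h1 := hL.Nm_le_exp h E
    calc Real.exp (ε * ℓ * m) * Nm ℓ L m E
        ≤ Real.exp (ε * ℓ * m) * (Real.exp ((1 + ε) * ℓ * (((t + i + 1 : ℕ) : ℝ) - m)) *
            (Y * Real.exp (-(ℓ * (2 * t + i))))) :=
          mul_le_mul_of_nonneg_left (h1.trans
            (mul_le_mul_of_nonneg_left hE (Real.exp_pos _).le)) (Real.exp_pos _).le
      _ = Real.exp (ε * ℓ * m + (1 + ε) * ℓ * (((t + i + 1 : ℕ) : ℝ) - m) +
            -(ℓ * (2 * t + i))) * Y := by
          rw [Real.exp_add, Real.exp_add]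
          ring
      _ ≤ _ := key _ ?_
    push_cast
    have h2 : ε * (t + i) - t - m ≤ -(κ * t) := by nlinarith
    have h3 := mul_le_mul_of_nonneg_left h2 hℓ.le
    nlinarith [h3]
  · have h1 := hL.Nm_anti h E
    calc Real.exp (ε * ℓ * m) * Nm ℓ L m E
        ≤ Real.exp (ε * ℓ * m) * (Y * Real.exp (-(ℓ * (2 * t + i)))) :=
          mul_le_mul_of_nonneg_left (h1.trans hE) (Real.exp_pos _).le
      _ = Real.exp (ε * ℓ * m + -(ℓ * (2 * t + i))) * Y := by
          rw [Real.exp_add]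
          ring
      _ ≤ _ := key _ ?_
    have h4 : (0 : ℝ) ≤ t := Nat.cast_nonneg t
    have h2 : ε * m - 2 * t - i ≤ -(κ * t) := by nlinarith
    have h3 := mul_le_mul_of_nonneg_left h2 hℓ.le
    nlinarith [h3, mul_pos hε hℓ]

end Pool.Agent.Lib.BedG
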