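import Pool.Agent.Lib.BedG.SpecN

/-!
# GA: doubling is slower than the growth of the times
-/

set_option autoImplicit false

open scoped Topology
open Set Filter Metric

namespace Pool.Agent.Lib.BedG

namespace sGAAux

theorem t_tendsto (K₁ : ℝ) (t : ℕ → ℝ) (hK : 2 < K₁) (h1 : ∀ j, 1 ≤ t j)
    (hs : ∀ j, K₁ * t j ≤ t (j + 1)) : Tendsto t atTop atTop := by
  have h2 : ∀ j : ℕ, (j : ℝ) ≤ t j := by
    intro j
    induction j with
    | zero => exact le_trans (by norm_num) (h1 0)
    | succ j ih =>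
      have h3 := hs j
      have h4 := h1 j
      push_cast
      nlinarith
  exact tendsto_atTop_mono h2 tendsto_natCast_atTop_atTop

/-- `log (c x) / x → 0`. -/
theorem log_div_tendsto (c : ℝ) (hc : 0 < c) :
    Tendsto (fun x : ℝ => Real.log (c * x) / x) atTop (𝓝 0) := by
  have h1 : Tendsto (fun x : ℝ => Real.log c / x + Real.log x / x) atTop (𝓝 0) := by
    have h2 : Tendsto (fun x : ℝ => Real.log c / x) atTop (𝓝 0) :=
      tendsto_const_nhds.div_atTop tendsto_id
    have h3 : Tendsto (fun x : ℝ => Real.log x / x) atTop (𝓝 0) := by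
      have := Real.isLittleO_log_id_atTop.tendsto_div_nhds_zero
      simpa using this
    simpa using h2.add h3
  refine h1.congr' ?_
  filter_upwards [eventually_gt_atTop 0] with x hx
  rw [Real.log_mul hc.ne' hx.ne', add_div]

/-- A recursion with a contraction. -/
theorem rec_le (q e : ℝ) (hq0 : 0 ≤ q) (z : ℕ → ℝ) (j₀ : ℕ)
    (hz : ∀ j, j₀ ≤ j → z (j + 1) ≤ (1 - q) * e + q * z j) (i : ℕ) :
    z (j₀ + i) ≤ q ^ i * |z j₀ - e| + e := by
  induction i with
  | zero =>
    rw [pow_zero, one_mul, add_zero]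
    have := le_abs_self (z j₀ - e)
    linarith
  | succ i ih =>
    have h1 := hz (j₀ + i) (by omega)
    have h2 := mul_le_mul_of_nonneg_left ih hq0
    rw [← add_assoc, pow_succ]
    nlinarith

theorem z_tendsto (q : ℝ) (hq0 : 0 ≤ q) (hq1 : q < 1) (η z : ℕ → ℝ)
    (hη : Tendsto η atTop (𝓝 0)) (hz : ∀ j, z (j + 1) ≤ η j + q * z j) (e : ℝ) (he : 0 < e) :
    ∀ᶠ j in atTop, z j ≤ e := by
  have h1 : ∀ᶠ j in atTop, η j < (1 - q) * (e / 2) :=
    hη.eventually (gt_mem_nhds (mul_pos (by linarith) (by linarith)))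
  obtain ⟨j₀, hj₀⟩ := eventually_atTop.mp h1
  have h2 := rec_le q (e / 2) hq0 z j₀ (fun j hj => by
    have := hz j
    have := hj₀ j hj
    linarith)
  have h3 : Tendsto (fun i : ℕ => q ^ i * |z j₀ - e / 2|) atTop (𝓝 0) := by
    simpa using (tendsto_pow_atTop_nhds_zero_of_lt_one hq0 hq1).mul_const (|z j₀ - e / 2|)
  have h4 : ∀ᶠ i : ℕ in atTop, q ^ i * |z j₀ - e / 2| < e / 2 :=
    h3.eventually (gt_mem_nhds (by linarith))
  obtain ⟨i₀, hi₀⟩ := eventually_atTop.mp h4
  refine eventually_atTop.mpr ⟨j₀ + i₀, fun j hj => ?_⟩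
  obtain ⟨i, rfl⟩ := Nat.exists_eq_add_of_le (le_trans (Nat.le_add_right j₀ i₀) hj)
  have h5 := h2 i
  have h6 := hi₀ i (by omega)
  linarith

end sGAAux

open sGAAux in
theorem sGA : S_GA := by
  intro C K₁ δ t y hC hK hδ h1 hs hy hr
  have htt := t_tendsto K₁ t hK h1 hs
  have htp : ∀ j, 0 < t j := fun j => lt_of_lt_of_le one_pos (h1 j)
  have hyp : ∀ j, 0 < 1 + y j := fun j => by linarith [hy j]
  have hY0 : ∀ j, 0 ≤ Real.log (1 + y j) := fun j => Real.log_nonneg (by linarith [hy j])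
  have hK0 : 0 < K₁ := by linarith
  -- the recursion for the logarithms
  have hY : ∀ j, Real.log (1 + y (j + 1)) ≤
      Real.log ((1 + C) * t (j + 1)) + 2 * Real.log (1 + y j) := by
    intro j
    have h2 : 1 + y (j + 1) ≤ (1 + C) * t (j + 1) * (1 + y j) ^ 2 := by
      have h3 := hr j
      have h4 : 1 ≤ t (j + 1) * (1 + y j) ^ 2 := by
        have h5 : 1 ≤ (1 + y j) ^ 2 := one_le_pow₀ (by linarith [hy j])
        have h6 := h1 (j + 1)
        nlinarith
      nlinarith
    have h7 : 0 < (1 + C) * t (j + 1) := mul_pos (by linarith) (htp _)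
    calc Real.log (1 + y (j + 1)) ≤ Real.log ((1 + C) * t (j + 1) * (1 + y j) ^ 2) :=
          Real.log_le_log (hyp _) h2
      _ = Real.log ((1 + C) * t (j + 1)) + 2 * Real.log (1 + y j) := by
          rw [Real.log_mul h7.ne' (pow_pos (hyp j) 2).ne', Real.log_pow]
          norm_num
  have hη : Tendsto (fun j => Real.log ((1 + C) * t (j + 1)) / t (j + 1)) atTop (𝓝 0) :=
    (log_div_tendsto (1 + C) (by linarith)).comp (htt.comp (tendsto_add_atTop_nat 1))
  have hz : ∀ j, Real.log (1 + y (j + 1)) / t (j + 1) ≤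
      Real.log ((1 + C) * t (j + 1)) / t (j + 1) + 2 / K₁ * (Real.log (1 + y j) / t j) := by
    intro j
    have h2 : Real.log (1 + y (j + 1)) / t (j + 1) ≤
        (Real.log ((1 + C) * t (j + 1)) + 2 * Real.log (1 + y j)) / t (j + 1) :=
      div_le_div_of_nonneg_right (hY j) (htp _).le
    have h3 : 2 * Real.log (1 + y j) / t (j + 1) ≤ 2 / K₁ * (Real.log (1 + y j) / t j) := by
      rw [div_mul_div_comm]
      exact div_le_div_of_nonneg_left (mul_nonneg (by norm_num) (hY0 j))
        (mul_pos hK0 (htp j)) (hs j)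
    rw [add_div] at h2
    linarith
  have hev := z_tendsto (2 / K₁) (div_nonneg (by norm_num) hK0.le)
    ((div_lt_one hK0).mpr hK) (fun j => Real.log ((1 + C) * t (j + 1)) / t (j + 1))
    (fun j => Real.log (1 + y j) / t j) hη hz (δ / 2) (by linarith)
  have hev2 : ∀ᶠ j in atTop, 4 ≤ Real.exp (δ / 2 * t j) :=
    (Real.tendsto_exp_atTop.comp (htt.const_mul_atTop (by linarith : 0 < δ / 2))).eventually_ge_atTop 4
  filter_upwards [hev, hev2] with j h2 h3
  have h4 : Real.log (1 + y j) ≤ δ / 2 * t j := (div_le_iff₀ (htp j)).mp h2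
  have h5 : 1 + y j ≤ Real.exp (δ / 2 * t j) := (Real.log_le_iff_le_exp (hyp j)).mp h4
  have h6 : Real.exp (δ * t j) = Real.exp (δ / 2 * t j) * Real.exp (δ / 2 * t j) := by
    rw [← Real.exp_add]
    congr 1
    ring
  rw [h6]
  nlinarith

end Pool.Agent.Lib.BedG
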