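import Pool.Agent.Lib.BedG.SpecN

/-!
# GB: the orbits in the linear coordinates grow slowly
-/

set_option autoImplicit false

open scoped Topology
open Set Filter Metric

namespace Pool.Agent.Lib.BedG

namespace sGBAux

theorem step {k : ℕ} {ε ℓ r C₁ : ℝ} {f : ℕ → EE k → EE k} {L : ℕ → EE k ≃L[ℂ] EE k}
    (hP : Pin ε ℓ L) (hC : 1 ≤ C₁) (hW : WdC ℓ r C₁ f L) (t : ℕ) (w : EE k)
    (hw : ‖La L t w‖ < r) (n a : ℕ) (ha : ε * ((t : ℝ) + n) ≤ (1 + ε) * a) (i : ℕ) (hi : i < n) :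
    Nm ℓ L a (Wo L f t w (i + 1) - Wo L f t w i) ≤
      C₁ * Real.exp ((1 + ε) * ℓ) * Nm ℓ L t w ^ 2 := by
  have hε := hP.ε_pos
  have hℓ := hP.ℓ_pos
  obtain ⟨-, h2, -⟩ := hW t w hw i
  have hX : 0 ≤ Nm ℓ L t w ^ 2 := sq_nonneg _
  have hC0 : 0 ≤ C₁ := by linarith
  have hin : (i : ℝ) ≤ n := by exact_mod_cast hi.le
  rcases le_or_gt a (t + i + 1) with hcase | hcase
  · refine (hP.Nm_le_exp hcase _).trans ?_
    calc Real.exp ((1 + ε) * ℓ * (((t + i + 1 : ℕ) : ℝ) - a)) *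
          Nm ℓ L (t + i + 1) (Wo L f t w (i + 1) - Wo L f t w i)
        ≤ Real.exp ((1 + ε) * ℓ * (((t + i + 1 : ℕ) : ℝ) - a)) *
          (C₁ * Real.exp (-(ℓ * (t + i))) * Nm ℓ L t w ^ 2) :=
          mul_le_mul_of_nonneg_left h2 (Real.exp_pos _).le
      _ = C₁ * Real.exp ((1 + ε) * ℓ * (((t + i + 1 : ℕ) : ℝ) - a) + -(ℓ * (t + i))) *
          Nm ℓ L t w ^ 2 := by rw [Real.exp_add]; ring
      _ ≤ C₁ * Real.exp ((1 + ε) * ℓ) * Nm ℓ L t w ^ 2 := by
          refine mul_le_mul_of_nonneg_right (mul_le_mul_of_nonneg_left ?_ hC0) hX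
          refine Real.exp_le_exp.mpr ?_
          have e : (1 + ε) * ℓ * (((t + i + 1 : ℕ) : ℝ) - a) + -(ℓ * (t + i)) =
              (1 + ε) * ℓ + ℓ * (ε * (t + i) - (1 + ε) * a) := by
            push_cast
            ring
          rw [e]
          have h3 : ε * ((t : ℝ) + i) - (1 + ε) * a ≤ 0 := by nlinarith
          nlinarith
  · refine (hP.Nm_anti hcase.le _).trans (h2.trans ?_)
    refine mul_le_mul_of_nonneg_right (mul_le_mul_of_nonneg_left ?_ hC0) hX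
    refine Real.exp_le_exp.mpr ?_
    have h3 : 0 ≤ ℓ * ((t : ℝ) + i) := by positivity
    have h4 : 0 ≤ (1 + ε) * ℓ := by positivity
    linarith

end sGBAux

open sGBAux in
theorem sGB : S_GB := by
  intro k ε ℓ r C₁ f L hP hC hW t w hw
  set K : ℝ := C₁ * Real.exp ((1 + ε) * ℓ) * Nm ℓ L t w ^ 2 with hK
  have hK0 : 0 ≤ K := by
    have : 0 ≤ C₁ := by linarith
    positivity
  refine ⟨‖w‖ + K, add_nonneg (norm_nonneg _) hK0, fun n a ha => ?_⟩
  have main : ∀ m : ℕ, m ≤ n → Nm ℓ L a (Wo L f t w m) ≤ ‖w‖ + m * K := by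
    intro m
    induction m with
    | zero =>
      intro _
      rw [Wo_zero]
      have := hP.Nm_le_norm a w
      simpa using this
    | succ m ih =>
      intro hm
      have h1 := ih (by omega)
      have h2 := step hP hC hW t w hw n a ha m (by omega)
      have h3 := Nm_add_le ℓ L a (Wo L f t w m) (Wo L f t w (m + 1) - Wo L f t w m)
      rw [add_sub_cancel] at h3
      push_cast
      linarith
  have h := main n le_rfl
  have h1 : (0 : ℝ) ≤ n := Nat.cast_nonneg n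
  have h2 : 0 ≤ ‖w‖ * n := mul_nonneg (norm_nonneg _) h1
  nlinarith

end Pool.Agent.Lib.BedG
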