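import Pool.Agent.Lib.BedG.SpecN

/-!
# GS: growth of the automorphism of a block
-/

set_option autoImplicit false

open scoped Topology
open Set Filter Metric

namespace Pool.Agent.Lib.BedG

theorem sGS : S_GS := by
  intro k ε ℓ C
  refine ⟨1 + |cB ε ℓ C| + |cD k ε ℓ C|, by
    have := abs_nonneg (cB ε ℓ C)
    have := abs_nonneg (cD k ε ℓ C)
    linarith, ?_⟩
  intro L B hP hC hB κ a t s n a' e c hblk hexp hD haa hat hεa w
  have hε := hP.ε_pos
  have hℓ := hP.ℓ_pos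
  have hκ := hblk.κ_pos
  have hNy : ∀ m : ℕ, a ≤ m → Nm ℓ L m w ≤ Nm ℓ L a w := fun m hm => hP.Nm_anti hm w
  have hy0 : 0 ≤ Nm ℓ L a w := Nm_nonneg ℓ L a w
  have hcB : 1 ≤ cB ε ℓ C := one_le_cB hC hε.le hℓ.le
  have hcB0 : 0 ≤ cB ε ℓ C := by linarith
  have hcD0 : 0 ≤ cD k ε ℓ C := by
    unfold cD
    positivity
  have ht1 : (1 : ℝ) ≤ t := by exact_mod_cast hblk.one_le
  have hn0 : (0 : ℝ) ≤ n := Nat.cast_nonneg n
  -- the quadratic terms
  have hb : ∀ j ∈ Finset.range n, Nm ℓ L a' (bm L B (t + j) w w) ≤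
      cB ε ℓ C * Nm ℓ L a w ^ 2 := by
    intro j hj
    have hjn : j < n := Finset.mem_range.1 hj
    have ham : a ≤ t + j := hblk.a_le_t.trans (Nat.le_add_right _ _)
    have hm0 : 0 ≤ Nm ℓ L (t + j) w := Nm_nonneg ℓ L (t + j) w
    have hprod : Nm ℓ L (t + j) w * Nm ℓ L (t + j) w ≤ Nm ℓ L a w ^ 2 := by
      rw [pow_two]
      exact mul_le_mul (hNy _ ham) (hNy _ ham) hm0 hy0
    have hprod0 : 0 ≤ Nm ℓ L (t + j) w * Nm ℓ L (t + j) w := mul_nonneg hm0 hm0
    rcases le_or_gt a' (t + j + 1) with h | h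
    · have h1 := (hB (t + j) a' w w).1 h
      have hexp1 : Real.exp (ℓ * ((1 + ε) * (((t + j : ℕ) : ℝ) - a') - ((t + j : ℕ) : ℝ))) ≤ 1 := by
        rw [Real.exp_le_one_iff]
        have hjn' : (j : ℝ) ≤ n := by exact_mod_cast hjn.le
        have h2 : (1 + ε) * (((t + j : ℕ) : ℝ) - a') - ((t + j : ℕ) : ℝ) ≤ 0 := by
          push_cast
          have : ε * (j : ℝ) ≤ ε * n := mul_le_mul_of_nonneg_left hjn' hε.le
          linarith
        exact mul_nonpos_of_nonneg_of_nonpos hℓ.le h2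
      calc _ ≤ cB ε ℓ C * Real.exp (ℓ * ((1 + ε) * (((t + j : ℕ) : ℝ) - a') -
            ((t + j : ℕ) : ℝ))) * (Nm ℓ L (t + j) w * Nm ℓ L (t + j) w) := h1
        _ ≤ cB ε ℓ C * 1 * (Nm ℓ L (t + j) w * Nm ℓ L (t + j) w) := by
            refine mul_le_mul_of_nonneg_right ?_ hprod0
            exact mul_le_mul_of_nonneg_left hexp1 hcB0
        _ ≤ cB ε ℓ C * 1 * Nm ℓ L a w ^ 2 := by
            refine mul_le_mul_of_nonneg_left hprod ?_
            linarith
        _ = _ := by rw [mul_one]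
    · have h1 := (hB (t + j) a' w w).2 (by omega)
      have hexp1 : Real.exp (-(ℓ * ((t + j : ℕ) : ℝ))) ≤ 1 := by
        rw [Real.exp_le_one_iff, neg_nonpos]
        positivity
      calc _ ≤ cB ε ℓ C * Real.exp (-(ℓ * ((t + j : ℕ) : ℝ))) *
            (Nm ℓ L (t + j) w * Nm ℓ L (t + j) w) := h1
        _ ≤ cB ε ℓ C * 1 * (Nm ℓ L (t + j) w * Nm ℓ L (t + j) w) := by
            refine mul_le_mul_of_nonneg_right ?_ hprod0
            exact mul_le_mul_of_nonneg_left hexp1 hcB0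
        _ ≤ cB ε ℓ C * 1 * Nm ℓ L a w ^ 2 := by
            refine mul_le_mul_of_nonneg_left hprod ?_
            linarith
        _ = _ := by rw [mul_one]
  -- the D-terms
  have hd : ∀ j ∈ Finset.range n, Nm ℓ L a' (Dm L B e c (t + j) w w) ≤
      cD k ε ℓ C * Nm ℓ L a w ^ 2 := by
    intro j hj
    have hjn : j < n := Finset.mem_range.1 hj
    have h1 := hD (t + j) (Nat.le_add_right _ _) (by omega) w w
    have h2 := Nm_le_rho (L := L) hε.le hℓ.le hat (Dm L B e c (t + j) w w)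
    have hexp1 : Real.exp (-(κ * ℓ * (t : ℝ))) ≤ 1 := by
      rw [Real.exp_le_one_iff, neg_nonpos]
      positivity
    calc _ ≤ _ := h2
      _ ≤ _ := h1
      _ ≤ cD k ε ℓ C * 1 * (Nm ℓ L a w * Nm ℓ L a w) := by
          refine mul_le_mul_of_nonneg_right ?_ (mul_nonneg hy0 hy0)
          exact mul_le_mul_of_nonneg_left hexp1 hcD0
      _ = _ := by ring
  have h3 : Nm ℓ L a' (QQ L B t n w) ≤ n * (cB ε ℓ C * Nm ℓ L a w ^ 2) := by
    unfold QQ
    refine (Nm_sum_le ℓ L a' _ _).trans ?_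
    refine (Finset.sum_le_sum hb).trans ?_
    rw [Finset.sum_const, Finset.card_range, nsmul_eq_mul]
  have h4 : Nm ℓ L a' (DD L B e c t n w) ≤ n * (cD k ε ℓ C * Nm ℓ L a w ^ 2) := by
    unfold DD
    refine (Nm_sum_le ℓ L a' _ _).trans ?_
    refine (Finset.sum_le_sum hd).trans ?_
    rw [Finset.sum_const, Finset.card_range, nsmul_eq_mul]
  have h5 : Nm ℓ L a' (Sb L B e c t n w) ≤
      Nm ℓ L a w + n * (cB ε ℓ C * Nm ℓ L a w ^ 2) + n * (cD k ε ℓ C * Nm ℓ L a w ^ 2) := by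
    rw [Sb_eq B e c hexp]
    refine (Nm_sub_le ℓ L a' _ _).trans ?_
    have := Nm_add_le ℓ L a' w (QQ L B t n w)
    have := hNy a' haa
    linarith
  rw [abs_of_nonneg hcB0, abs_of_nonneg hcD0]
  refine h5.trans ?_
  set y := Nm ℓ L a w with hy
  have hN : (1 : ℝ) ≤ (t : ℝ) + n := by linarith
  have hyN : y ≤ ((t : ℝ) + n) * (1 + y) ^ 2 := by
    have : y ≤ 1 * (1 + y) ^ 2 := by nlinarith
    exact this.trans (mul_le_mul_of_nonneg_right hN (sq_nonneg _))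
  have hy2 : (n : ℝ) * y ^ 2 ≤ ((t : ℝ) + n) * (1 + y) ^ 2 := by
    refine mul_le_mul (by linarith) ?_ (sq_nonneg _) (by linarith)
    exact pow_le_pow_left₀ hy0 (by linarith) 2
  have e1 := mul_le_mul_of_nonneg_left hy2 hcB0
  have e2 := mul_le_mul_of_nonneg_left hy2 hcD0
  nlinarith

end Pool.Agent.Lib.BedG
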