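import Pool.Agent.Lib.BedG.SpecR

/-!
# MP_6f050a_an, theorem G: MkA, collecting the facts on one block
-/

set_option autoImplicit false

open scoped Topology
open Set Filter Metric

namespace Pool.Agent.Lib.BedG

namespace sMkAAux

/-- A larger constant. -/
theorem mono3 {C D x y z : ℝ} (h : C ≤ D) (hx : 0 ≤ x) (hy : 0 ≤ y) (hz : 0 ≤ z) :
    C * x * y * z ≤ D * x * y * z :=
  mul_le_mul_of_nonneg_right (mul_le_mul_of_nonneg_right (mul_le_mul_of_nonneg_right h hx) hy) hz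

theorem mono2 {C D x y : ℝ} (h : C ≤ D) (hx : 0 ≤ x) (hy : 0 ≤ y) :
    C * x * y ≤ D * x * y :=
  mul_le_mul_of_nonneg_right (mul_le_mul_of_nonneg_right h hx) hy

end sMkAAux

open sMkAAux in
theorem sMkA : S_MkA := by
  intro hSVD hSB hPrj hTrI hTay hQdE hbmE hDmA hDmB hDmE hOrb hOBd hWdf hEmE hEmR hNear hUQ hUD
    hUP hUI hGS k ε ℓ r C₀ f L h
  obtain ⟨C, B, hQd⟩ := hQdE hTay k ε ℓ r C₀ f L h
  have hBm : BmC ε ℓ C L B := hbmE k ε ℓ r C f L B h.pin hQd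
  obtain ⟨C₁, hC₁, hWd⟩ := hWdf hOrb hOBd k ε ℓ r C₀ f L h
  obtain ⟨C₂, hC₂, hN⟩ := hNear hOrb hEmE hEmR k ε ℓ r C₀ C C₁ f L B h hQd hC₁ hWd
  obtain ⟨C₃, hC₃, hI⟩ := hUI hUP hTrI hUQ hUD k ε ℓ C
  obtain ⟨C₄, hC₄, hG⟩ := hGS k ε ℓ C
  refine ⟨C₂ + C₃ + C₄, by linarith, ?_⟩
  intro κ a t s n hBlk
  obtain ⟨e, c, σ, hsb⟩ := hSB hSVD k ℓ L a s
  have hpr : PrC ℓ L a s e c σ := hPrj k ℓ L a s e c σ hsb
  have hDm : DmC ε ℓ C κ L B a t n e c :=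
    hDmE hDmA hDmB k ε ℓ C L B h.pin hQd.one_le hBm κ a t s n e c σ hBlk hsb hpr
  obtain ⟨d1, d2, d3, d4⟩ := hTrI k e c hsb.expand hsb.dual (QQ L B t n) (differentiable_QQ B L t n)
  have htn : (0 : ℝ) ≤ (t : ℝ) + n := by positivity
  have h2 : C₂ ≤ C₂ + C₃ + C₄ := by linarith
  have h3 : C₃ ≤ C₂ + C₃ + C₄ := by linarith
  have h4 : C₄ ≤ C₂ + C₃ + C₄ := by linarith
  refine ⟨Sb L B e c t n, Tb L B e c t n, ?_⟩
  refine { S_diff := differentiable_id.add d1, T_diff := d2, ST := d3, TS := d4, near := ?_, pull := ?_, grow := ?_ }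
  · intro R w hR hw hr
    exact (hN κ a t s n e c hBlk hsb.expand hDm R w hR hw hr).trans
      (mono3 h2 htn (by positivity) (Real.exp_pos _).le)
  · intro R hR hsm w ζ hw hζ
    have hR0 : 0 ≤ R := by linarith
    have hρ : 0 ≤ rho ε ℓ L (t + n) ζ := rho_nonneg ε ℓ L (t + n) ζ
    have e1 : C₃ * ((t : ℝ) + n) ^ 2 * R ^ 2 * Real.exp (-(κ * ℓ * t)) ≤ 1 :=
      (mono3 h3 (by positivity) (by positivity) (Real.exp_pos _).le).trans hsm
    have e2 : C₃ * ((t : ℝ) + n) * R * rho ε ℓ L (t + n) ζ ≤ 1 :=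
      (mono3 h3 htn hR0 hρ).trans hζ
    exact (hI L B h.pin hQd.one_le hBm κ a t s n e c hBlk hsb.expand hsb.dual hDm R hR e1 w ζ hw
      e2).trans (mono3 h3 htn hR0 hρ)
  · intro a' h5 h6 h7 w
    exact (hG L B h.pin hQd.one_le hBm κ a t s n a' e c hBlk hsb.expand hDm h5 h6 h7 w).trans
      (mono2 h4 htn (by positivity))

end Pool.Agent.Lib.BedG
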