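import Pool.Agent.Lib.BedG.SpecR

/-!
# MP_6f050a_an, theorem G, part E: the maps of the blocks form a train (`S_MkB`)
-/

set_option autoImplicit false

open scoped Topology
open Set Filter Metric

namespace Pool.Agent.Lib.BedG

namespace sMkBAux

/-- Exponential growth beats linear growth. -/
theorem lin_le_exp (M c : ℝ) (hM : 0 ≤ M) (hc : 0 < c) :
    ∀ᶠ x : ℝ in atTop, M * (1 + x) ≤ Real.exp (c * x) / 4 := by
  filter_upwards [eventually_ge_atTop (1 : ℝ), eventually_ge_atTop (16 * M / c ^ 2)] with x h1 h2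
  have hc2 : 0 < c ^ 2 := by positivity
  rw [div_le_iff₀ hc2] at h2
  have hx0 : 0 ≤ x := by linarith
  have h3 : 1 + c * x + (c * x) ^ 2 / 2 ≤ Real.exp (c * x) :=
    Real.quadratic_le_exp_of_nonneg (by positivity)
  have h4 : M * (1 + x) ≤ 2 * M * x := by nlinarith
  have h5 : 16 * M * x ≤ x * c ^ 2 * x := mul_le_mul_of_nonneg_right h2 hx0
  have h6 : 0 ≤ c * x := by positivity
  have h7 : 16 * M * x ≤ (c * x) ^ 2 := by
    rw [mul_pow]
    linarith
  linarith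

end sMkBAux

open sMkBAux

theorem sMkB : S_MkB := by
  intro hBk hEK hEL1 hEL2 hOrb hOBd hWdf hTh hCmp hGB hGA k ε ℓ r C₀ f L hS
  obtain ⟨C, hC1, hC⟩ := hBk k ε ℓ r C₀ f L hS
  have hp := hS.pin
  have hε := hp.ε_pos
  have hℓ := hp.ℓ_pos
  obtain ⟨κ, K₁, K, hκ, hκ1, hK1, hK1K, hT⟩ := hEK ε hε hp.ε_lt
  obtain ⟨τ₀, hτ1, hτ⟩ := hEL1 C κ ℓ K₁ K r hC1 hκ hκ1 hℓ hK1 hK1K hS.r_pos
  obtain ⟨T₀, hT₀⟩ := exists_nat_ge (max τ₀ (7 / (κ * ℓ)))
  obtain ⟨t, a, s, n, ht0, hTm⟩ := hT T₀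
  have hκℓ : 0 < κ * ℓ := mul_pos hκ hℓ
  have ht0' : (T₀ : ℝ) ≤ t 0 := by exact_mod_cast ht0
  have htp : ∀ j, (0 : ℝ) ≤ t j := fun j => Nat.cast_nonneg _
  have ht2 : ∀ j, 2 * (t j : ℝ) ≤ t (j + 1) := fun j => by
    have h1 := hTm.low j
    have h2 : 2 * (t j : ℝ) ≤ K₁ * t j := mul_le_mul_of_nonneg_right hK1.le (htp j)
    linarith
  have htτ : ∀ j, τ₀ ≤ (t j : ℝ) := by
    intro j
    induction j with
    | zero => exact (le_max_left _ _).trans (hT₀.trans ht0')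
    | succ j ih =>
      have h1 := ht2 j
      have h2 := htp j
      linarith
  have ht1 : ∀ j, (1 : ℝ) ≤ t j := fun j => hτ1.trans (htτ j)
  have hsum : ∀ j, ((t j : ℝ) + n j) = t (j + 1) := fun j => by
    rw [hTm.succ j]
    push_cast
    ring
  choose S T hST using fun j => hC κ (a j) (t j) (s j) (n j) (hTm.blk j)
  obtain ⟨R, hR⟩ : ∃ R : ℕ → ℝ, ∀ j, R j = Real.exp (κ * ℓ / 10 * t j) := ⟨_, fun _ => rfl⟩
  obtain ⟨e, he⟩ : ∃ e : ℕ → ℝ, ∀ j, e j = C * t (j + 1) * R j ^ 3 *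
    Real.exp (-(κ * ℓ * t j)) := ⟨_, fun _ => rfl⟩
  obtain ⟨A, hA⟩ : ∃ A : ℕ → ℝ, ∀ j, A j = C * t (j + 1) * (2 * R j) := ⟨_, fun _ => rfl⟩
  have hE := fun j => hτ (t j) (t (j + 1)) (R j) (R (j + 1)) (htτ j) (hTm.low j) (hTm.up j)
    (hR j) (hR (j + 1))
  have hRp : ∀ j, 0 < R j := fun j => by
    rw [hR]
    exact Real.exp_pos _
  have hR8 : ∀ j, 8 ≤ R j := fun j => (hE j).1
  have he0 : ∀ j, 0 ≤ e j := fun j => by
    rw [he]
    have := htp (j + 1)
    have := hRp j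
    positivity
  have hTh' := fun j => hTh hOrb k ε ℓ r C₀ f L hS (t j) (n j)
  have hn1 : ∀ j, 1 ≤ n j := by
    intro j
    by_contra hc
    have h0 : n j = 0 := by omega
    have h1 := hsum j
    rw [h0, Nat.cast_zero, add_zero] at h1
    have h2 := ht2 j
    have h3 := ht1 j
    linarith
  have hnear : ∀ j z, Nm ℓ L (a j) z ≤ R j → ‖La L (t j) z‖ < r →
      rho ε ℓ L (t (j + 1)) (Th L f (t j) (n j) z - S j z) ≤ e j := by
    intro j z hz hz'
    have h1 := (hST j).near (R j) z (by linarith [hR8 j]) hz hz'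
    rw [hsum j, ← hTm.succ j, ← he j] at h1
    exact h1
  have hdom : ∀ j z, Nm ℓ L (a j) z ≤ R j → ‖La L (t j) z‖ < r := by
    intro j z hz
    rw [norm_La ℓ L (t j) z]
    have h1 : Nm ℓ L (t j) z ≤ Nm ℓ L (a j) z := hp.Nm_anti (hTm.blk j).a_le_t z
    have h2 := (hE j).2.1
    refine lt_of_le_of_lt ?_ h2
    exact mul_le_mul_of_nonneg_left (h1.trans hz) (Real.exp_pos _).le
  have hgrow : ∀ j w, Nm ℓ L (a (j + 1)) (S j w) ≤ C * t (j + 1) * (1 + Nm ℓ L (a j) w) ^ 2 := by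
    intro j w
    have h1 : a (j + 1) ≤ t j + n j := by
      rw [← hTm.succ j]
      exact (hTm.blk (j + 1)).a_le_t
    have h2 : ε * ((t j : ℝ) + n j) ≤ (1 + ε) * a (j + 1) := by
      rw [hsum j]
      exact (hTm.blk (j + 1)).a_ge
    have h3 := (hST j).grow (a (j + 1)) (hTm.a_mono j) h1 h2 w
    rwa [hsum j] at h3
  refine ⟨t, n, S, T, fun j => Nm ℓ L (a j), fun j => rho ε ℓ L (t j), R, e, A, hTm.succ, hn1, ?_⟩
  refine
    { open_dom := fun j => (hTh' j).1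
      diff := fun j => (hTh' j).2.1
      maps := fun j => ?_
      inj := fun j => (hTh' j).2.2.2.1
      dinj := fun j => (hTh' j).2.2.2.2
      S_diff := fun j => (hST j).S_diff
      T_diff := fun j => (hST j).T_diff
      ST := fun j => (hST j).ST
      TS := fun j => (hST j).TS
      nu := fun j => hp.isNu (a j)
      le_rho := fun j z => norm_le_rho ε ℓ L (t j) z
      R_ge := hR8
      e_nonneg := he0
      A_ge := fun j => ?_
      dom_of := fun j z hz => hdom j z hz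
      prop := fun j z hz => ?_
      near := fun j z hz => hnear j z hz (hdom j z hz)
      pull := fun j w ζ hw hζ => ?_
      small := ?_
      S_orb := fun u => ?_
      bdd := fun l z hz => ?_ }
  · have h1 := (hTh' j).2.2.1
    rw [← hTm.succ j] at h1
    exact h1
  · rw [hA]
    exact (hE j).2.2.2.2.2.1
  · show Nm ℓ L (a (j + 1)) (Th L f (t j) (n j) z) ≤ R (j + 1)
    have hz' : Nm ℓ L (a j) z ≤ R j := hz
    have h1 := Nm_add_le ℓ L (a (j + 1)) (S j z) (Th L f (t j) (n j) z - S j z)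
    rw [add_sub_cancel] at h1
    have h2 : Nm ℓ L (a (j + 1)) (Th L f (t j) (n j) z - S j z) ≤
        rho ε ℓ L (t (j + 1)) (Th L f (t j) (n j) z - S j z) :=
      Nm_le_rho hε.le hℓ.le (hTm.blk (j + 1)).a_le_t _
    have h3 := hnear j z hz' (hdom j z hz')
    have h4 := hgrow j z
    have h5 : C * (t (j + 1) : ℝ) * (1 + Nm ℓ L (a j) z) ^ 2 ≤ C * t (j + 1) * (1 + R j) ^ 2 := by
      have h6 := Nm_nonneg ℓ L (a j) z
      have h7 := htp (j + 1)
      gcongr
    have h8 := (hE j).2.2.2.1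
    rw [← he j] at h8
    linarith
  · have h1 := (hST j).pull (2 * R j) (by linarith [hR8 j]) (by rw [hsum j]; exact (hE j).2.2.1) w ζ
      hw
    rw [hsum j, ← hTm.succ j, ← hA j] at h1
    exact h1 hζ
  · refine hEL2 κ ℓ (fun j => (t j : ℝ)) e A hκ hℓ ?_ ht2 (fun j => ⟨he0 j, ?_⟩) (fun j => ⟨?_, ?_⟩)
    · have h1 : 7 / (κ * ℓ) ≤ (t 0 : ℝ) := (le_max_right _ _).trans (hT₀.trans ht0')
      rw [div_le_iff₀ hκℓ] at h1
      show 7 ≤ κ * ℓ * (t 0 : ℝ)
      linarith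
    · rw [he]
      exact (hE j).2.2.2.2.1
    · rw [hA]
      exact (hE j).2.2.2.2.2.1
    · rw [hA]
      exact (hE j).2.2.2.2.2.2
  · have h1 := hGA C K₁ (κ * ℓ / 10) (fun j => (t j : ℝ))
      (fun l => Nm ℓ L (a l) (orbE S 0 l u)) (by linarith) hK1 (by positivity) ht1 hTm.low
      (fun j => Nm_nonneg _ _ _ _) (fun j => ?_)
    · filter_upwards [h1] with l hl
      rw [hR]
      exact hl
    · show Nm ℓ L (a (j + 1)) (orbE S 0 (j + 1) u) ≤
        C * (t (j + 1) : ℝ) * (1 + Nm ℓ L (a j) (orbE S 0 j u)) ^ 2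
      rw [orbE_succ, Nat.zero_add]
      exact hgrow j _
  · obtain ⟨C₁, hC₁, hW⟩ := hWdf hOrb hOBd k ε ℓ r C₀ f L hS
    have hz' : ‖La L (t l) z‖ < r := hz
    obtain ⟨M, hM, hMb⟩ := hGB k ε ℓ r C₁ f L hp hC₁ hW (t l) z hz'
    have hmono : StrictMono t := by
      refine strictMono_nat_of_lt_succ fun j => ?_
      have h1 := hTm.succ j
      have h2 := hn1 j
      omega
    have hmono' : StrictMono fun i => t (l + i) := fun i j hij => hmono (by omega)
    have htend : Tendsto (fun i : ℕ => (t (l + i) : ℝ)) atTop atTop :=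
      tendsto_natCast_atTop_atTop.comp hmono'.tendsto_atTop
    have hev := htend.eventually (lin_le_exp M (κ * ℓ / 10) hM (by positivity))
    filter_upwards [hev] with i hi
    obtain ⟨N, hN1, hN2⟩ := hCmp k f L t n hTm.succ l i z
    show Nm ℓ L (a (l + i)) (orbE (fun j => Th L f (t j) (n j)) l i z) ≤ R (l + i) / 4
    rw [hN2, hR]
    have h1 : ((t l : ℝ) + N) = t (l + i) := by
      rw [hN1]
      push_cast
      ring
    have h2 := hMb N (a (l + i)) (by rw [h1]; exact (hTm.blk (l + i)).a_ge)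
    refine h2.trans (le_trans ?_ hi)
    refine mul_le_mul_of_nonneg_left ?_ hM
    have h3 := htp l
    linarith

end Pool.Agent.Lib.BedG
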