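import Pool.Agent.Lib.BedG.SpecN

/-!
# Theorem G, Near: the map of a block is close to the automorphism
-/

set_option autoImplicit false

open scoped Topology
open Set Filter Metric

namespace Pool.Agent.Lib.BedG

namespace sNearAux

theorem rho_sum_le {k : ℕ} (ε ℓ : ℝ) (L : ℕ → EE k ≃L[ℂ] EE k) (t : ℕ) (g : ℕ → EE k) (n : ℕ) :
    rho ε ℓ L t (∑ i ∈ Finset.range n, g i) ≤ ∑ i ∈ Finset.range n, rho ε ℓ L t (g i) := by
  induction n with
  | zero =>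
    rw [Finset.sum_range_zero, Finset.sum_range_zero, rho_le_iff]
    intro m _
    rw [Nm_zero, mul_zero]
  | succ n ih =>
    rw [Finset.sum_range_succ, Finset.sum_range_succ]
    exact (rho_add_le ε ℓ L t _ _).trans (by linarith)

/-- The difference is a sum. -/
theorem diff_eq {k : ℕ} {L : ℕ → EE k ≃L[ℂ] EE k} {B : ℕ → EE k →L[ℂ] EE k →L[ℂ] EE k}
    {e : Fin k → EE k} {c : Fin k → EE k →L[ℂ] ℂ} (hexp : ∀ z, ∑ i, c i z • e i = z)
    (f : ℕ → EE k → EE k) (t n : ℕ) (w : EE k) :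
    Th L f t n w - Sb L B e c t n w = ∑ i ∈ Finset.range n,
      ((Wo L f t w (i + 1) - Wo L f t w i - bm L B (t + i) w w) + Dm L B e c (t + i) w w) := by
  rw [Th_eq, Sb_eq B e c hexp, Finset.sum_add_distrib, Finset.sum_sub_distrib,
    Finset.sum_range_sub (fun i => Wo L f t w i) n, Wo_zero]
  unfold QQ DD
  abel

end sNearAux

open sNearAux in
theorem sNear : S_Near := by
  intro hOrb hEmE hEmR k ε ℓ r C₀ C C₁ f L B hS hQ hC1 hW
  have hP := hS.pin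
  have hε := hP.ε_pos
  have hℓ := hP.ℓ_pos
  have hC := hQ.one_le
  set Z : ℝ := 3 * C * C₁ ^ 3 * Real.exp ℓ with hZ
  have hZ1 : 1 ≤ Z := by
    have h1 : 1 ≤ C₁ ^ 3 := one_le_pow₀ hC1
    have h2 : 1 ≤ Real.exp ℓ := Real.one_le_exp hℓ.le
    have h3 : 1 ≤ C * C₁ ^ 3 := one_le_mul_of_one_le_of_one_le hC h1
    have h4 : 1 ≤ C * C₁ ^ 3 * Real.exp ℓ := one_le_mul_of_one_le_of_one_le h3 h2
    have h5 : Z = 3 * (C * C₁ ^ 3 * Real.exp ℓ) := by rw [hZ]; ring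
    rw [h5]
    linarith
  have hcB := one_le_cB hC hε.le hℓ.le
  have hcD : 0 ≤ cD k ε ℓ C := by
    unfold cD
    have : 0 ≤ cB ε ℓ C := by linarith
    positivity
  have hX1 : 1 ≤ Real.exp ((1 + ε) * ℓ) := Real.one_le_exp (by positivity)
  refine ⟨Real.exp ((1 + ε) * ℓ) * Z + cD k ε ℓ C, ?_, ?_⟩
  · have := one_le_mul_of_one_le_of_one_le hX1 hZ1
    linarith
  intro κ a t s n e c hB hexp hD R w hR hNw hw
  have hR0 : 0 ≤ R := by linarith
  have hNt : Nm ℓ L t w ≤ R := (hP.Nm_anti hB.a_le_t w).trans hNw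
  have hκ : ε * ((t : ℝ) + n) ≤ (1 - κ) * t := by
    have h1 := hB.c1
    have h2 := hB.c2
    nlinarith
  have hexp0 := Real.exp_pos (-(κ * ℓ * t))
  have hR23 : R ^ 2 ≤ R ^ 3 := pow_le_pow_right₀ hR (by norm_num)
  have hterm : ∀ i ∈ Finset.range n,
      rho ε ℓ L (t + n) ((Wo L f t w (i + 1) - Wo L f t w i - bm L B (t + i) w w) +
        Dm L B e c (t + i) w w) ≤
      (Real.exp ((1 + ε) * ℓ) * Z + cD k ε ℓ C) * R ^ 3 * Real.exp (-(κ * ℓ * t)) := by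
    intro i hi
    have hin : i < n := Finset.mem_range.1 hi
    have h1 := hEmE hOrb k ε ℓ r C₀ C C₁ f L B hS hQ hC1 hW t w R hw hR hNt i
    have hY : 0 ≤ Z * R ^ 3 := by positivity
    have h2 := hEmR k ε ℓ κ (Z * R ^ 3) L hP hY t n i _ hκ hin h1
    have h3 := hD (t + i) (by omega) (by omega) w w
    have h4 : Nm ℓ L a w * Nm ℓ L a w ≤ R ^ 3 := by
      have h5 : Nm ℓ L a w * Nm ℓ L a w ≤ R * R :=
        mul_le_mul hNw hNw (Nm_nonneg ℓ L a w) hR0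
      calc Nm ℓ L a w * Nm ℓ L a w ≤ R * R := h5
        _ = R ^ 2 := by ring
        _ ≤ R ^ 3 := hR23
    have h6 : cD k ε ℓ C * Real.exp (-(κ * ℓ * t)) * (Nm ℓ L a w * Nm ℓ L a w) ≤
        cD k ε ℓ C * Real.exp (-(κ * ℓ * t)) * R ^ 3 :=
      mul_le_mul_of_nonneg_left h4 (mul_nonneg hcD hexp0.le)
    calc rho ε ℓ L (t + n) ((Wo L f t w (i + 1) - Wo L f t w i - bm L B (t + i) w w) +
          Dm L B e c (t + i) w w)
        ≤ _ + _ := rho_add_le ε ℓ L (t + n) _ _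
      _ ≤ Real.exp ((1 + ε) * ℓ) * (Z * R ^ 3) * Real.exp (-(κ * ℓ * t)) +
          cD k ε ℓ C * Real.exp (-(κ * ℓ * t)) * R ^ 3 := add_le_add h2 (h3.trans h6)
      _ = _ := by ring
  rw [diff_eq hexp]
  refine (rho_sum_le ε ℓ L (t + n) _ n).trans ((Finset.sum_le_sum hterm).trans ?_)
  rw [Finset.sum_const, Finset.card_range, nsmul_eq_mul]
  have hK0 : 0 ≤ (Real.exp ((1 + ε) * ℓ) * Z + cD k ε ℓ C) * R ^ 3 * Real.exp (-(κ * ℓ * t)) := by
    positivity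
  have ht0 : (0 : ℝ) ≤ t := Nat.cast_nonneg t
  calc (n : ℝ) * ((Real.exp ((1 + ε) * ℓ) * Z + cD k ε ℓ C) * R ^ 3 * Real.exp (-(κ * ℓ * t)))
      ≤ ((t : ℝ) + n) *
        ((Real.exp ((1 + ε) * ℓ) * Z + cD k ε ℓ C) * R ^ 3 * Real.exp (-(κ * ℓ * t))) :=
        mul_le_mul_of_nonneg_right (by linarith) hK0
    _ = _ := by ring

end Pool.Agent.Lib.BedG
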