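import Pool.Agent.Lib.BedG.SpecN

/-!
# Stable manifolds in all dimensions: the orbits decay like `e^{-ℓ i}`
-/

set_option autoImplicit false

open scoped Topology
open Set Filter Metric

namespace Pool.Agent.Lib.BedG

namespace sOBdAux

theorem fix0 {k : ℕ} {ε ℓ r C₀ : ℝ} {f : ℕ → EE k → EE k} {L : ℕ → EE k ≃L[ℂ] EE k}
    (hs : SeqG ε ℓ r C₀ f L) (n : ℕ) : f n 0 = 0 := by
  have h := hs.contr n 0 (mem_ball_self hs.r_pos)
  rw [norm_zero, mul_zero] at h
  exact norm_le_zero_iff.mp h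

theorem step {k : ℕ} {ε ℓ r C₀ : ℝ} {f : ℕ → EE k → EE k} {L : ℕ → EE k ≃L[ℂ] EE k}
    (hs : SeqG ε ℓ r C₀ f L) (n : ℕ) {z : EE k} (hz : z ∈ ball (0 : EE k) r) :
    ‖f n z‖ ≤ Real.exp (-ℓ) * ‖z‖ + C₀ * ‖z‖ * ‖z‖ := by
  have h := hs.quad n z hz 0 (mem_ball_self hs.r_pos)
  rw [fix0 hs, map_zero, sub_zero, sub_zero, sub_zero, norm_zero, add_zero] at h
  have h1 := hs.pin.up n z
  calc ‖f n z‖ = ‖L n z + (f n z - L n z)‖ := by rw [add_sub_cancel]
    _ ≤ ‖L n z‖ + ‖f n z - L n z‖ := norm_add_le _ _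
    _ ≤ _ := add_le_add h1 h

end sOBdAux

open sOBdAux in
theorem sOBd : S_OBd := by
  intro hO k ε ℓ r C₀ f L hs
  have hℓ := hs.pin.ℓ_pos
  obtain ⟨q, hq⟩ : ∃ q, q = Real.exp (-(ℓ / 2)) := ⟨_, rfl⟩
  obtain ⟨M, hM⟩ : ∃ M, M = C₀ * Real.exp ℓ * r := ⟨_, rfl⟩
  have hq0 : 0 < q := hq ▸ Real.exp_pos _
  have hq1 : q < 1 := by
    rw [hq]
    exact Real.exp_lt_one_iff.mpr (by linarith)
  have hM0 : 0 ≤ M := by
    rw [hM]
    have := hs.C_pos
    have := hs.r_pos
    positivity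
  have hq2 : 0 ≤ (1 - q)⁻¹ := inv_nonneg.mpr (by linarith)
  refine ⟨Real.exp (M * (1 - q)⁻¹), Real.one_le_exp (mul_nonneg hM0 hq2), ?_⟩
  intro m i z hz
  have hzb : z ∈ ball (0 : EE k) r := by
    rw [mem_ball_zero_iff]
    exact hz
  have key : ∀ i : ℕ, ‖orbE f m i z‖ ≤
      Real.exp (M * ∑ j ∈ Finset.range i, q ^ j) * Real.exp (-(ℓ * i)) * ‖z‖ := by
    intro i
    induction i with
    | zero => simp [orbE_zero]
    | succ i ih =>
      obtain ⟨-, o2, -, -, o5⟩ := hO k ε ℓ r C₀ f L hs m i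
      have h1 := step hs (m + i) (o2 hzb)
      have h2 : ‖orbE f m i z‖ ≤ q ^ i * r := by
        have := o5 z hzb
        rw [← hq] at this
        exact this.trans (mul_le_mul_of_nonneg_left hz.le (pow_nonneg hq0.le _))
      have h3 : C₀ * ‖orbE f m i z‖ ≤ Real.exp (-ℓ) * (M * q ^ i) := by
        have e1 : Real.exp (-ℓ) * Real.exp ℓ = 1 := by
          rw [← Real.exp_add, neg_add_cancel, Real.exp_zero]
        have e2 : Real.exp (-ℓ) * (M * q ^ i) = C₀ * (q ^ i * r) := by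
          rw [hM]
          linear_combination C₀ * r * q ^ i * e1
        rw [e2]
        exact mul_le_mul_of_nonneg_left h2 hs.C_pos.le
      have h4 : 1 + M * q ^ i ≤ Real.exp (M * q ^ i) := by
        have := Real.add_one_le_exp (M * q ^ i)
        linarith
      rw [orbE_succ]
      have h5 : ‖f (m + i) (orbE f m i z)‖ ≤
          Real.exp (-ℓ) * Real.exp (M * q ^ i) * ‖orbE f m i z‖ := by
        calc ‖f (m + i) (orbE f m i z)‖ ≤
            Real.exp (-ℓ) * ‖orbE f m i z‖ + C₀ * ‖orbE f m i z‖ * ‖orbE f m i z‖ := h1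
          _ ≤ Real.exp (-ℓ) * ‖orbE f m i z‖ +
              Real.exp (-ℓ) * (M * q ^ i) * ‖orbE f m i z‖ := by
            have := mul_le_mul_of_nonneg_right h3 (norm_nonneg (orbE f m i z))
            linarith
          _ = Real.exp (-ℓ) * (1 + M * q ^ i) * ‖orbE f m i z‖ := by ring
          _ ≤ _ := mul_le_mul_of_nonneg_right
            (mul_le_mul_of_nonneg_left h4 (Real.exp_pos _).le) (norm_nonneg _)
      refine h5.trans ?_
      have h6 : Real.exp (-ℓ) * Real.exp (M * q ^ i) * ‖orbE f m i z‖ ≤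
          Real.exp (-ℓ) * Real.exp (M * q ^ i) *
            (Real.exp (M * ∑ j ∈ Finset.range i, q ^ j) * Real.exp (-(ℓ * i)) * ‖z‖) :=
        mul_le_mul_of_nonneg_left ih (by positivity)
      refine h6.trans (le_of_eq ?_)
      rw [Finset.sum_range_succ, mul_add, Real.exp_add]
      have e3 : Real.exp (-(ℓ * ((i + 1 : ℕ) : ℝ))) = Real.exp (-(ℓ * i)) * Real.exp (-ℓ) := by
        rw [← Real.exp_add]
        congr 1
        push_cast
        ring
      rw [e3]
      ring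
  refine (key i).trans ?_
  have h7 : ∑ j ∈ Finset.range i, q ^ j ≤ (1 - q)⁻¹ := by
    rw [← tsum_geometric_of_lt_one hq0.le hq1]
    exact (summable_geometric_of_lt_one hq0.le hq1).sum_le_tsum _
      (fun j _ => pow_nonneg hq0.le j)
  have h8 : Real.exp (M * ∑ j ∈ Finset.range i, q ^ j) ≤ Real.exp (M * (1 - q)⁻¹) :=
    Real.exp_le_exp.mpr (mul_le_mul_of_nonneg_left h7 hM0)
  exact mul_le_mul_of_nonneg_right (mul_le_mul_of_nonneg_right h8 (Real.exp_pos _).le)
    (norm_nonneg _)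

end Pool.Agent.Lib.BedG
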