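import Pool.Agent.Lib.BedG.SpecR

/-!
# MP_6f050a_an, theorem G: translation of the condition (G)
-/

set_option autoImplicit false

open scoped Topology Manifold
open Set Filter Metric

namespace Pool.Agent.Lib.BedG

theorem sPD : S_PD := by
  intro E _ _ _ X _ _ nrm f p Ep N k j Λ a b hC hP
  obtain ⟨C, lam, mu, hC0, hl0, hl1, hm0, hlm, hh⟩ := hP
  have hN : N ≠ 0 := hC.N_pos.ne'
  have ha := hC.a_pos
  have hb := hC.b_pos
  refine ⟨C * b / a, lam ^ N, mu ^ N, by positivity, by positivity, pow_lt_one₀ hl0.le hl1 hN,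
    by positivity, ?_, fun n q z => ?_⟩
  · rw [← pow_mul, ← pow_mul, mul_comm N 5, mul_comm N 2, pow_mul, pow_mul]
    exact pow_lt_pow_left₀ hlm (by positivity) hN
  · have hj : j z ∈ Ep := by
      rw [← hC.range]
      exact LinearMap.mem_range_self j z
    have h1 := hh (N * n) (N * q) (j z) hj
    rw [← Nat.mul_add] at h1
    have h2 := hC.low n z
    have h3 := hC.up n z
    have h4 := hC.low (n + q) z
    have h5 := hC.up (n + q) z
    have hmq : 0 < (mu ^ N) ^ q := by positivity
    have hlq : 0 < (lam ^ N) ^ q := by positivity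
    rw [pow_mul, pow_mul] at h1
    constructor
    · have e1 : (mu ^ N) ^ q * (a * ‖Λ n z‖) ≤ C * (b * ‖Λ (n + q) z‖) :=
        (mul_le_mul_of_nonneg_left h2 hmq.le).trans
          (h1.1.trans (mul_le_mul_of_nonneg_left h5 hC0.le))
      rw [div_mul_eq_mul_div, le_div_iff₀ ha]
      linarith
    · have e1 : a * ‖Λ (n + q) z‖ ≤ C * (lam ^ N) ^ q * (b * ‖Λ n z‖) :=
        h4.trans (h1.2.trans (mul_le_mul_of_nonneg_left h3 (by positivity)))
      rw [div_mul_eq_mul_div, div_mul_eq_mul_div, le_div_iff₀ ha]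
      linarith

end Pool.Agent.Lib.BedG
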