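import Pool.Agent.Lib.BedG.Defs

/-!
# Stable manifolds in all dimensions: basic facts
-/

set_option autoImplicit false

open scoped Topology
open Set Filter Metric

namespace Pool.Agent.Lib.BedG

variable {k : ℕ}

/-! ## Products and orbits -/

theorem La_zero (L : ℕ → EE k ≃L[ℂ] EE k) (z : EE k) : La L 0 z = z := rfl

theorem La_zero_symm (L : ℕ → EE k ≃L[ℂ] EE k) (z : EE k) : (La L 0).symm z = z := rfl

theorem La_succ_apply (L : ℕ → EE k ≃L[ℂ] EE k) (m : ℕ) (z : EE k) :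
    La L (m + 1) z = L m (La L m z) := rfl

theorem La_succ_symm (L : ℕ → EE k ≃L[ℂ] EE k) (m : ℕ) (w : EE k) :
    (La L (m + 1)).symm w = (La L m).symm ((L m).symm w) := rfl

theorem orbE_zero (f : ℕ → EE k → EE k) (m : ℕ) (z : EE k) : orbE f m 0 z = z := rfl

theorem orbE_succ (f : ℕ → EE k → EE k) (m i : ℕ) (z : EE k) :
    orbE f m (i + 1) z = f (m + i) (orbE f m i z) := rfl

theorem orbE_add (f : ℕ → EE k → EE k) (m i j : ℕ) (z : EE k) :
    orbE f m (i + j) z = orbE f (m + i) j (orbE f m i z) := by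
  induction j with
  | zero => rfl
  | succ j ih => rw [← Nat.add_assoc, orbE_succ, ih, orbE_succ, Nat.add_assoc]

theorem orbE_succ' (f : ℕ → EE k → EE k) (m i : ℕ) (z : EE k) :
    orbE f m (i + 1) z = orbE f (m + 1) i (f m z) := by
  rw [Nat.add_comm i 1, orbE_add]
  rfl

theorem bk_zero (T : ℕ → EE k → EE k) (l : ℕ) (z : EE k) : bk T 0 l z = z := rfl

theorem bk_succ (T : ℕ → EE k → EE k) (i l : ℕ) (z : EE k) :
    bk T (i + 1) l z = T l (bk T i (l + 1) z) := rfl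

theorem bk_add (T : ℕ → EE k → EE k) (i j l : ℕ) (z : EE k) :
    bk T (i + j) l z = bk T i l (bk T j (l + i) z) := by
  induction i generalizing l with
  | zero => simp [bk]
  | succ i ih =>
    rw [show i + 1 + j = (i + j) + 1 by ring, bk_succ, ih, bk_succ,
      show l + 1 + i = l + (i + 1) by ring]

theorem bk_succ' (T : ℕ → EE k → EE k) (i l : ℕ) (z : EE k) :
    bk T (i + 1) l z = bk T i l (T (l + i) z) := by
  rw [bk_add]
  rfl

/-! ## The norms `N_m` -/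

variable {ε ℓ : ℝ} {L : ℕ → EE k ≃L[ℂ] EE k}

theorem Nm_nonneg (ℓ : ℝ) (L : ℕ → EE k ≃L[ℂ] EE k) (m : ℕ) (z : EE k) : 0 ≤ Nm ℓ L m z := by
  unfold Nm
  positivity

theorem Nm_zero_time (ℓ : ℝ) (L : ℕ → EE k ≃L[ℂ] EE k) (z : EE k) : Nm ℓ L 0 z = ‖z‖ := by
  simp [Nm, La_zero]

theorem Nm_add_le (ℓ : ℝ) (L : ℕ → EE k ≃L[ℂ] EE k) (m : ℕ) (z w : EE k) :
    Nm ℓ L m (z + w) ≤ Nm ℓ L m z + Nm ℓ L m w := by
  unfold Nm
  rw [map_add, ← mul_add]
  exact mul_le_mul_of_nonneg_left (norm_add_le _ _) (Real.exp_pos _).le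

theorem Nm_smul (ℓ : ℝ) (L : ℕ → EE k ≃L[ℂ] EE k) (m : ℕ) (a : ℂ) (z : EE k) :
    Nm ℓ L m (a • z) = ‖a‖ * Nm ℓ L m z := by
  unfold Nm
  rw [map_smul, norm_smul]
  ring

theorem Nm_neg (ℓ : ℝ) (L : ℕ → EE k ≃L[ℂ] EE k) (m : ℕ) (z : EE k) :
    Nm ℓ L m (-z) = Nm ℓ L m z := by
  unfold Nm
  rw [map_neg, norm_neg]

theorem Nm_sub_le (ℓ : ℝ) (L : ℕ → EE k ≃L[ℂ] EE k) (m : ℕ) (z w : EE k) :
    Nm ℓ L m (z - w) ≤ Nm ℓ L m z + Nm ℓ L m w := by
  rw [sub_eq_add_neg, ← Nm_neg ℓ L m w]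
  exact Nm_add_le ℓ L m z (-w)

theorem Nm_zero (ℓ : ℝ) (L : ℕ → EE k ≃L[ℂ] EE k) (m : ℕ) : Nm ℓ L m 0 = 0 := by
  simp [Nm]

theorem Nm_sum_le {ι : Type*} (ℓ : ℝ) (L : ℕ → EE k ≃L[ℂ] EE k) (m : ℕ) (s : Finset ι)
    (g : ι → EE k) : Nm ℓ L m (∑ i ∈ s, g i) ≤ ∑ i ∈ s, Nm ℓ L m (g i) := by
  classical
  induction s using Finset.induction_on with
  | empty => simp [Nm_zero]
  | insert a s ha ih =>
    rw [Finset.sum_insert ha, Finset.sum_insert ha]
    exact (Nm_add_le ℓ L m _ _).trans (by linarith)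

theorem norm_La (ℓ : ℝ) (L : ℕ → EE k ≃L[ℂ] EE k) (m : ℕ) (z : EE k) :
    ‖La L m z‖ = Real.exp (-(ℓ * m)) * Nm ℓ L m z := by
  unfold Nm
  rw [← mul_assoc, ← Real.exp_add, neg_add_cancel, Real.exp_zero, one_mul]

theorem Nm_symm (ℓ : ℝ) (L : ℕ → EE k ≃L[ℂ] EE k) (m : ℕ) (y : EE k) :
    Nm ℓ L m ((La L m).symm y) = Real.exp (ℓ * m) * ‖y‖ := by
  unfold Nm
  rw [ContinuousLinearEquiv.apply_symm_apply]

theorem continuous_Nm (ℓ : ℝ) (L : ℕ → EE k ≃L[ℂ] EE k) (m : ℕ) : Continuous (Nm ℓ L m) := by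
  unfold Nm
  exact continuous_const.mul ((La L m).continuous.norm)

theorem Pin.Nm_succ_le (h : Pin ε ℓ L) (m : ℕ) (z : EE k) : Nm ℓ L (m + 1) z ≤ Nm ℓ L m z := by
  unfold Nm
  rw [La_succ_apply]
  calc Real.exp (ℓ * ((m + 1 : ℕ) : ℝ)) * ‖L m (La L m z)‖
      ≤ Real.exp (ℓ * ((m + 1 : ℕ) : ℝ)) * (Real.exp (-ℓ) * ‖La L m z‖) :=
        mul_le_mul_of_nonneg_left (h.up _ _) (Real.exp_pos _).le
    _ = Real.exp (ℓ * m) * ‖La L m z‖ := by
        rw [← mul_assoc, ← Real.exp_add]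
        congr 2
        push_cast
        ring

theorem Pin.Nm_le_succ (h : Pin ε ℓ L) (m : ℕ) (z : EE k) :
    Nm ℓ L m z ≤ Real.exp ((1 + ε) * ℓ) * Nm ℓ L (m + 1) z := by
  unfold Nm
  rw [La_succ_apply]
  have h1 := h.low m (La L m z)
  calc Real.exp (ℓ * m) * ‖La L m z‖
      = Real.exp ((1 + ε) * ℓ + ℓ * ((m + 1 : ℕ) : ℝ)) *
        (Real.exp (-((2 + ε) * ℓ)) * ‖La L m z‖) := by
        rw [← mul_assoc, ← Real.exp_add]
        congr 2
        push_cast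
        ring
    _ ≤ Real.exp ((1 + ε) * ℓ + ℓ * ((m + 1 : ℕ) : ℝ)) * ‖L m (La L m z)‖ :=
        mul_le_mul_of_nonneg_left h1 (Real.exp_pos _).le
    _ = _ := by rw [Real.exp_add, mul_assoc]

theorem Pin.Nm_anti (h : Pin ε ℓ L) {m n : ℕ} (hmn : m ≤ n) (z : EE k) :
    Nm ℓ L n z ≤ Nm ℓ L m z := by
  induction n, hmn using Nat.le_induction with
  | base => exact le_rfl
  | succ n hn ih => exact (h.Nm_succ_le n z).trans ih

theorem Pin.Nm_le_exp (h : Pin ε ℓ L) {m n : ℕ} (hmn : m ≤ n) (z : EE k) :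
    Nm ℓ L m z ≤ Real.exp ((1 + ε) * ℓ * ((n : ℝ) - m)) * Nm ℓ L n z := by
  induction n, hmn using Nat.le_induction with
  | base => simp
  | succ n hn ih =>
    refine ih.trans ?_
    calc Real.exp ((1 + ε) * ℓ * ((n : ℝ) - m)) * Nm ℓ L n z
        ≤ Real.exp ((1 + ε) * ℓ * ((n : ℝ) - m)) *
          (Real.exp ((1 + ε) * ℓ) * Nm ℓ L (n + 1) z) :=
          mul_le_mul_of_nonneg_left (h.Nm_le_succ n z) (Real.exp_pos _).le
      _ = _ := by
          rw [← mul_assoc, ← Real.exp_add]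
          congr 2
          push_cast
          ring

theorem Pin.Nm_le_norm (h : Pin ε ℓ L) (m : ℕ) (z : EE k) : Nm ℓ L m z ≤ ‖z‖ := by
  rw [← Nm_zero_time ℓ L z]
  exact h.Nm_anti (Nat.zero_le m) z

theorem Pin.isNu (h : Pin ε ℓ L) (m : ℕ) : IsNu (Nm ℓ L m) :=
  ⟨Nm_nonneg ℓ L m, Nm_add_le ℓ L m, Nm_smul ℓ L m, h.Nm_le_norm m⟩

/-! ## The norms `sg` and `rho` -/

theorem sg_le_iff (ε ℓ : ℝ) (L : ℕ → EE k ≃L[ℂ] EE k) (t n : ℕ) (z : EE k) (b : ℝ) :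
    sg ε ℓ L t n z ≤ b ↔
      ∀ m : ℕ, t ≤ m → m ≤ t + n → Real.exp (ε * ℓ * m) * Nm ℓ L m z ≤ b := by
  induction n with
  | zero =>
    constructor
    · intro h m h1 h2
      have : m = t := by omega
      subst this
      exact h
    · intro h
      exact h t le_rfl (by omega)
  | succ n ih =>
    change max (sg ε ℓ L t n z)
      (Real.exp (ε * ℓ * ((t + n + 1 : ℕ) : ℝ)) * Nm ℓ L (t + n + 1) z) ≤ b ↔ _
    rw [max_le_iff, ih]
    constructor
    · rintro ⟨h1, h2⟩ m hm hm'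
      rcases Nat.lt_or_ge m (t + n + 1) with h3 | h3
      · exact h1 m hm (by omega)
      · have : m = t + n + 1 := by omega
        subst this
        exact h2
    · intro h
      exact ⟨fun m h1 h2 => h m h1 (by omega), h _ (by omega) (by omega)⟩

theorem le_sg (ε ℓ : ℝ) (L : ℕ → EE k ≃L[ℂ] EE k) {t n m : ℕ} (h1 : t ≤ m) (h2 : m ≤ t + n)
    (z : EE k) : Real.exp (ε * ℓ * m) * Nm ℓ L m z ≤ sg ε ℓ L t n z :=
  (sg_le_iff ε ℓ L t n z _).1 le_rfl m h1 h2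

theorem sg_nonneg (ε ℓ : ℝ) (L : ℕ → EE k ≃L[ℂ] EE k) (t n : ℕ) (z : EE k) :
    0 ≤ sg ε ℓ L t n z :=
  le_trans (mul_nonneg (Real.exp_pos _).le (Nm_nonneg ℓ L t z))
    (le_sg ε ℓ L (le_refl t) (by omega) z)

theorem rho_le_iff (ε ℓ : ℝ) (L : ℕ → EE k ≃L[ℂ] EE k) (t : ℕ) (z : EE k) (b : ℝ) :
    rho ε ℓ L t z ≤ b ↔ ∀ m : ℕ, m ≤ t → Real.exp (ε * ℓ * m) * Nm ℓ L m z ≤ b := by
  unfold rho
  rw [sg_le_iff]
  constructor
  · intro h m hm
    exact h m (Nat.zero_le _) (by omega)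
  · intro h m _ hm
    exact h m (by omega)

theorem le_rho (ε ℓ : ℝ) (L : ℕ → EE k ≃L[ℂ] EE k) {t m : ℕ} (h : m ≤ t) (z : EE k) :
    Real.exp (ε * ℓ * m) * Nm ℓ L m z ≤ rho ε ℓ L t z :=
  (rho_le_iff ε ℓ L t z _).1 le_rfl m h

theorem rho_nonneg (ε ℓ : ℝ) (L : ℕ → EE k ≃L[ℂ] EE k) (t : ℕ) (z : EE k) :
    0 ≤ rho ε ℓ L t z := sg_nonneg ε ℓ L 0 t z

theorem norm_le_rho (ε ℓ : ℝ) (L : ℕ → EE k ≃L[ℂ] EE k) (t : ℕ) (z : EE k) :
    ‖z‖ ≤ rho ε ℓ L t z := by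
  have h := le_rho ε ℓ L (Nat.zero_le t) z
  simpa [Nm_zero_time] using h

theorem rho_mono (ε ℓ : ℝ) (L : ℕ → EE k ≃L[ℂ] EE k) {t t' : ℕ} (h : t ≤ t') (z : EE k) :
    rho ε ℓ L t z ≤ rho ε ℓ L t' z :=
  (rho_le_iff ε ℓ L t z _).2 fun _ hm => le_rho ε ℓ L (hm.trans h) z

theorem sg_le_rho (ε ℓ : ℝ) (L : ℕ → EE k ≃L[ℂ] EE k) (t n : ℕ) (z : EE k) :
    sg ε ℓ L t n z ≤ rho ε ℓ L (t + n) z :=
  (sg_le_iff ε ℓ L t n z _).2 fun _ _ hm => le_rho ε ℓ L hm z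

theorem Nm_le_rho (hε : 0 ≤ ε) (hℓ : 0 ≤ ℓ) {m t : ℕ} (h : m ≤ t) (z : EE k) :
    Nm ℓ L m z ≤ rho ε ℓ L t z := by
  refine le_trans ?_ (le_rho ε ℓ L h z)
  have h1 : 1 ≤ Real.exp (ε * ℓ * m) := Real.one_le_exp (by positivity)
  exact le_mul_of_one_le_left (Nm_nonneg ℓ L m z) h1

theorem rho_add_le (ε ℓ : ℝ) (L : ℕ → EE k ≃L[ℂ] EE k) (t : ℕ) (z w : EE k) :
    rho ε ℓ L t (z + w) ≤ rho ε ℓ L t z + rho ε ℓ L t w := by
  rw [rho_le_iff]
  intro m hm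
  calc Real.exp (ε * ℓ * m) * Nm ℓ L m (z + w)
      ≤ Real.exp (ε * ℓ * m) * (Nm ℓ L m z + Nm ℓ L m w) :=
        mul_le_mul_of_nonneg_left (Nm_add_le ℓ L m z w) (Real.exp_pos _).le
    _ = Real.exp (ε * ℓ * m) * Nm ℓ L m z + Real.exp (ε * ℓ * m) * Nm ℓ L m w := mul_add _ _ _
    _ ≤ _ := add_le_add (le_rho ε ℓ L hm z) (le_rho ε ℓ L hm w)

theorem sg_add_le (ε ℓ : ℝ) (L : ℕ → EE k ≃L[ℂ] EE k) (t n : ℕ) (z w : EE k) :
    sg ε ℓ L t n (z + w) ≤ sg ε ℓ L t n z + sg ε ℓ L t n w := by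
  rw [sg_le_iff]
  intro m h1 h2
  calc Real.exp (ε * ℓ * m) * Nm ℓ L m (z + w)
      ≤ Real.exp (ε * ℓ * m) * (Nm ℓ L m z + Nm ℓ L m w) :=
        mul_le_mul_of_nonneg_left (Nm_add_le ℓ L m z w) (Real.exp_pos _).le
    _ = Real.exp (ε * ℓ * m) * Nm ℓ L m z + Real.exp (ε * ℓ * m) * Nm ℓ L m w := mul_add _ _ _
    _ ≤ _ := add_le_add (le_sg ε ℓ L h1 h2 z) (le_sg ε ℓ L h1 h2 w)

theorem sg_neg (ε ℓ : ℝ) (L : ℕ → EE k ≃L[ℂ] EE k) (t n : ℕ) (z : EE k) :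
    sg ε ℓ L t n (-z) = sg ε ℓ L t n z := by
  induction n with
  | zero => simp [sg, Nm_neg]
  | succ n ih => simp only [sg, ih, Nm_neg]

theorem rho_neg (ε ℓ : ℝ) (L : ℕ → EE k ≃L[ℂ] EE k) (t : ℕ) (z : EE k) :
    rho ε ℓ L t (-z) = rho ε ℓ L t z := sg_neg ε ℓ L 0 t z

theorem rho_smul (ε ℓ : ℝ) (L : ℕ → EE k ≃L[ℂ] EE k) (t : ℕ) (a : ℂ) (z : EE k) :
    rho ε ℓ L t (a • z) ≤ ‖a‖ * rho ε ℓ L t z := by
  rw [rho_le_iff]
  intro m hm
  rw [Nm_smul]
  calc Real.exp (ε * ℓ * m) * (‖a‖ * Nm ℓ L m z)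
      = ‖a‖ * (Real.exp (ε * ℓ * m) * Nm ℓ L m z) := by ring
    _ ≤ _ := mul_le_mul_of_nonneg_left (le_rho ε ℓ L hm z) (norm_nonneg a)

/-! ## The bilinear maps -/

variable (B : ℕ → EE k →L[ℂ] EE k →L[ℂ] EE k)

theorem bm_add_left (L : ℕ → EE k ≃L[ℂ] EE k) (m : ℕ) (p p' q : EE k) :
    bm L B m (p + p') q = bm L B m p q + bm L B m p' q := by
  simp [bm, map_add]

theorem bm_add_right (L : ℕ → EE k ≃L[ℂ] EE k) (m : ℕ) (p q q' : EE k) :
    bm L B m p (q + q') = bm L B m p q + bm L B m p q' := by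
  simp [bm, map_add]

theorem bm_sub_left (L : ℕ → EE k ≃L[ℂ] EE k) (m : ℕ) (p p' q : EE k) :
    bm L B m (p - p') q = bm L B m p q - bm L B m p' q := by
  simp [bm, map_sub]

theorem bm_sub_right (L : ℕ → EE k ≃L[ℂ] EE k) (m : ℕ) (p q q' : EE k) :
    bm L B m p (q - q') = bm L B m p q - bm L B m p q' := by
  simp [bm, map_sub]

/-- The difference of `b_m` at two points. -/
theorem bm_diff (L : ℕ → EE k ≃L[ℂ] EE k) (m : ℕ) (w u : EE k) :
    bm L B m (w + u) (w + u) - bm L B m w w =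
      bm L B m w u + bm L B m u w + bm L B m u u := by
  rw [bm_add_left, bm_add_right, bm_add_right]
  abel

theorem bm_proj (L : ℕ → EE k ≃L[ℂ] EE k) (m : ℕ) (p q p' q' : EE k) :
    bm L B m p q - bm L B m p' q' = bm L B m (p - p') q + bm L B m p' (q - q') := by
  rw [bm_sub_left, bm_sub_right]
  abel

theorem continuous_bm (L : ℕ → EE k ≃L[ℂ] EE k) (m : ℕ) :
    Continuous fun w : EE k => bm L B m w w := by
  unfold bm
  have h1 : Continuous fun w : EE k => B m (La L m w) := (B m).continuous.comp (La L m).continuous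
  exact (La L (m + 1)).symm.continuous.comp (h1.clm_apply (La L m).continuous)

theorem differentiable_bm (L : ℕ → EE k ≃L[ℂ] EE k) (m : ℕ) :
    Differentiable ℂ fun w : EE k => bm L B m w w := by
  unfold bm
  have h1 : Differentiable ℂ fun w : EE k => B m (La L m w) :=
    (B m).differentiable.comp (La L m).differentiable
  exact (La L (m + 1)).symm.differentiable.comp (h1.clm_apply (La L m).differentiable)

theorem differentiable_QQ (L : ℕ → EE k ≃L[ℂ] EE k) (t n : ℕ) :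
    Differentiable ℂ (QQ L B t n) := by
  unfold QQ
  exact Differentiable.fun_sum fun j _ => differentiable_bm B L (t + j)

theorem QQ_diff (L : ℕ → EE k ≃L[ℂ] EE k) (t n : ℕ) (w u : EE k) :
    QQ L B t n (w + u) - QQ L B t n w =
      ∑ j ∈ Finset.range n, (bm L B (t + j) w u + bm L B (t + j) u w + bm L B (t + j) u u) := by
  unfold QQ
  rw [← Finset.sum_sub_distrib]
  exact Finset.sum_congr rfl fun j _ => bm_diff B L (t + j) w u

/-! ## The projections -/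

variable (e : Fin k → EE k) (c : Fin k → EE k →L[ℂ] ℂ)

theorem Pj_add (i : ℕ) (z w : EE k) : Pj e c i (z + w) = Pj e c i z + Pj e c i w := by
  unfold Pj
  rw [← Finset.sum_add_distrib]
  refine Finset.sum_congr rfl fun j _ => ?_
  split_ifs
  · rw [map_add, add_smul]
  · rw [add_zero]

theorem Pj_sub (i : ℕ) (z w : EE k) : Pj e c i (z - w) = Pj e c i z - Pj e c i w := by
  unfold Pj
  rw [← Finset.sum_sub_distrib]
  refine Finset.sum_congr rfl fun j _ => ?_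
  split_ifs
  · rw [map_sub, sub_smul]
  · rw [sub_zero]

theorem differentiable_Pj (i : ℕ) : Differentiable ℂ (Pj e c i) := by
  unfold Pj
  refine Differentiable.fun_sum fun j _ => ?_
  split_ifs
  · exact (c j).differentiable.smul_const (e j)
  · exact differentiable_const _

theorem Dm_add_left (L : ℕ → EE k ≃L[ℂ] EE k) (m : ℕ) (p p' q : EE k) :
    Dm L B e c m (p + p') q = Dm L B e c m p q + Dm L B e c m p' q := by
  unfold Dm
  rw [← Finset.sum_add_distrib]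
  refine Finset.sum_congr rfl fun i _ => ?_
  rw [Pj_add, bm_add_left, bm_add_left, add_sub_add_comm, map_add, add_smul]

theorem Dm_add_right (L : ℕ → EE k ≃L[ℂ] EE k) (m : ℕ) (p q q' : EE k) :
    Dm L B e c m p (q + q') = Dm L B e c m p q + Dm L B e c m p q' := by
  unfold Dm
  rw [← Finset.sum_add_distrib]
  refine Finset.sum_congr rfl fun i _ => ?_
  rw [Pj_add, bm_add_right, bm_add_right, add_sub_add_comm, map_add, add_smul]

theorem Dm_diff (L : ℕ → EE k ≃L[ℂ] EE k) (m : ℕ) (w u : EE k) :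
    Dm L B e c m (w + u) (w + u) - Dm L B e c m w w =
      Dm L B e c m w u + Dm L B e c m u w + Dm L B e c m u u := by
  rw [Dm_add_left, Dm_add_right, Dm_add_right]
  abel

theorem DD_diff (L : ℕ → EE k ≃L[ℂ] EE k) (t n : ℕ) (w u : EE k) :
    DD L B e c t n (w + u) - DD L B e c t n w =
      ∑ j ∈ Finset.range n,
        (Dm L B e c (t + j) w u + Dm L B e c (t + j) u w + Dm L B e c (t + j) u u) := by
  unfold DD
  rw [← Finset.sum_sub_distrib]
  exact Finset.sum_congr rfl fun j _ => Dm_diff B e c L (t + j) w u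

/-- The automorphism of the block is the identity plus the quadratic map minus the `D`-terms. -/
theorem Sb_eq (hexp : ∀ z, ∑ i, c i z • e i = z) (L : ℕ → EE k ≃L[ℂ] EE k) (t n : ℕ) (w : EE k) :
    Sb L B e c t n w = w + QQ L B t n w - DD L B e c t n w := by
  have h1 : DD L B e c t n w = QQ L B t n w - Tri e c (QQ L B t n) w := by
    have h2 : QQ L B t n w = ∑ i, c i (QQ L B t n w) • e i := (hexp _).symm
    rw [h2]
    unfold Tri DD Dm
    rw [← Finset.sum_sub_distrib, Finset.sum_comm]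
    refine Finset.sum_congr rfl fun i _ => ?_
    rw [← Finset.sum_smul, ← sub_smul, ← map_sub, ← map_sum]
    congr 2
    unfold QQ
    rw [← Finset.sum_sub_distrib]
  rw [h1]
  unfold Sb
  abel

/-! ## Orbits in the linear coordinates -/

theorem Wo_zero (L : ℕ → EE k ≃L[ℂ] EE k) (f : ℕ → EE k → EE k) (t : ℕ) (w : EE k) :
    Wo L f t w 0 = w := by
  simp [Wo, orbE_zero]

theorem Th_eq (L : ℕ → EE k ≃L[ℂ] EE k) (f : ℕ → EE k → EE k) (t n : ℕ) (w : EE k) :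
    Th L f t n w = Wo L f t w n := rfl

theorem La_Wo (L : ℕ → EE k ≃L[ℂ] EE k) (f : ℕ → EE k → EE k) (t i : ℕ) (w : EE k) :
    La L (t + i) (Wo L f t w i) = orbE f t i (La L t w) := by
  simp [Wo]

/-- The increment of the orbit in the linear coordinates. -/
theorem La_Wo_sub (L : ℕ → EE k ≃L[ℂ] EE k) (f : ℕ → EE k → EE k) (t i : ℕ) (w : EE k) :
    La L (t + i + 1) (Wo L f t w (i + 1) - Wo L f t w i) =
      f (t + i) (orbE f t i (La L t w)) - L (t + i) (orbE f t i (La L t w)) := by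
  rw [map_sub]
  congr 1
  · exact La_Wo L f t (i + 1) w
  · rw [La_succ_apply, La_Wo]

theorem La_bm (L : ℕ → EE k ≃L[ℂ] EE k) (m : ℕ) (p q : EE k) :
    La L (m + 1) (bm L B m p q) = B m (La L m p) (La L m q) := by
  simp [bm]

theorem one_le_cB {C : ℝ} (hC : 1 ≤ C) (hε : 0 ≤ ε) (hℓ : 0 ≤ ℓ) : 1 ≤ cB ε ℓ C := by
  unfold cB
  have h1 : 1 ≤ Real.exp ((2 + ε) * ℓ) := Real.one_le_exp (by positivity)
  nlinarith

theorem IsNu.zero {ν : EE k → ℝ} (h : IsNu ν) : ν 0 = 0 := by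
  have := h.smul 0 0
  simpa using this

theorem IsNu.neg {ν : EE k → ℝ} (h : IsNu ν) (z : EE k) : ν (-z) = ν z := by
  have := h.smul (-1) z
  simpa using this

theorem IsNu.sub_le {ν : EE k → ℝ} (h : IsNu ν) (z w : EE k) : ν z ≤ ν w + ν (z - w) := by
  have := h.add_le w (z - w)
  rwa [add_sub_cancel] at this

theorem IsNu.abs_sub_le {ν : EE k → ℝ} (h : IsNu ν) (z w : EE k) : |ν z - ν w| ≤ ‖z - w‖ := by
  have h1 := h.sub_le z w
  have h2 := h.sub_le w z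
  have h3 := h.le (z - w)
  have h4 : ν (w - z) = ν (z - w) := by rw [← h.neg, neg_sub]
  rw [abs_le]
  constructor <;> linarith

theorem IsNu.continuous {ν : EE k → ℝ} (h : IsNu ν) : Continuous ν := by
  refine continuous_iff_continuousAt.2 fun z => ?_
  rw [Metric.continuousAt_iff]
  intro ε hε
  refine ⟨ε, hε, fun {w} hw => ?_⟩
  rw [Real.dist_eq]
  rw [dist_eq_norm] at hw
  exact (h.abs_sub_le w z).trans_lt hw

theorem IsNu.convex {ν : EE k → ℝ} (h : IsNu ν) (R : ℝ) : Convex ℝ {z | ν z < R} := by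
  intro x hx y hy a b ha hb hab
  have h1 : ν (a • x) = a * ν x := by
    have := h.smul (a : ℂ) x
    rw [Complex.norm_real, Real.norm_eq_abs, abs_of_nonneg ha] at this
    rw [← this]
    rfl
  have h2 : ν (b • y) = b * ν y := by
    have := h.smul (b : ℂ) y
    rw [Complex.norm_real, Real.norm_eq_abs, abs_of_nonneg hb] at this
    rw [← this]
    rfl
  have hx' : ν x < R := hx
  have hy' : ν y < R := hy
  change ν (a • x + b • y) < R
  have h3 := h.add_le (a • x) (b • y)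
  rw [h1, h2] at h3
  refine h3.trans_lt ?_
  rcases ha.lt_or_eq with ha' | ha'
  · have e1 : a * ν x < a * R := mul_lt_mul_of_pos_left hx' ha'
    have e2 : b * ν y ≤ b * R := mul_le_mul_of_nonneg_left hy'.le hb
    calc a * ν x + b * ν y < a * R + b * R := add_lt_add_of_lt_of_le e1 e2
      _ = R := by rw [← add_mul, hab, one_mul]
  · have hb1 : b = 1 := by linarith
    rw [← ha', hb1, zero_mul, one_mul, zero_add]
    exact hy'

theorem IsNu.isOpen {ν : EE k → ℝ} (h : IsNu ν) (R : ℝ) : IsOpen {z | ν z < R} :=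
  isOpen_lt h.continuous continuous_const

end Pool.Agent.Lib.BedG
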