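import Pool.Agent.Lib.BedG.SpecL
import Pool.Agent.Lib.BedG.Basic

/-!
# Facts on the coordinates and the projections
-/

set_option autoImplicit false

open scoped Topology
open Set Filter Metric

namespace Pool.Agent.Lib.BedG

namespace sPrjAux

variable {k : ℕ} {ℓ : ℝ} {L : ℕ → EE k ≃L[ℂ] EE k} {a s : ℕ} {e : Fin k → EE k}
  {c : Fin k → EE k →L[ℂ] ℂ} {σ : Fin k → ℝ}

theorem c_Pj (h : SB ℓ L a s e c σ) (i : ℕ) (z : EE k) (j : Fin k) :
    c j (Pj e c i z) = if j.val < i then c j z else 0 := by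
  unfold Pj
  rw [map_sum]
  have e1 : ∀ l : Fin k, c j (if l.val < i then c l z • e l else 0) =
      if j = l then (if j.val < i then c j z else 0) else 0 := by
    intro l
    by_cases h1 : j = l
    · subst h1
      rw [if_pos rfl]
      split_ifs
      · rw [map_smul, h.dual, if_pos rfl, smul_eq_mul, mul_one]
      · rw [map_zero]
    · rw [if_neg h1]
      split_ifs
      · rw [map_smul, h.dual, if_neg h1, smul_zero]
      · rw [map_zero]
  rw [Finset.sum_congr rfl fun l _ => e1 l, Finset.sum_ite_eq, if_pos (Finset.mem_univ j)]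

theorem c_sub_Pj (h : SB ℓ L a s e c σ) (i : ℕ) (z : EE k) (j : Fin k) :
    c j (z - Pj e c i z) = if j.val < i then 0 else c j z := by
  rw [map_sub, c_Pj h]
  split_ifs
  · rw [sub_self]
  · rw [sub_zero]

theorem le_of_sq {x y : ℝ} (hy : 0 ≤ y) (h : x ^ 2 ≤ y ^ 2) : x ≤ y :=
  le_trans (le_abs_self x) (abs_le_of_sq_le_sq h hy)

theorem Na_le (h : SB ℓ L a s e c σ) {x z : EE k} (hxz : ∀ j, ‖c j x‖ ≤ ‖c j z‖) :
    Nm ℓ L a x ≤ Nm ℓ L a z := by
  refine le_of_sq (Nm_nonneg ℓ L a z) ?_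
  rw [h.Na, h.Na]
  exact Finset.sum_le_sum fun j _ => pow_le_pow_left₀ (norm_nonneg _) (hxz j) 2

theorem Ns_le (h : SB ℓ L a s e c σ) {x z : EE k} (hxz : ∀ j, ‖c j x‖ ≤ ‖c j z‖) :
    Nm ℓ L s x ≤ Nm ℓ L s z := by
  refine le_of_sq (Nm_nonneg ℓ L s z) ?_
  rw [h.Ns, h.Ns]
  exact Finset.sum_le_sum fun j _ =>
    mul_le_mul_of_nonneg_left (pow_le_pow_left₀ (norm_nonneg _) (hxz j) 2) (sq_nonneg _)

theorem Na_e (h : SB ℓ L a s e c σ) (i : Fin k) : Nm ℓ L a (e i) = 1 := by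
  have h1 : Nm ℓ L a (e i) ^ 2 = 1 := by
    rw [h.Na]
    have e1 : ∀ j, ‖c j (e i)‖ ^ 2 = if j = i then (1 : ℝ) else 0 := by
      intro j
      rw [h.dual]
      split_ifs <;> simp
    rw [Finset.sum_congr rfl fun j _ => e1 j, Finset.sum_ite_eq', if_pos (Finset.mem_univ i)]
  nlinarith [Nm_nonneg ℓ L a (e i)]

theorem Ns_e (h : SB ℓ L a s e c σ) (i : Fin k) : Nm ℓ L s (e i) = σ i := by
  have h1 : Nm ℓ L s (e i) ^ 2 = σ i ^ 2 := by
    rw [h.Ns]
    have e1 : ∀ j, σ j ^ 2 * ‖c j (e i)‖ ^ 2 = if j = i then σ i ^ 2 else 0 := by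
      intro j
      rw [h.dual]
      split_ifs with h2
      · rw [h2]
        simp
      · simp
    rw [Finset.sum_congr rfl fun j _ => e1 j, Finset.sum_ite_eq', if_pos (Finset.mem_univ i)]
  exact (sq_eq_sq₀ (Nm_nonneg ℓ L s (e i)) (h.pos i).le).1 h1

end sPrjAux

open sPrjAux in
theorem sPrj : S_Prj := by
  intro k ℓ L a s e c σ h
  have hP : ∀ (i : ℕ) (z : EE k) (j : Fin k), ‖c j (Pj e c i z)‖ ≤ ‖c j z‖ := by
    intro i z j
    rw [c_Pj h]
    split_ifs
    · exact le_rfl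
    · rw [norm_zero]
      exact norm_nonneg _
  have hR : ∀ (i : ℕ) (z : EE k) (j : Fin k), ‖c j (z - Pj e c i z)‖ ≤ ‖c j z‖ := by
    intro i z j
    rw [c_sub_Pj h]
    split_ifs
    · rw [norm_zero]
      exact norm_nonneg _
    · exact le_rfl
  refine ⟨fun i z => ?_, fun i z => ?_, fun i z => Na_le h (hP i z), fun i z => Ns_le h (hP i z),
    fun i z => Na_le h (hR i z), fun i z => Ns_le h (hR i z), fun i z => ?_, fun d => ?_,
    fun d => ?_⟩
  · refine le_of_sq (Nm_nonneg ℓ L a z) ?_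
    rw [h.Na]
    exact Finset.single_le_sum (f := fun j => ‖c j z‖ ^ 2) (fun j _ => sq_nonneg _)
      (Finset.mem_univ i)
  · refine le_of_sq (Nm_nonneg ℓ L s z) ?_
    rw [h.Ns, mul_pow]
    exact Finset.single_le_sum (f := fun j => σ j ^ 2 * ‖c j z‖ ^ 2)
      (fun j _ => mul_nonneg (sq_nonneg _) (sq_nonneg _)) (Finset.mem_univ i)
  · refine le_of_sq (mul_nonneg (h.pos i).le (Nm_nonneg ℓ L a z)) ?_
    rw [h.Ns, mul_pow, h.Na, Finset.mul_sum]
    refine Finset.sum_le_sum fun j _ => ?_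
    rw [c_sub_Pj h]
    split_ifs with h1
    · rw [norm_zero, zero_pow two_ne_zero, mul_zero]
      exact mul_nonneg (sq_nonneg _) (sq_nonneg _)
    · have h2 : σ j ≤ σ i := h.anti (Fin.not_lt.mp h1)
      exact mul_le_mul_of_nonneg_right (pow_le_pow_left₀ (h.pos j).le h2 2) (sq_nonneg _)
  · refine (Nm_sum_le ℓ L a Finset.univ _).trans (le_of_eq ?_)
    refine Finset.sum_congr rfl fun i _ => ?_
    rw [Nm_smul, Na_e h, mul_one]
  · refine (Nm_sum_le ℓ L s Finset.univ _).trans (le_of_eq ?_)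
    refine Finset.sum_congr rfl fun i _ => ?_
    rw [Nm_smul, Ns_e h, mul_comm]

end Pool.Agent.Lib.BedG
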