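import Pool.Agent.Lib.BedG.SpecR

/-!
# MP_6f050a_an, theorem G: from the basin of the `q`-step maps to the basin of `F`
-/

set_option autoImplicit false

open scoped Topology
open Set Filter Metric

namespace Pool.Agent.Lib.BedG

namespace sQBAux

variable {k : ℕ}

theorem io_le (z : EE k) : ‖(io k) z‖ ≤ ‖z‖ := by
  rw [pi_norm_le_iff_of_nonneg (norm_nonneg _)]
  intro i
  exact PiLp.norm_apply_le z i

theorem le_io (z : EE k) : ‖z‖ ≤ ((k : ℝ) + 2) * ‖(io k) z‖ := by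
  have h2 : ‖z‖ ^ 2 = ∑ i, ‖z i‖ ^ 2 := EuclideanSpace.norm_sq_eq z
  have h1 : ∑ i, ‖z i‖ ^ 2 ≤ ∑ _i : Fin k, ‖(io k) z‖ ^ 2 := by
    refine Finset.sum_le_sum fun i _ => ?_
    have : ‖z i‖ ≤ ‖(io k) z‖ := norm_le_pi_norm ((io k) z) i
    gcongr
  rw [Finset.sum_const, Finset.card_univ, Fintype.card_fin, nsmul_eq_mul] at h1
  have hk : (0 : ℝ) ≤ k := Nat.cast_nonneg k
  have h3 : ‖z‖ ^ 2 ≤ (((k : ℝ) + 2) * ‖(io k) z‖) ^ 2 := by
    rw [h2, mul_pow]
    refine h1.trans (mul_le_mul_of_nonneg_right ?_ (by positivity))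
    nlinarith
  exact (abs_le_of_sq_le_sq' h3 (by positivity)).2

theorem iosymm_le (w : Fin k → ℂ) : ‖(io k).symm w‖ ≤ ((k : ℝ) + 2) * ‖w‖ := by
  have h := le_io ((io k).symm w)
  rwa [(io k).apply_symm_apply] at h

section

variable {r D C c : ℝ} {F : ℕ → (Fin k → ℂ) → (Fin k → ℂ)}
  {A : ℕ → (Fin k → ℂ) →L[ℂ] (Fin k → ℂ)}

theorem orb_succ (F : ℕ → (Fin k → ℂ) → (Fin k → ℂ)) (m i : ℕ) (z : Fin k → ℂ) :
    Bed.orb F m (i + 1) z = F (m + i) (Bed.orb F m i z) := rfl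

theorem orb_add (F : ℕ → (Fin k → ℂ) → (Fin k → ℂ)) (m i j : ℕ) (z : Fin k → ℂ) :
    Bed.orb F m (i + j) z = Bed.orb F (m + i) j (Bed.orb F m i z) := by
  induction j with
  | zero => rfl
  | succ j ih => rw [← Nat.add_assoc, orb_succ, ih, orb_succ, Nat.add_assoc]

theorem orb_succ' (F : ℕ → (Fin k → ℂ) → (Fin k → ℂ)) (m i : ℕ) (z : Fin k → ℂ) :
    Bed.orb F m (i + 1) z = Bed.orb F (m + 1) i (F m z) := by
  rw [Nat.add_comm i 1, orb_add]
  rfl

theorem orbF (h : Bed.SeqD k r D C c F A) (m i : ℕ) :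
    DifferentiableOn ℂ (Bed.orb F m i) (ball 0 r) ∧ InjOn (Bed.orb F m i) (ball 0 r) ∧
    (∀ z ∈ ball (0 : Fin k → ℂ) r, ∀ w, fderiv ℂ (Bed.orb F m i) z w = 0 → w = 0) ∧
    ∀ z ∈ ball (0 : Fin k → ℂ) r, Bed.orb F m i z ∈ ball (0 : Fin k → ℂ) r ∧
      ‖Bed.orb F m i z‖ ≤ D ^ i * ‖z‖ := by
  induction i with
  | zero =>
    refine ⟨differentiableOn_id, fun x _ y _ hxy => hxy, fun z _ w hw => ?_, fun z hz => ?_⟩
    · have e : fderiv ℂ (Bed.orb F m 0) z = ContinuousLinearMap.id ℂ _ := fderiv_id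
      rw [e] at hw
      exact hw
    · refine ⟨hz, ?_⟩
      rw [pow_zero, one_mul]
      exact le_rfl
  | succ i ih =>
    obtain ⟨i1, i2, i3, i4⟩ := ih
    have hm : MapsTo (Bed.orb F m i) (ball 0 r) (ball 0 r) := fun z hz => (i4 z hz).1
    refine ⟨(h.diff (m + i)).comp i1 hm, fun x hx y hy hxy => ?_, fun z hz w hw => ?_,
      fun z hz => ?_⟩
    · exact i2 hx hy (h.inj (m + i) (hm hx) (hm hy) hxy)
    · have d1 : DifferentiableAt ℂ (Bed.orb F m i) z := i1.differentiableAt (isOpen_ball.mem_nhds hz)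
      have d2 : DifferentiableAt ℂ (F (m + i)) (Bed.orb F m i z) :=
        (h.diff (m + i)).differentiableAt (isOpen_ball.mem_nhds (hm hz))
      have e : fderiv ℂ (Bed.orb F m (i + 1)) z =
          (fderiv ℂ (F (m + i)) (Bed.orb F m i z)).comp (fderiv ℂ (Bed.orb F m i) z) :=
        fderiv_comp z d2 d1
      rw [e] at hw
      exact i3 z hz w (h.dinj (m + i) _ (hm hz) _ hw)
    · obtain ⟨k1, k2⟩ := i4 z hz
      have e1 := h.contr (m + i) _ k1
      have e2 : ‖Bed.orb F m (i + 1) z‖ ≤ D ^ (i + 1) * ‖z‖ := by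
        calc ‖Bed.orb F m (i + 1) z‖ ≤ D * ‖Bed.orb F m i z‖ := e1
          _ ≤ D * (D ^ i * ‖z‖) := mul_le_mul_of_nonneg_left k2 h.D_pos.le
          _ = _ := by ring
      refine ⟨?_, e2⟩
      rw [mem_ball_zero_iff] at hz ⊢
      have e3 : D ^ (i + 1) ≤ 1 := pow_le_one₀ h.D_pos.le h.D_lt.le
      have e4 : D ^ (i + 1) * ‖z‖ ≤ 1 * ‖z‖ := mul_le_mul_of_nonneg_right e3 (norm_nonneg _)
      linarith

end

/-- the identity theorem on a ball of `EE k`, along the lines through the origin -/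
theorem ident {r₀ : ℝ} {g₁ g₂ : EE k → EE k} (h1 : DifferentiableOn ℂ g₁ (ball 0 r₀))
    (h2 : DifferentiableOn ℂ g₂ (ball 0 r₀)) {δ : ℝ} (hδ : 0 < δ)
    (h : ∀ z ∈ ball (0 : EE k) δ, g₁ z = g₂ z) {x : EE k} (hx : x ∈ ball (0 : EE k) r₀) :
    g₁ x = g₂ x := by
  have hr₀ : 0 < r₀ := by
    rw [mem_ball_zero_iff] at hx
    exact (norm_nonneg x).trans_lt hx
  obtain ⟨ρ, hρ1, hρ2⟩ : ∃ ρ : ℝ, 1 < ρ ∧ ρ * ‖x‖ < r₀ := by
    rw [mem_ball_zero_iff] at hx
    by_cases h0 : ‖x‖ = 0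
    · exact ⟨2, by norm_num, by rw [h0, mul_zero]; exact hr₀⟩
    · have h3 : 0 < ‖x‖ := lt_of_le_of_ne (norm_nonneg x) (Ne.symm h0)
      have h4 : 1 < r₀ / ‖x‖ := by rwa [one_lt_div h3]
      obtain ⟨ρ, h5, h6⟩ := exists_between h4
      exact ⟨ρ, h5, by rwa [lt_div_iff₀ h3] at h6⟩
  have hmap : MapsTo (fun t : ℂ => t • x) (ball 0 ρ) (ball 0 r₀) := by
    intro t ht
    rw [mem_ball_zero_iff] at ht ⊢
    rw [norm_smul]
    exact (mul_le_mul_of_nonneg_right ht.le (norm_nonneg x)).trans_lt hρ2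
  have hlin : DifferentiableOn ℂ (fun t : ℂ => t • x) (ball 0 ρ) :=
    (differentiable_id.smul_const x).differentiableOn
  have a1 : AnalyticOnNhd ℂ (fun t : ℂ => g₁ (t • x)) (ball 0 ρ) :=
    (h1.comp hlin hmap).analyticOnNhd isOpen_ball
  have a2 : AnalyticOnNhd ℂ (fun t : ℂ => g₂ (t • x)) (ball 0 ρ) :=
    (h2.comp hlin hmap).analyticOnNhd isOpen_ball
  have hev : (fun t : ℂ => g₁ (t • x)) =ᶠ[𝓝 0] fun t : ℂ => g₂ (t • x) := by
    have hc : Tendsto (fun t : ℂ => t • x) (𝓝 0) (𝓝 0) := by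
      have h3 : Continuous fun t : ℂ => t • x := continuous_id.smul continuous_const
      have h4 := h3.tendsto 0
      rwa [zero_smul] at h4
    filter_upwards [hc (ball_mem_nhds (0 : EE k) hδ)] with t ht
    exact h _ ht
  have hpre : IsPreconnected (ball (0 : ℂ) ρ) := (convex_ball _ _).isPreconnected
  have h0 : (0 : ℂ) ∈ ball (0 : ℂ) ρ := mem_ball_self (by linarith)
  have key := a1.eqOn_of_preconnected_of_eventuallyEq a2 hpre h0 hev
  have h3 := key (show (1 : ℂ) ∈ ball (0 : ℂ) ρ by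
    rw [mem_ball_zero_iff, norm_one]
    exact hρ1)
  simpa using h3

end sQBAux

open sQBAux in
theorem sQB : S_QB := by
  intro k r D C c F A hF q r' hq hr' hrr hB
  have hk0 : (0 : ℝ) ≤ k := Nat.cast_nonneg k
  obtain ⟨Ψ, b1, b2, b3, b4, b5⟩ := hB
  have hr := hF.r_pos
  obtain ⟨N₀, hN₀⟩ : ∃ N₀ : ℕ, ∀ i, N₀ ≤ i → ((k : ℝ) + 2) * (D ^ i * r) < r' := by
    have h1 : Tendsto (fun i : ℕ => ((k : ℝ) + 2) * (D ^ i * r)) atTop (𝓝 (((k : ℝ) + 2) * (0 * r))) :=
      ((tendsto_pow_atTop_nhds_zero_of_lt_one hF.D_pos.le hF.D_lt).mul_const r).const_mul ((k : ℝ) + 2)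
    rw [zero_mul, mul_zero] at h1
    have h2 := h1.eventually_lt_const hr'
    rw [eventually_atTop] at h2
    exact h2
  have hin : ∀ m i, N₀ ≤ i → ∀ z ∈ ball (0 : Fin k → ℂ) r,
      (io k).symm (Bed.orb F m i z) ∈ ball (0 : EE k) r' := by
    intro m i hi z hz
    rw [mem_ball_zero_iff]
    have e1 := ((orbF hF m i).2.2.2 z hz).2
    rw [mem_ball_zero_iff] at hz
    have e2 : D ^ i * ‖z‖ ≤ D ^ i * r := mul_le_mul_of_nonneg_left hz.le (pow_nonneg hF.D_pos.le i)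
    have e3 := iosymm_le (Bed.orb F m i z)
    have e4 := hN₀ i hi
    have e5 : ((k : ℝ) + 2) * ‖Bed.orb F m i z‖ ≤ ((k : ℝ) + 2) * (D ^ i * r) :=
      mul_le_mul_of_nonneg_left (e1.trans e2) (by linarith)
    linarith
  obtain ⟨T, hT⟩ : ∃ T : ℕ → ℕ → (Fin k → ℂ) → (Fin k → ℂ), ∀ m n z, T m n z =
      (io k) (Ψ n ((io k).symm (Bed.orb F m (q * n - m) z))) := ⟨_, fun _ _ _ => rfl⟩
  have hqn : ∀ n, n ≤ q * n := fun n => Nat.le_mul_of_pos_left n hq
  have hsub : ∀ m n, m + N₀ ≤ n → N₀ ≤ q * n - m := by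
    intro m n h
    have := hqn n
    omega
  -- independence of `n`
  have hT1 : ∀ m n, m + N₀ ≤ n → ∀ z ∈ ball (0 : Fin k → ℂ) r, T m (n + 1) z = T m n z := by
    intro m n h z hz
    have e0 := hqn n
    have e1 : q * (n + 1) - m = (q * n - m) + q := by
      rw [Nat.mul_succ]
      omega
    have e2 : m + (q * n - m) = q * n := by omega
    rw [hT, hT, e1, orb_add, e2]
    have e3 := b2 n ((io k).symm (Bed.orb F m (q * n - m) z)) (hin m _ (hsub m n h) z hz)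
    rw [← e3]
    congr 2
  have hTeq : ∀ m n, (fun z => T m n z) =
      (io k) ∘ Ψ n ∘ (io k).symm ∘ Bed.orb F m (q * n - m) := by
    intro m n
    funext z
    exact hT m n z
  refine ⟨fun m z => T m (m + N₀) z, fun m => ?_, fun m z hz => ?_, fun m => ?_,
    fun m z hz w hw => ?_, fun u => ?_⟩
  · show DifferentiableOn ℂ (fun z => T m (m + N₀) z) (ball 0 r)
    rw [hTeq]
    have d0 := (orbF hF m (q * (m + N₀) - m)).1
    have d1 : DifferentiableOn ℂ ((io k).symm ∘ Bed.orb F m (q * (m + N₀) - m)) (ball 0 r) :=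
      (io k).symm.differentiable.comp_differentiableOn d0
    have d2 : DifferentiableOn ℂ (Ψ (m + N₀) ∘ (io k).symm ∘ Bed.orb F m (q * (m + N₀) - m))
        (ball 0 r) := (b1 (m + N₀)).comp d1 fun z hz => hin m _ (hsub m _ le_rfl) z hz
    exact (io k).differentiable.comp_differentiableOn d2
  · show T (m + 1) (m + 1 + N₀) (F m z) = T m (m + N₀) z
    have e0 := hqn (m + 1 + N₀)
    have e1 : q * (m + 1 + N₀) - m = (q * (m + 1 + N₀) - (m + 1)) + 1 := by omega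
    have e2 : T (m + 1) (m + 1 + N₀) (F m z) = T m (m + 1 + N₀) z := by
      rw [hT, hT, e1, orb_succ']
    rw [e2, show m + 1 + N₀ = (m + N₀) + 1 by ring, hT1 m (m + N₀) le_rfl z hz]
  · intro x hx y hy hxy
    have hxy' : T m (m + N₀) x = T m (m + N₀) y := hxy
    rw [hT, hT] at hxy'
    have e1 := b3 (m + N₀) (hin m _ (hsub m _ le_rfl) x hx) (hin m _ (hsub m _ le_rfl) y hy)
      ((io k).injective hxy')
    exact (orbF hF m (q * (m + N₀) - m)).2.1 hx hy ((io k).symm.injective e1)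
  · obtain ⟨d0, -, d4, -⟩ := orbF hF m (q * (m + N₀) - m)
    have hy := hin m _ (hsub m _ le_rfl) z hz
    have c0 : DifferentiableAt ℂ (Bed.orb F m (q * (m + N₀) - m)) z :=
      d0.differentiableAt (isOpen_ball.mem_nhds hz)
    have c1 : DifferentiableAt ℂ (Ψ (m + N₀)) ((io k).symm (Bed.orb F m (q * (m + N₀) - m) z)) :=
      (b1 (m + N₀)).differentiableAt (isOpen_ball.mem_nhds hy)
    have e0 := c0.hasFDerivAt
    have e1 : HasFDerivAt (fun z => T m (m + N₀) z)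
        (((io k) : EE k →L[ℂ] (Fin k → ℂ)).comp ((fderiv ℂ (Ψ (m + N₀))
          ((io k).symm (Bed.orb F m (q * (m + N₀) - m) z))).comp
          (((io k).symm : (Fin k → ℂ) →L[ℂ] EE k).comp
            (fderiv ℂ (Bed.orb F m (q * (m + N₀) - m)) z)))) z := by
      rw [hTeq]
      exact (io k).hasFDerivAt.comp z (c1.hasFDerivAt.comp z ((io k).symm.hasFDerivAt.comp z e0))
    have hw' : fderiv ℂ (fun z => T m (m + N₀) z) z w = 0 := hw
    rw [e1.fderiv] at hw'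
    have e2 : fderiv ℂ (Ψ (m + N₀)) ((io k).symm (Bed.orb F m (q * (m + N₀) - m) z))
        ((io k).symm (fderiv ℂ (Bed.orb F m (q * (m + N₀) - m)) z w)) = 0 :=
      (io k).injective (by rw [map_zero]; exact hw')
    have e3 := b4 _ _ hy _ e2
    have e4 : fderiv ℂ (Bed.orb F m (q * (m + N₀) - m)) z w = 0 :=
      (io k).symm.injective (by rw [map_zero]; exact e3)
    exact d4 z hz w e4
  · obtain ⟨n, x, hx, hxu⟩ := b5 ((io k).symm u)
    have hball : ∀ y ∈ ball (0 : EE k) r', (io k) y ∈ ball (0 : Fin k → ℂ) r := by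
      intro y hy
      rw [mem_ball_zero_iff] at hy ⊢
      exact (io_le y).trans_lt (hy.trans_le hrr)
    -- the orbit in `EE k`
    have hδ : 0 < r' / ((k : ℝ) + 2) := by positivity
    have hδ1 : r' / ((k : ℝ) + 2) ≤ r' := div_le_self hr'.le (by linarith)
    have hsmall : ∀ j, ∀ y ∈ ball (0 : EE k) (r' / ((k : ℝ) + 2)),
        (io k).symm (Bed.orb F (q * n) (q * j) ((io k) y)) ∈ ball (0 : EE k) r' := by
      intro j y hy
      have hy' : y ∈ ball (0 : EE k) r' := ball_subset_ball hδ1 hy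
      rw [mem_ball_zero_iff] at hy ⊢
      have e1 := iosymm_le (Bed.orb F (q * n) (q * j) ((io k) y))
      have e2 := ((orbF hF (q * n) (q * j)).2.2.2 ((io k) y) (hball y hy')).2
      have e3 : D ^ (q * j) * ‖(io k) y‖ ≤ 1 * ‖y‖ :=
        mul_le_mul (pow_le_one₀ hF.D_pos.le hF.D_lt.le) (io_le y) (norm_nonneg _) zero_le_one
      rw [one_mul] at e3
      rw [lt_div_iff₀ (by linarith)] at hy
      have e4 : ((k : ℝ) + 2) * ‖Bed.orb F (q * n) (q * j) ((io k) y)‖ ≤ ((k : ℝ) + 2) * ‖y‖ :=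
        mul_le_mul_of_nonneg_left (e2.trans e3) (by linarith)
      linarith
    have hloc : ∀ j, ∀ y ∈ ball (0 : EE k) (r' / ((k : ℝ) + 2)),
        Ψ (n + j) ((io k).symm (Bed.orb F (q * n) (q * j) ((io k) y))) = Ψ n y := by
      intro j y hy
      induction j with
      | zero =>
        show Ψ n ((io k).symm ((io k) y)) = Ψ n y
        rw [(io k).symm_apply_apply]
      | succ j ih =>
        rw [← ih, ← b2 (n + j) _ (hsmall j y hy), qst, (io k).apply_symm_apply, Nat.mul_succ, orb_add,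
          Nat.mul_add]
        rfl
    have hn1 := hqn n
    refine ⟨q * n, (io k) x, hball x hx, ?_⟩
    show T (q * n) (q * n + N₀) ((io k) x) = u
    obtain ⟨j, hk⟩ : ∃ j, q * n + N₀ = n + j := ⟨q * n + N₀ - n, by omega⟩
    have hk' : q * (n + j) - q * n = q * j := by
      rw [Nat.mul_add]
      omega
    have hk2 : N₀ ≤ q * j := by
      rw [← hk', ← hk]
      exact hsub _ _ le_rfl
    have hglob : Ψ (n + j) ((io k).symm (Bed.orb F (q * n) (q * j) ((io k) x))) = Ψ n x := by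
      refine ident (r₀ := r') (δ := r' / ((k : ℝ) + 2))
        (g₁ := fun y => Ψ (n + j) ((io k).symm (Bed.orb F (q * n) (q * j) ((io k) y)))) (g₂ := Ψ n)
        ?_ (b1 n) hδ (hloc j) hx
      have d0 := (orbF hF (q * n) (q * j)).1
      have d1 : DifferentiableOn ℂ (Bed.orb F (q * n) (q * j) ∘ (io k)) (ball 0 r') :=
        d0.comp (io k).differentiable.differentiableOn hball
      have d2 : DifferentiableOn ℂ ((io k).symm ∘ (Bed.orb F (q * n) (q * j) ∘ (io k))) (ball 0 r') :=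
        (io k).symm.differentiable.comp_differentiableOn d1
      exact (b1 (n + j)).comp d2 fun y hy => hin _ _ hk2 _ (hball y hy)
    rw [hT, hk, hk', hglob, hxu, (io k).apply_symm_apply]

end Pool.Agent.Lib.BedG
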