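import Pool.Agent.Lib.BedG.SpecL

/-!
# MP_6f050a_an, theorem G, QdE: the quadratic parts of the maps
-/

set_option autoImplicit false

open scoped Topology
open Set Filter Metric

namespace Pool.Agent.Lib.BedG

theorem sQdE : S_QdE := by
  intro hTay k ε ℓ r C₀ f L h
  have hr := h.r_pos
  have hC0 := h.C_pos
  have hf0 : ∀ m, f m 0 = 0 := by
    intro m
    have h1 := h.contr m 0 (mem_ball_self hr)
    rw [norm_zero, mul_zero] at h1
    exact norm_le_zero_iff.1 h1
  have h1 : ∀ m, ∃ B : EE k →L[ℂ] EE k →L[ℂ] EE k, (∀ p q, ‖B p q‖ ≤ C₀ * ‖p‖ * ‖q‖) ∧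
      ∀ z ∈ ball (0 : EE k) r, ‖(f m z - L m z) - B z z‖ ≤ 32 * C₀ / r * ‖z‖ ^ 3 := by
    intro m
    refine hTay k r C₀ (fun z => f m z - L m z) hr hC0 ?_ ?_ ?_
    · exact (h.diff m).sub (L m).differentiable.differentiableOn
    · simp [hf0 m]
    · exact h.quad m
  choose B hB1 hB2 using h1
  refine ⟨max 1 (max C₀ (32 * C₀ / r)), B, le_max_left _ _, ?_, ?_⟩
  · intro m p q
    refine (hB1 m p q).trans ?_
    have h2 : C₀ ≤ max 1 (max C₀ (32 * C₀ / r)) :=
      (le_max_left _ _).trans (le_max_right _ _)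
    exact mul_le_mul_of_nonneg_right (mul_le_mul_of_nonneg_right h2 (norm_nonneg _))
      (norm_nonneg _)
  · intro m z hz
    refine (hB2 m z hz).trans ?_
    have h2 : 32 * C₀ / r ≤ max 1 (max C₀ (32 * C₀ / r)) :=
      (le_max_right _ _).trans (le_max_right _ _)
    exact mul_le_mul_of_nonneg_right h2 (by positivity)

end Pool.Agent.Lib.BedG
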