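import Pool.Agent.Lib.BedG.SpecL

/-!
# The basis adapted to two times
-/

set_option autoImplicit false

open scoped Topology
open Set Filter Metric

namespace Pool.Agent.Lib.BedG

namespace sSBAux

/-- Pythagoras for an orthogonal family. -/
theorem norm_sq_sum {k n : ℕ} (v : Fin n → EE k) (d : Fin n → ℂ)
    (h : ∀ i j, i ≠ j → inner ℂ (v i) (v j) = (0 : ℂ)) :
    ‖∑ i, d i • v i‖ ^ 2 = ∑ i, ‖d i‖ ^ 2 * ‖v i‖ ^ 2 := by
  have h1 : (inner ℂ (∑ i, d i • v i) (∑ i, d i • v i) : ℂ) =
      ((∑ i, ‖d i‖ ^ 2 * ‖v i‖ ^ 2 : ℝ) : ℂ) := by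
    rw [sum_inner]
    push_cast
    refine Finset.sum_congr rfl fun i _ => ?_
    rw [inner_sum, Finset.sum_eq_single i]
    · rw [inner_smul_left, inner_smul_right, inner_self_eq_norm_sq_to_K, ← mul_assoc,
        ← Complex.normSq_eq_conj_mul_self, Complex.normSq_eq_norm_sq]
      push_cast
      rfl
    · intro j _ hj
      rw [inner_smul_left, inner_smul_right, h i j (Ne.symm hj), mul_zero, mul_zero]
    · intro hi
      exact absurd (Finset.mem_univ i) hi
  rw [inner_self_eq_norm_sq_to_K] at h1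
  have h2 : ((‖∑ i, d i • v i‖ ^ 2 : ℝ) : ℂ) = ((∑ i, ‖d i‖ ^ 2 * ‖v i‖ ^ 2 : ℝ) : ℂ) := by
    rw [← h1]
    push_cast
    rfl
  exact_mod_cast h2

end sSBAux

open sSBAux in
theorem sSB : S_SB := by
  intro hSVD k ℓ L a s
  obtain ⟨b, hort, hanti⟩ := hSVD k ((La L a).symm.trans (La L s))
  have hTdef : ∀ x, ((La L a).symm.trans (La L s)) x = La L s ((La L a).symm x) := fun x => rfl
  simp only [hTdef] at hort hanti
  have hEa : (Real.exp (ℓ * a) : ℂ) ≠ 0 := by
    exact_mod_cast (Real.exp_pos _).ne'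
  -- the vectors, the coordinates
  refine ⟨fun i => ((Real.exp (ℓ * a) : ℂ)⁻¹) • (La L a).symm (b i),
    fun i => (Real.exp (ℓ * a) : ℂ) • ((innerSL ℂ (b i)).comp ((La L a : EE k →L[ℂ] EE k))),
    fun i => Real.exp (ℓ * ((s : ℝ) - a)) * ‖La L s ((La L a).symm (b i))‖, ?_⟩
  have hc : ∀ i z, ((Real.exp (ℓ * a) : ℂ) • ((innerSL ℂ (b i)).comp ((La L a : EE k →L[ℂ] EE k)))) z =
      (Real.exp (ℓ * a) : ℂ) * inner ℂ (b i) (La L a z) := by
    intro i z
    rfl
  have hex : ∀ z, ∑ i, (inner ℂ (b i) (La L a z)) • (La L a).symm (b i) = z := by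
    intro z
    have h1 := b.sum_repr' (La L a z)
    have h2 := (La L a).symm_apply_apply z
    rw [← h1, map_sum] at h2
    simp only [map_smul] at h2
    exact h2
  have hpos : ∀ i, 0 < ‖La L s ((La L a).symm (b i))‖ := by
    intro i
    rw [norm_pos_iff]
    intro h
    have h1 : (La L a).symm (b i) = 0 := by
      apply (La L s).injective
      rw [h, map_zero]
    have h2 : b i = 0 := by
      apply (La L a).symm.injective
      rw [h1, map_zero]
    exact b.orthonormal.ne_zero i h2
  constructor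
  · intro z
    simp only [hc]
    refine Eq.trans ?_ (hex z)
    refine Finset.sum_congr rfl fun i _ => ?_
    rw [smul_smul, mul_comm (Real.exp (ℓ * a) : ℂ), mul_assoc, mul_inv_cancel₀ hEa, mul_one]
  · intro i j
    simp only [hc]
    rw [map_smul, ContinuousLinearEquiv.apply_symm_apply, inner_smul_right, ← mul_assoc,
      mul_inv_cancel₀ hEa, one_mul]
    have := orthonormal_iff_ite.mp b.orthonormal i j
    exact this
  · intro z
    simp only [hc]
    unfold Nm
    rw [mul_pow, ← b.sum_sq_norm_inner_right (La L a z), Finset.mul_sum]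
    refine Finset.sum_congr rfl fun i _ => ?_
    rw [norm_mul, mul_pow]
    congr 2
    rw [Complex.norm_real, Real.norm_eq_abs, abs_of_pos (Real.exp_pos _)]
  · intro z
    simp only [hc]
    unfold Nm
    have h1 : La L s z = ∑ i, (inner ℂ (b i) (La L a z)) • La L s ((La L a).symm (b i)) := by
      conv_lhs => rw [← hex z]
      rw [map_sum]
      simp only [map_smul]
    rw [mul_pow, h1, norm_sq_sum _ _ hort, Finset.mul_sum]
    refine Finset.sum_congr rfl fun i _ => ?_
    rw [norm_mul, Complex.norm_real, Real.norm_eq_abs, abs_of_pos (Real.exp_pos _)]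
    have hE : Real.exp (ℓ * s) = Real.exp (ℓ * ((s : ℝ) - a)) * Real.exp (ℓ * a) := by
      rw [← Real.exp_add]
      congr 1
      ring
    rw [hE]
    ring
  · intro i
    exact mul_pos (Real.exp_pos _) (hpos i)
  · intro i j hij
    exact mul_le_mul_of_nonneg_left (hanti hij) (Real.exp_pos _).le

end Pool.Agent.Lib.BedG
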