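import Pool.Agent.Lib.BedG.SpecL
import Mathlib.Analysis.InnerProductSpace.Spectrum
import Mathlib.Analysis.InnerProductSpace.Adjoint

/-!
# The singular basis of an isomorphism
-/

set_option autoImplicit false

open scoped Topology
open Set Filter Metric

namespace Pool.Agent.Lib.BedG

namespace sSVDAux

/-- The map `T† ∘ T`. -/
noncomputable def gr {k : ℕ} (T : EE k ≃L[ℂ] EE k) : EE k →ₗ[ℂ] EE k :=
  (LinearMap.adjoint (T.toLinearEquiv : EE k →ₗ[ℂ] EE k)) ∘ₗ (T.toLinearEquiv : EE k →ₗ[ℂ] EE k)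

theorem inner_gr {k : ℕ} (T : EE k ≃L[ℂ] EE k) (x y : EE k) :
    inner ℂ x (gr T y) = inner ℂ (T x) (T y) := by
  unfold gr
  rw [LinearMap.comp_apply, LinearMap.adjoint_inner_right]
  rfl

theorem inner_gr' {k : ℕ} (T : EE k ≃L[ℂ] EE k) (x y : EE k) :
    inner ℂ (gr T x) y = inner ℂ (T x) (T y) := by
  unfold gr
  rw [LinearMap.comp_apply, LinearMap.adjoint_inner_left]
  rfl

theorem gr_symm {k : ℕ} (T : EE k ≃L[ℂ] EE k) : (gr T).IsSymmetric := by
  intro x y
  rw [inner_gr, inner_gr']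

end sSVDAux

open sSVDAux in
theorem sSVD : S_SVD := by
  intro k T
  have hn : Module.finrank ℂ (EE k) = k := by simp
  have hT := gr_symm T
  have key : ∀ i j, inner ℂ (T (hT.eigenvectorBasis hn i)) (T (hT.eigenvectorBasis hn j)) =
      (hT.eigenvalues hn j : ℂ) * inner ℂ (hT.eigenvectorBasis hn i) (hT.eigenvectorBasis hn j) := by
    intro i j
    rw [← inner_gr, hT.apply_eigenvectorBasis hn j, inner_smul_right]
    rfl
  refine ⟨hT.eigenvectorBasis hn, ?_, ?_⟩
  · intro i j hij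
    rw [key, (hT.eigenvectorBasis hn).inner_eq_zero hij, mul_zero]
  · have hsq : ∀ i, ‖T (hT.eigenvectorBasis hn i)‖ ^ 2 = hT.eigenvalues hn i := by
      intro i
      have h1 := key i i
      rw [inner_self_eq_norm_sq_to_K, inner_self_eq_norm_sq_to_K,
        (hT.eigenvectorBasis hn).norm_eq_one] at h1
      have h2 : ((‖T (hT.eigenvectorBasis hn i)‖ ^ 2 : ℝ) : ℂ) = ((hT.eigenvalues hn i : ℝ) : ℂ) := by
        push_cast
        simpa using h1
      exact_mod_cast h2
    intro i j hij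
    have h3 := hT.eigenvalues_antitone hn hij
    rw [← hsq i, ← hsq j] at h3
    exact (pow_le_pow_iff_left₀ (norm_nonneg _) (norm_nonneg _) two_ne_zero).mp h3

end Pool.Agent.Lib.BedG
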