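import Pool.Agent.Lib.BedG.SpecT

/-! # BedG/TFa: the limits of a train are injective immersions -/

set_option autoImplicit false

open scoped Topology
open Set Filter Metric

namespace Pool.Agent.Lib.BedG

namespace sTFaAux

variable {k : ℕ}

/-- `f` is differentiable at `z` with injective derivative. -/
def Imm (f : EE k → EE k) (z : EE k) : Prop :=
  DifferentiableAt ℂ f z ∧ ∀ w, fderiv ℂ f z w = 0 → w = 0

theorem Imm.comp {g f : EE k → EE k} {z : EE k} (hg : Imm g (f z)) (hf : Imm f z) :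
    Imm (fun y => g (f y)) z := by
  have hc : HasFDerivAt (fun y => g (f y)) ((fderiv ℂ g (f z)).comp (fderiv ℂ f z)) z :=
    HasFDerivAt.comp z hg.1.hasFDerivAt hf.1.hasFDerivAt
  refine ⟨hc.differentiableAt, ?_⟩
  intro w hw
  rw [hc.fderiv] at hw
  exact hf.2 w (hg.2 _ hw)

theorem Imm.id (z : EE k) : Imm (fun y => y) z := by
  refine ⟨differentiableAt_fun_id, ?_⟩
  intro w hw
  have : fderiv ℂ (fun y : EE k => y) z = ContinuousLinearMap.id ℂ (EE k) := fderiv_fun_id
  rw [this] at hw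
  exact hw

theorem Imm.congr {g f : EE k → EE k} {z : EE k} (hf : Imm f z) (h : g =ᶠ[𝓝 z] f) :
    Imm g z := by
  refine ⟨hf.1.congr_of_eventuallyEq h, ?_⟩
  intro w hw
  rw [h.fderiv_eq] at hw
  exact hf.2 w hw

/-- A differentiable map with a differentiable left inverse is an immersion. -/
theorem Imm.of_leftInv {f G : EE k → EE k} {z : EE k} (hf : DifferentiableAt ℂ f z)
    (hG : DifferentiableAt ℂ G (f z)) (h : ∀ y, G (f y) = y) : Imm f z := by
  refine ⟨hf, ?_⟩
  intro w hw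
  have hc : HasFDerivAt (fun y => G (f y)) ((fderiv ℂ G (f z)).comp (fderiv ℂ f z)) z :=
    HasFDerivAt.comp z hG.hasFDerivAt hf.hasFDerivAt
  have hid : HasFDerivAt (fun y => G (f y)) (ContinuousLinearMap.id ℂ (EE k)) z := by
    have : (fun y => G (f y)) = fun y => y := funext h
    rw [this]
    exact hasFDerivAt_id z
  have he := hc.unique hid
  have h1 : (fderiv ℂ G (f z)) (fderiv ℂ f z w) = w := by
    have := congrArg (fun A : EE k →L[ℂ] EE k => A w) he
    simpa using this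
  rw [hw, map_zero] at h1
  exact h1.symm

/-- The composition of the maps `S j`. -/
def fw (S : ℕ → EE k → EE k) : ℕ → EE k → EE k
  | 0, z => z
  | l + 1, z => S l (fw S l z)

theorem fw_diff (S : ℕ → EE k → EE k) (hS : ∀ j, Differentiable ℂ (S j)) (l : ℕ) :
    Differentiable ℂ (fw S l) := by
  induction l with
  | zero => exact differentiable_id
  | succ l ih => exact (hS l).comp ih

theorem fw_bk (S T : ℕ → EE k → EE k) (hST : ∀ j z, S j (T j z) = z) (l : ℕ) (z : EE k) :
    fw S l (bk T l 0 z) = z := by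
  induction l generalizing z with
  | zero => rfl
  | succ l ih =>
    rw [bk_succ', Nat.zero_add]
    simp only [fw]
    rw [ih, hST]

theorem bk_diff (T : ℕ → EE k → EE k) (hT : ∀ j, Differentiable ℂ (T j)) (l m : ℕ) :
    Differentiable ℂ (bk T l m) := by
  induction l generalizing m with
  | zero => exact differentiable_id
  | succ l ih => exact (hT m).comp (ih (m + 1))

theorem bk_imm (S T : ℕ → EE k → EE k) (hS : ∀ j, Differentiable ℂ (S j))
    (hT : ∀ j, Differentiable ℂ (T j)) (hST : ∀ j z, S j (T j z) = z) (l : ℕ) (z : EE k) :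
    Imm (bk T l 0) z :=
  Imm.of_leftInv (bk_diff T hT l 0 z) (fw_diff S hS l _) (fw_bk S T hST l)

theorem bk_inj (S T : ℕ → EE k → EE k) (hST : ∀ j z, S j (T j z) = z) (l : ℕ) (z z' : EE k)
    (h : bk T l 0 z = bk T l 0 z') : z = z' := by
  rw [← fw_bk S T hST l z, ← fw_bk S T hST l z', h]

/-- The near identity map. -/
theorem near_id (hCau : S_Cau) (ν : EE k → ℝ) (hν : IsNu ν) (H : EE k → EE k) (r ε : ℝ)
    (hr : 0 < r) (hε0 : 0 ≤ ε) (hc : 2 * ε / r ≤ 1 / 2)
    (hd : DifferentiableOn ℂ H {z | ν z < r}) (hn : ∀ z, ν z < r → ‖H z - z‖ ≤ ε) :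
    (∀ z, ν z < r / 2 → Imm H z) ∧
      ∀ z, ν z < r / 2 → ∀ z', ν z' < r / 2 → H z = H z' → z = z' := by
  have hcau := hCau k ν (fun z => H z - z) r ε hν hr hε0 (hd.sub differentiableOn_id) hn
  constructor
  · intro z hz
    have hz2 : ν z < r := hz.trans (by linarith)
    have hdz : DifferentiableAt ℂ H z := hd.differentiableAt ((hν.isOpen r).mem_nhds hz2)
    refine ⟨hdz, ?_⟩
    intro w hw
    have h1 := hcau.1 z hz w
    have h2 : fderiv ℂ (fun z => H z - z) z = fderiv ℂ H z - ContinuousLinearMap.id ℂ (EE k) := by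
      have := (hdz.hasFDerivAt.sub (hasFDerivAt_id z)).fderiv
      exact this
    rw [h2] at h1
    have h3 : (fderiv ℂ H z - ContinuousLinearMap.id ℂ (EE k)) w = - w := by
      simp [hw]
    rw [h3, norm_neg] at h1
    have h4 : ‖w‖ ≤ 1 / 2 * ‖w‖ := h1.trans (mul_le_mul_of_nonneg_right hc (norm_nonneg _))
    have h5 : ‖w‖ = 0 := le_antisymm (by linarith) (norm_nonneg _)
    exact norm_eq_zero.mp h5
  · intro z hz z' hz' he
    have h1 := hcau.2 z hz z' hz'
    have h3 : H z - z - (H z' - z') = -(z - z') := by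
      rw [he]; abel
    rw [h3, norm_neg] at h1
    have h4 : ‖z - z'‖ ≤ 1 / 2 * ‖z - z'‖ :=
      h1.trans (mul_le_mul_of_nonneg_right hc (norm_nonneg _))
    have h5 : ‖z - z'‖ = 0 := le_antisymm (by linarith) (norm_nonneg _)
    exact sub_eq_zero.mp (norm_eq_zero.mp h5)

variable {dom : ℕ → Set (EE k)} {Θ S T : ℕ → EE k → EE k} {ν ρ : ℕ → EE k → ℝ} {R e A : ℕ → ℝ}
  {Φ : ℕ → EE k → EE k}

theorem large (hCau : S_Cau) (hT : Trn dom Θ S T ν ρ R e A) (hΦ : IsPhi dom Θ T Φ ν R) (l : ℕ) :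
    (∀ z, ν l z < R l / 2 → Imm (Φ l) z) ∧
      ∀ z, ν l z < R l / 2 → ∀ z', ν l z' < R l / 2 → Φ l z = Φ l z' → z = z' := by
  obtain ⟨H, hHd, hH⟩ := hΦ.H l
  have hR := hT.R_ge l
  have hR0 : 0 < R l := by linarith
  have hcoef : 2 * (1 / 4) / R l ≤ 1 / 2 := by
    rw [div_le_iff₀ hR0]
    linarith
  have hni := near_id hCau (ν l) (hT.nu l) H (R l) (1 / 4) hR0 (by norm_num) hcoef hHd
    (fun z hz => (hH z hz).2.1)
  have hlt : ∀ z, ν l z < R l / 2 → ν l z < R l := fun z hz => hz.trans (by linarith)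
  constructor
  · intro z hz
    have h1 : Imm (fun y => bk T l 0 (H y)) z :=
      Imm.comp (bk_imm S T hT.S_diff hT.T_diff hT.ST l (H z)) (hni.1 z hz)
    apply h1.congr
    filter_upwards [((hT.nu l).isOpen (R l / 2)).mem_nhds hz] with y hy
    exact (hH y (hlt y hy)).2.2
  · intro z hz z' hz' he
    rw [(hH z (hlt z hz)).2.2, (hH z' (hlt z' hz')).2.2] at he
    exact hni.2 z hz z' hz' (bk_inj S T hT.ST l _ _ he)

theorem compat (hΦ : IsPhi dom Θ T Φ ν R) (hT : Trn dom Θ S T ν ρ R e A) (l : ℕ) (z : EE k)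
    (hz : z ∈ dom l) : Φ (l + 1) (Θ l z) = Φ l z := by
  have h1 := hΦ.lim (l + 1) (Θ l z) (hT.maps l hz)
  have h2 := (tendsto_add_atTop_iff_nat 1).mpr (hΦ.lim l z hz)
  have h3 : (fun i => bk T (l + (i + 1)) 0 (orbE Θ l (i + 1) z)) =
      fun i => bk T (l + 1 + i) 0 (orbE Θ (l + 1) i (Θ l z)) := by
    funext i
    rw [orbE_succ', show l + (i + 1) = l + 1 + i by omega]
  rw [h3] at h2
  exact tendsto_nhds_unique h1 h2

theorem orb_mem (hT : Trn dom Θ S T ν ρ R e A) (l i : ℕ) (z : EE k) (hz : z ∈ dom l) :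
    orbE Θ l i z ∈ dom (l + i) := by
  induction i with
  | zero => exact hz
  | succ i ih => exact hT.maps (l + i) ih

theorem compat' (hΦ : IsPhi dom Θ T Φ ν R) (hT : Trn dom Θ S T ν ρ R e A) (l i : ℕ) (z : EE k)
    (hz : z ∈ dom l) : Φ (l + i) (orbE Θ l i z) = Φ l z := by
  induction i with
  | zero => rfl
  | succ i ih =>
    rw [orbE_succ, ← ih]
    exact compat hΦ hT (l + i) _ (orb_mem hT l i z hz)

theorem orb_imm (hT : Trn dom Θ S T ν ρ R e A) (l i : ℕ) (z : EE k) (hz : z ∈ dom l) :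
    Imm (orbE Θ l i) z := by
  induction i with
  | zero => exact Imm.id z
  | succ i ih =>
    have h1 : orbE Θ l i z ∈ dom (l + i) := orb_mem hT l i z hz
    have h2 : Imm (Θ (l + i)) (orbE Θ l i z) :=
      ⟨(hT.diff (l + i)).differentiableAt ((hT.open_dom (l + i)).mem_nhds h1),
        hT.dinj (l + i) _ h1⟩
    have h3 : Imm (fun y => Θ (l + i) (orbE Θ l i y)) z := Imm.comp h2 ih
    exact h3

theorem orb_inj (hT : Trn dom Θ S T ν ρ R e A) (l i : ℕ) : InjOn (orbE Θ l i) (dom l) := by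
  induction i with
  | zero =>
    intro z _ z' _ h
    exact h
  | succ i ih =>
    intro z hz z' hz' h
    rw [orbE_succ, orbE_succ] at h
    exact ih hz hz' (hT.inj (l + i) (orb_mem hT l i z hz) (orb_mem hT l i z' hz') h)

/-- A level at which the orbits of two points are in the good set. -/
theorem level (hT : Trn dom Θ S T ν ρ R e A) (l : ℕ) (z z' : EE k) (hz : z ∈ dom l)
    (hz' : z' ∈ dom l) : ∃ i, ν (l + i) (orbE Θ l i z) < R (l + i) / 2 ∧
      ν (l + i) (orbE Θ l i z') < R (l + i) / 2 := by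
  obtain ⟨i, h1, h2⟩ := ((hT.bdd l z hz).and (hT.bdd l z' hz')).exists
  have h3 := hT.R_ge (l + i)
  exact ⟨i, by linarith, by linarith⟩

end sTFaAux

open sTFaAux in
/-- **TFa.** The limits are injective immersions. -/
theorem sTFa : S_TFa := by
  intro hCau k dom Θ S T ν ρ R e A hT Φ hΦ
  have himm : ∀ l, ∀ z ∈ dom l, Imm (Φ l) z := by
    intro l z hz
    obtain ⟨i, hb, -⟩ := level hT l z z hz hz
    have h1 : Imm (fun y => Φ (l + i) (orbE Θ l i y)) z :=
      Imm.comp ((large hCau hT hΦ (l + i)).1 _ hb) (orb_imm hT l i z hz)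
    apply h1.congr
    filter_upwards [(hT.open_dom l).mem_nhds hz] with y hy
    exact (compat' hΦ hT l i y hy).symm
  refine ⟨fun l z hz => (himm l z hz).1.differentiableWithinAt,
    fun l z hz => compat hΦ hT l z hz, ?_, fun l z hz => (himm l z hz).2⟩
  intro l z hz z' hz' he
  obtain ⟨i, hb, hb'⟩ := level hT l z z' hz hz'
  rw [← compat' hΦ hT l i z hz, ← compat' hΦ hT l i z' hz'] at he
  exact orb_inj hT l i hz hz' ((large hCau hT hΦ (l + i)).2 _ hb _ hb' he)

end Pool.Agent.Lib.BedG
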