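import Pool.Agent.Lib.BedG.SpecT

/-!
# MP_6f050a_an, theorem G: TLi, the estimates for a train
-/

set_option autoImplicit false

open scoped Topology
open Set Filter Metric

namespace Pool.Agent.Lib.BedG

namespace sTLiAux

variable {k : ℕ}

theorem tele (g : ℕ → EE k) (l n : ℕ)
    (h : ∀ j, j < n → ‖g (j + 1) - g j‖ ≤ (1 / 2) ^ (l + j + 3)) :
    ‖g n - g 0‖ ≤ (1 / 2) ^ (l + 2) * (1 - (1 / 2) ^ n) := by
  induction n with
  | zero => simp
  | succ n ih =>
    have h1 := ih fun j hj => h j (hj.trans (Nat.lt_succ_self n))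
    have h2 := h n (Nat.lt_succ_self n)
    have h3 : ‖g (n + 1) - g 0‖ ≤ ‖g (n + 1) - g n‖ + ‖g n - g 0‖ :=
      norm_sub_le_norm_sub_add_norm_sub _ _ _
    have h4 : ((1 : ℝ) / 2) ^ (l + 2) * (1 - (1 / 2) ^ (n + 1)) =
        (1 / 2) ^ (l + n + 3) + (1 / 2) ^ (l + 2) * (1 - (1 / 2) ^ n) := by
      ring
    rw [h4]
    linarith

theorem tele' (g : ℕ → EE k) (l n : ℕ)
    (h : ∀ j, j < n → ‖g (j + 1) - g j‖ ≤ (1 / 2) ^ (l + j + 3)) :
    ‖g n - g 0‖ ≤ 1 / 4 := by
  refine (tele g l n h).trans ?_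
  have h1 : (0 : ℝ) ≤ (1 / 2) ^ n := by positivity
  have h2 : ((1 : ℝ) / 2) ^ (l + 2) ≤ 1 / 4 := by
    rw [pow_add]
    have : ((1 : ℝ) / 2) ^ l ≤ 1 := pow_le_one₀ (by norm_num) (by norm_num)
    nlinarith
  have h3 : (0 : ℝ) ≤ (1 / 2) ^ (l + 2) := by positivity
  nlinarith

section

variable {dom : ℕ → Set (EE k)} {Θ S T : ℕ → EE k → EE k} {ν ρ : ℕ → EE k → ℝ} {R e A : ℕ → ℝ}
  (h : Trn dom Θ S T ν ρ R e A)

include h

theorem orbA (l : ℕ) (z : EE k) (hz : ν l z ≤ R l) (i : ℕ) :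
    ν (l + i) (orbE Θ l i z) ≤ R (l + i) := by
  induction i with
  | zero => exact hz
  | succ i ih => exact h.prop (l + i) _ ih

omit h in
theorem prodA (A : ℕ → ℝ) (l i : ℕ) : A l * ∏ j ∈ Finset.Icc (l + 1) (l + 1 + i), A j =
    ∏ j ∈ Finset.Icc l (l + (i + 1)), A j := by
  rw [show l + 1 + i = l + (i + 1) by ring,
    ← Finset.mul_prod_Ioc_eq_prod_Icc (f := A) (show l ≤ l + (i + 1) by omega)]
  congr 1
  refine Finset.prod_congr ?_ fun _ _ => rfl
  ext x
  simp only [Finset.mem_Icc, Finset.mem_Ioc]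
  omega

theorem main (i : ℕ) : ∀ (l : ℕ) (z : EE k), ν l z ≤ R l →
    ρ l (bk T (i + 1) l (orbE Θ l (i + 1) z) - bk T i l (orbE Θ l i z)) ≤
      e (l + i) * ∏ j ∈ Finset.Icc l (l + i), A j := by
  induction i using Nat.strong_induction_on with
  | _ i ih =>
    intro l z hz
    have hR := h.R_ge l
    have hA := h.A_ge l
    rcases i with _ | i
    · have h1 := h.near l z hz
      have h2 : A l * ρ (l + 1) (Θ l z - S l z) ≤ A l * e l :=
        mul_le_mul_of_nonneg_left h1 (by linarith)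
      have h3 := h.small l l le_rfl
      rw [Finset.Icc_self, Finset.prod_singleton, mul_comm] at h3
      have h4 : ((1 : ℝ) / 2) ^ (l + 3) ≤ 1 := pow_le_one₀ (by norm_num) (by norm_num)
      have h5 := h.pull l z (Θ l z - S l z) (by linarith) (by linarith)
      rw [add_sub_cancel] at h5
      have h6 : bk T (0 + 1) l (orbE Θ l (0 + 1) z) - bk T 0 l (orbE Θ l 0 z) =
          T l (Θ l z) - z := rfl
      rw [h6, Nat.add_zero, Finset.Icc_self, Finset.prod_singleton, mul_comm (e l)]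
      exact h5.trans h2
    · have hz' := h.prop l z hz
      have hIH : ∀ j, j < i + 1 → ‖bk T (j + 1) l (orbE Θ l (j + 1) z) -
          bk T j l (orbE Θ l j z)‖ ≤ (1 / 2) ^ (l + j + 3) := fun j hj =>
        ((h.le_rho l _).trans (ih j hj l z hz)).trans (h.small l (l + j) (by omega))
      have hw := tele' (fun j => bk T j l (orbE Θ l j z)) l (i + 1) hIH
      have hd := ih i (Nat.lt_succ_self i) (l + 1) (Θ l z) hz'
      have e1 : bk T (i + 1 + 1) l (orbE Θ l (i + 1 + 1) z) =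
          T l (bk T (i + 1) (l + 1) (orbE Θ (l + 1) (i + 1) (Θ l z))) := by
        rw [orbE_succ', bk_succ]
      have e2 : bk T (i + 1) l (orbE Θ l (i + 1) z) =
          T l (bk T i (l + 1) (orbE Θ (l + 1) i (Θ l z))) := by
        rw [orbE_succ', bk_succ]
      have hw' : ‖bk T (i + 1) l (orbE Θ l (i + 1) z) - z‖ ≤ 1 / 4 := hw
      rw [e1, e2]
      rw [e2] at hw'
      generalize bk T (i + 1) (l + 1) (orbE Θ (l + 1) (i + 1) (Θ l z)) = x at hd ⊢
      generalize bk T i (l + 1) (orbE Θ (l + 1) i (Θ l z)) = x' at hd hw' ⊢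
      have h1 : A l * ρ (l + 1) (x - x') ≤
          e (l + (i + 1)) * ∏ j ∈ Finset.Icc l (l + (i + 1)), A j := by
        rw [← prodA A l i]
        calc A l * ρ (l + 1) (x - x')
            ≤ A l * (e (l + 1 + i) * ∏ j ∈ Finset.Icc (l + 1) (l + 1 + i), A j) :=
              mul_le_mul_of_nonneg_left hd (by linarith)
          _ = _ := by
              rw [show l + 1 + i = l + (i + 1) by ring]
              ring
      have h2 := h.small l (l + (i + 1)) (by omega)
      have h3 : ((1 : ℝ) / 2) ^ (l + (i + 1) + 3) ≤ 1 := pow_le_one₀ (by norm_num) (by norm_num)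
      have h4 : ν l (T l x') ≤ 2 * R l := by
        have h5 := (h.nu l).sub_le (T l x') z
        have h6 := (h.nu l).le (T l x' - z)
        linarith
      have h7 := h.pull l (T l x') (x - x') h4 ((h1.trans h2).trans h3)
      rw [h.ST, add_sub_cancel] at h7
      exact h7.trans h1

end

end sTLiAux

open sTLiAux in
/-- **TLi.** The estimates for a train. -/
theorem sTLi : S_TLi := by
  intro k dom Θ S T ν ρ R e A h l z hz
  have h1 : ∀ i, ‖bk T (i + 1) l (orbE Θ l (i + 1) z) - bk T i l (orbE Θ l i z)‖ ≤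
      (1 / 2) ^ (l + i + 3) := fun i =>
    ((h.le_rho l _).trans (main h i l z hz)).trans (h.small l (l + i) (by omega))
  exact ⟨orbA h l z hz, h1, fun i => tele' (fun j => bk T j l (orbE Θ l j z)) l i fun j _ => h1 j⟩

end Pool.Agent.Lib.BedG
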