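import Pool.Agent.Lib.BedG.SpecT

/-!
# MP_6f050a_an, theorem G: the limits of a train
-/

set_option autoImplicit false

open scoped Topology
open Set Filter Metric

namespace Pool.Agent.Lib.BedG

namespace sTPhAux

variable {k : ℕ} {dom : ℕ → Set (EE k)} {Θ S T : ℕ → EE k → EE k} {ν ρ : ℕ → EE k → ℝ}
  {R e A : ℕ → ℝ}

theorem bk_diff (hT : ∀ j, Differentiable ℂ (T j)) (i : ℕ) :
    ∀ l, Differentiable ℂ (bk T i l) := by
  induction i with
  | zero => exact fun l => differentiable_id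
  | succ i ih => exact fun l => (hT l).comp (ih (l + 1))

theorem orb_maps (h : Trn dom Θ S T ν ρ R e A) (l i : ℕ) :
    MapsTo (orbE Θ l i) (dom l) (dom (l + i)) := by
  induction i with
  | zero => exact fun z hz => hz
  | succ i ih => exact fun z hz => h.maps (l + i) (ih hz)

theorem orb_diff (h : Trn dom Θ S T ν ρ R e A) (l i : ℕ) :
    DifferentiableOn ℂ (orbE Θ l i) (dom l) := by
  induction i with
  | zero => exact differentiableOn_id
  | succ i ih => exact (h.diff (l + i)).comp ih (orb_maps h l i)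

theorem tend (hT : ∀ j, Differentiable ℂ (T j)) (m : ℕ) (z w : EE k)
    (h : Tendsto (fun i => bk T i m (orbE Θ m i z)) atTop (𝓝 w)) :
    Tendsto (fun i => bk T (m + i) 0 (orbE Θ m i z)) atTop (𝓝 (bk T m 0 w)) := by
  have h1 := ((bk_diff hT m 0).continuous.tendsto w).comp h
  refine h1.congr fun i => ?_
  rw [bk_add, Nat.zero_add]
  rfl

theorem main (hW : Bed.S_Wei) (hL : S_TLi) (h : Trn dom Θ S T ν ρ R e A) (l : ℕ) :
    ∃ H : EE k → EE k, DifferentiableOn ℂ H {z | ν l z < R l} ∧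
      ∀ z, ν l z < R l → z ∈ dom l ∧ ‖H z - z‖ ≤ 1 / 4 ∧
        Tendsto (fun i => bk T i l (orbE Θ l i z)) atTop (𝓝 (H z)) := by
  have hopen : IsOpen {z : EE k | ν l z < R l} :=
    isOpen_lt (h.nu l).continuous continuous_const
  have hsub : {z : EE k | ν l z < R l} ⊆ dom l := fun z hz =>
    h.dom_of l z (le_of_lt hz)
  have hL' := fun z (hz : ν l z < R l) => hL k dom Θ S T ν ρ R e A h l z (le_of_lt hz)
  have hsum : Summable fun i : ℕ => ((1 : ℝ) / 2) ^ (l + i + 3) := by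
    have h1 : (fun i : ℕ => ((1 : ℝ) / 2) ^ (l + i + 3)) =
        fun i : ℕ => (1 / 2) ^ (l + 3) * (1 / 2) ^ i := by
      funext i
      rw [← pow_add]
      congr 1
      omega
    rw [h1]
    exact summable_geometric_two.mul_left _
  obtain ⟨H, hH, hlim, -, -⟩ := hW (EE k) (EE k) {z : EE k | ν l z < R l}
    (fun i z => bk T i l (orbE Θ l i z)) (fun i => (1 / 2) ^ (l + i + 3)) hopen
    (fun i => (bk_diff h.T_diff i l).comp_differentiableOn ((orb_diff h l i).mono hsub)) hsum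
    (fun i z hz => (hL' z hz).2.1 i)
  refine ⟨H, hH, fun z hz => ⟨hsub hz, ?_, hlim z hz⟩⟩
  have h1 : Tendsto (fun i => ‖bk T i l (orbE Θ l i z) - z‖) atTop (𝓝 ‖H z - z‖) :=
    ((hlim z hz).sub_const z).norm
  exact le_of_tendsto' h1 (hL' z hz).2.2

theorem ex_lim (hW : Bed.S_Wei) (hL : S_TLi) (h : Trn dom Θ S T ν ρ R e A) (l : ℕ) (z : EE k)
    (hz : z ∈ dom l) :
    ∃ w, Tendsto (fun i => bk T (l + i) 0 (orbE Θ l i z)) atTop (𝓝 w) := by
  obtain ⟨i₀, hi₀⟩ := (h.bdd l z hz).exists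
  obtain ⟨H, -, hH⟩ := main hW hL h (l + i₀)
  have h1 : ν (l + i₀) (orbE Θ l i₀ z) < R (l + i₀) := by
    have := h.R_ge (l + i₀)
    linarith
  have h2 := tend h.T_diff (l + i₀) _ _ (hH _ h1).2.2
  refine ⟨_, (tendsto_add_atTop_iff_nat i₀).1 (h2.congr fun j => ?_)⟩
  rw [← orbE_add, show l + (j + i₀) = l + i₀ + j by omega, Nat.add_comm i₀ j]

end sTPhAux

open sTPhAux in
/-- **TPh.** -/
theorem sTPh : S_TPh := by
  classical
  intro hW hL k dom Θ S T ν ρ R e A h
  choose w hw using fun l z hz => ex_lim hW hL h l z hz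
  refine ⟨fun l z => if hz : z ∈ dom l then w l z hz else 0, ?_, ?_⟩
  · intro l z hz
    rw [dif_pos hz]
    exact hw l z hz
  · intro l
    obtain ⟨H, hH, hH'⟩ := main hW hL h l
    refine ⟨H, hH, fun z hz => ?_⟩
    obtain ⟨h1, h2, h3⟩ := hH' z hz
    refine ⟨h1, h2, ?_⟩
    rw [dif_pos h1]
    exact tendsto_nhds_unique (hw l z h1) (tend h.T_diff l z _ h3)

end Pool.Agent.Lib.BedG
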