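import Pool.Agent.Lib.BedG.SpecL
import Pool.Agent.Lib.Osgood

/-!
# MP_6f050a_an, theorem G: second order Taylor expansion with uniform constants
-/

set_option autoImplicit false

open scoped Topology
open Set Filter Metric

namespace Pool.Agent.Lib.BedG

namespace sTayAux

variable {F : Type} [NormedAddCommGroup F] [NormedSpace ℂ F] [CompleteSpace F]

/-- a bound at the centre, by continuity -/
theorem at_zero {g : ℂ → F} {ρ b : ℝ} {k : ℕ} (hρ : 0 < ρ) (hg : DifferentiableOn ℂ g (ball 0 ρ))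
    (h : ∀ X ∈ ball (0 : ℂ) ρ, X ≠ 0 → ‖g X‖ ≤ b * ‖X‖ ^ k) : ‖g 0‖ ≤ b * ‖(0 : ℂ)‖ ^ k := by
  have h1 : ContinuousAt g 0 :=
    (hg.continuousOn).continuousAt (ball_mem_nhds _ hρ)
  have h2 : Tendsto (fun X => ‖g X‖) (𝓝[≠] (0 : ℂ)) (𝓝 ‖g 0‖) :=
    (h1.norm.tendsto).mono_left nhdsWithin_le_nhds
  have h3 : Tendsto (fun X : ℂ => b * ‖X‖ ^ k) (𝓝[≠] (0 : ℂ)) (𝓝 (b * ‖(0 : ℂ)‖ ^ k)) := by
    have : Continuous fun X : ℂ => b * ‖X‖ ^ k := by fun_prop
    exact this.continuousAt.tendsto.mono_left nhdsWithin_le_nhds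
  apply le_of_tendsto_of_tendsto h2 h3
  have h4 : ball (0 : ℂ) ρ ∈ 𝓝[≠] (0 : ℂ) := mem_nhdsWithin_of_mem_nhds (ball_mem_nhds _ hρ)
  filter_upwards [h4, self_mem_nhdsWithin] with X hX hX0
  exact h X hX hX0

/-- the second order expansion of a function of one variable -/
theorem one_var {φ : ℂ → F} {ρ b : ℝ} (hρ : 0 < ρ) (hφ : DifferentiableOn ℂ φ (ball 0 ρ))
    (hle : ∀ X ∈ ball (0 : ℂ) ρ, ‖φ X‖ ≤ b * ‖X‖ ^ 2) :
    ∃ ψ : ℂ → F, DifferentiableOn ℂ ψ (ball 0 ρ) ∧ (∀ X, φ X = X ^ 2 • ψ X) ∧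
      ∀ X ∈ ball (0 : ℂ) ρ, ‖ψ X - ψ 0‖ ≤ 2 * b / ρ * ‖X‖ := by
  have hnh : ball (0 : ℂ) ρ ∈ 𝓝 (0 : ℂ) := ball_mem_nhds _ hρ
  have h0m : (0 : ℂ) ∈ ball (0 : ℂ) ρ := mem_ball_self hρ
  have hφ0 : φ 0 = 0 := by
    have := hle 0 h0m
    rw [norm_zero] at this
    apply norm_eq_zero.1
    apply le_antisymm _ (norm_nonneg _)
    simpa using this
  have hd1 : DifferentiableOn ℂ (dslope φ 0) (ball 0 ρ) :=
    (Complex.differentiableOn_dslope hnh).2 hφ
  have he1 : ∀ X, X • dslope φ 0 X = φ X := by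
    intro X
    have := sub_smul_dslope φ 0 X
    rw [sub_zero, hφ0, sub_zero] at this
    exact this
  have hb1 : ∀ X ∈ ball (0 : ℂ) ρ, X ≠ 0 → ‖dslope φ 0 X‖ ≤ b * ‖X‖ ^ 1 := by
    intro X hX hX0
    have h1 := hle X hX
    rw [← he1 X, norm_smul] at h1
    have h2 : 0 < ‖X‖ := norm_pos_iff.2 hX0
    have h3 : ‖X‖ * ‖dslope φ 0 X‖ ≤ ‖X‖ * (b * ‖X‖ ^ 1) := by
      calc ‖X‖ * ‖dslope φ 0 X‖ ≤ b * ‖X‖ ^ 2 := h1
        _ = _ := by ring
    exact le_of_mul_le_mul_left h3 h2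
  have hz1 : dslope φ 0 0 = 0 := by
    have := at_zero hρ hd1 hb1
    apply norm_eq_zero.1
    apply le_antisymm _ (norm_nonneg _)
    simpa using this
  have hd2 : DifferentiableOn ℂ (dslope (dslope φ 0) 0) (ball 0 ρ) :=
    (Complex.differentiableOn_dslope hnh).2 hd1
  have he2 : ∀ X, X • dslope (dslope φ 0) 0 X = dslope φ 0 X := by
    intro X
    have := sub_smul_dslope (dslope φ 0) 0 X
    rw [sub_zero, hz1, sub_zero] at this
    exact this
  have hb2 : ∀ X ∈ ball (0 : ℂ) ρ, X ≠ 0 → ‖dslope (dslope φ 0) 0 X‖ ≤ b * ‖X‖ ^ 0 := by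
    intro X hX hX0
    have h1 := hb1 X hX hX0
    rw [← he2 X, norm_smul] at h1
    have h2 : 0 < ‖X‖ := norm_pos_iff.2 hX0
    have h3 : ‖X‖ * ‖dslope (dslope φ 0) 0 X‖ ≤ ‖X‖ * (b * ‖X‖ ^ 0) := by
      calc ‖X‖ * ‖dslope (dslope φ 0) 0 X‖ ≤ b * ‖X‖ ^ 1 := h1
        _ = _ := by ring
    exact le_of_mul_le_mul_left h3 h2
  have hb3 : ∀ X ∈ ball (0 : ℂ) ρ, ‖dslope (dslope φ 0) 0 X‖ ≤ b := by
    intro X hX
    by_cases hX0 : X = 0
    · subst hX0
      have := at_zero hρ hd2 hb2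
      simpa using this
    · simpa using hb2 X hX hX0
  refine ⟨dslope (dslope φ 0) 0, hd2, fun X => ?_, fun X hX => ?_⟩
  · rw [← he1 X, ← he2 X, smul_smul, sq]
  · have hm : MapsTo (dslope (dslope φ 0) 0) (ball 0 ρ)
        (closedBall (dslope (dslope φ 0) 0 0) (2 * b)) := by
      intro Y hY
      rw [mem_closedBall, dist_eq_norm]
      refine (norm_sub_le _ _).trans ?_
      have h1 := hb3 Y hY
      have h2 := hb3 0 h0m
      linarith
    have h1 := Complex.dist_le_div_mul_dist_of_mapsTo_ball hd2 hm hX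
    rw [dist_eq_norm, dist_zero_right] at h1
    exact h1

/-- identification of the coefficient -/
theorem coef {φ ψ G : ℂ → F} {ρ : ℝ} {a : F} (hρ : 0 < ρ) (hψ : DifferentiableOn ℂ ψ (ball 0 ρ))
    (he : ∀ X, φ X = X ^ 2 • ψ X) (hG : ∀ X ∈ ball (0 : ℂ) ρ, HasDerivAt φ (G X) X)
    (ha : HasDerivAt G a 0) : a = (2 : ℂ) • ψ 0 := by
  have hnh : ball (0 : ℂ) ρ ∈ 𝓝 (0 : ℂ) := ball_mem_nhds _ hρ
  have hψ' : DifferentiableOn ℂ (deriv ψ) (ball 0 ρ) := hψ.deriv isOpen_ball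
  have h1 : ∀ X ∈ ball (0 : ℂ) ρ, G X = (2 * X) • ψ X + X ^ 2 • deriv ψ X := by
    intro X hX
    have hp : HasDerivAt ψ (deriv ψ X) X :=
      ((hψ X hX).differentiableAt (isOpen_ball.mem_nhds hX)).hasDerivAt
    have hx : HasDerivAt (fun Y : ℂ => Y ^ 2) (2 * X) X := by
      simpa using hasDerivAt_pow 2 X
    have h2 : HasDerivAt (fun Y : ℂ => Y ^ 2 • ψ Y) (X ^ 2 • deriv ψ X + (2 * X) • ψ X) X :=
      hx.fun_smul hp
    have h3 : HasDerivAt φ (X ^ 2 • deriv ψ X + (2 * X) • ψ X) X := by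
      have : φ = fun Y : ℂ => Y ^ 2 • ψ Y := funext he
      rw [this]
      exact h2
    rw [(hG X hX).unique h3, add_comm]
  have h0m : (0 : ℂ) ∈ ball (0 : ℂ) ρ := mem_ball_self hρ
  have hp : HasDerivAt ψ (deriv ψ 0) 0 :=
    ((hψ 0 h0m).differentiableAt hnh).hasDerivAt
  have hp' : HasDerivAt (deriv ψ) (deriv (deriv ψ) 0) 0 :=
    ((hψ' 0 h0m).differentiableAt hnh).hasDerivAt
  have hx1 : HasDerivAt (fun Y : ℂ => 2 * Y) 2 0 := by
    simpa using (hasDerivAt_id (0 : ℂ)).const_mul 2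
  have hx2 : HasDerivAt (fun Y : ℂ => Y ^ 2) 0 0 := by
    simpa using hasDerivAt_pow 2 (0 : ℂ)
  have h4 : HasDerivAt (fun Y : ℂ => (2 * Y) • ψ Y + Y ^ 2 • deriv ψ Y)
      (((2 * (0 : ℂ)) • deriv ψ 0 + (2 : ℂ) • ψ 0) +
        (((0 : ℂ) ^ 2) • deriv (deriv ψ) 0 + (0 : ℂ) • deriv ψ 0)) 0 :=
    (hx1.fun_smul hp).fun_add (hx2.fun_smul hp')
  have h5 : HasDerivAt G (((2 * (0 : ℂ)) • deriv ψ 0 + (2 : ℂ) • ψ 0) +
        (((0 : ℂ) ^ 2) • deriv (deriv ψ) 0 + (0 : ℂ) • deriv ψ 0)) 0 := by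
    apply h4.congr_of_eventuallyEq
    filter_upwards [hnh] with X hX
    exact h1 X hX
  rw [ha.unique h5]
  simp

end sTayAux

open sTayAux in
theorem sTay : S_Tay := by
  intro k r C₀ h hr hC hd h0 hq
  have hnh : ball (0 : EE k) r ∈ 𝓝 (0 : EE k) := ball_mem_nhds _ hr
  have h0m : (0 : EE k) ∈ ball (0 : EE k) r := mem_ball_self hr
  have hg : DifferentiableOn ℂ (fderiv ℂ h) (ball 0 r) :=
    Pool.Agent.Lib.Osgood.differentiableOn_fderiv isOpen_ball hd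
  have hgb : ∀ z ∈ ball (0 : EE k) r, ‖fderiv ℂ h z‖ ≤ 2 * C₀ * ‖z‖ := by
    intro z hz
    apply le_of_forall_pos_le_add
    intro η hη
    have hz' : HasFDerivAt h (fderiv ℂ h z) z :=
      ((hd z hz).differentiableAt (isOpen_ball.mem_nhds hz)).hasFDerivAt
    apply hz'.le_of_lip' (by positivity)
    have h1 : ball z (η / C₀) ∈ 𝓝 z := ball_mem_nhds _ (by positivity)
    filter_upwards [h1, isOpen_ball.mem_nhds hz] with x hx hx'
    have h2 := hq x hx' z hz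
    refine h2.trans ?_
    apply mul_le_mul_of_nonneg_right _ (norm_nonneg _)
    have h3 : ‖x‖ ≤ ‖z‖ + η / C₀ := by
      have h4 : ‖x‖ ≤ ‖z‖ + ‖x - z‖ := by
        have := norm_add_le z (x - z)
        simpa using this
      have h5 : ‖x - z‖ < η / C₀ := by
        rw [← dist_eq_norm]; exact hx
      linarith
    calc C₀ * (‖x‖ + ‖z‖) ≤ C₀ * ((‖z‖ + η / C₀) + ‖z‖) := by
          apply mul_le_mul_of_nonneg_left _ hC.le
          linarith
      _ = 2 * C₀ * ‖z‖ + η := by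
          field_simp
          ring
  have hg0 : fderiv ℂ h 0 = 0 := by
    have := hgb 0 h0m
    rw [norm_zero, mul_zero] at this
    exact norm_le_zero_iff.1 this
  have hA : HasFDerivAt (fderiv ℂ h) (fderiv ℂ (fderiv ℂ h) 0) 0 :=
    ((hg 0 h0m).differentiableAt hnh).hasFDerivAt
  have hAn : ‖fderiv ℂ (fderiv ℂ h) 0‖ ≤ 2 * C₀ := by
    apply hA.le_of_lip' (by positivity)
    filter_upwards [hnh] with x hx
    rw [hg0, sub_zero, sub_zero]
    exact hgb x hx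
  refine ⟨(1 / 2 : ℂ) • fderiv ℂ (fderiv ℂ h) 0, fun p q => ?_, fun z hz => ?_⟩
  · rw [ContinuousLinearMap.smul_apply, ContinuousLinearMap.smul_apply, norm_smul]
    have h1 := (fderiv ℂ (fderiv ℂ h) 0).le_opNorm₂ p q
    have h2 : ‖(1 / 2 : ℂ)‖ = 1 / 2 := by norm_num
    rw [h2]
    have h3 : ‖fderiv ℂ (fderiv ℂ h) 0‖ * ‖p‖ * ‖q‖ ≤ 2 * C₀ * ‖p‖ * ‖q‖ := by
      gcongr
    linarith
  · rcases eq_or_ne z 0 with rfl | hz0
    · rw [h0]
      simp
    · have hzp : 0 < ‖z‖ := norm_pos_iff.2 hz0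
      have hzr : ‖z‖ < r := by simpa using hz
      have hρ : 0 < r / ‖z‖ := by positivity
      have hmem : ∀ X ∈ ball (0 : ℂ) (r / ‖z‖), X • z ∈ ball (0 : EE k) r := by
        intro X hX
        rw [mem_ball_zero_iff] at hX ⊢
        rw [norm_smul]
        exact (lt_div_iff₀ hzp).1 hX
      have hφd : ∀ X ∈ ball (0 : ℂ) (r / ‖z‖),
          HasDerivAt (fun X : ℂ => h (X • z)) (fderiv ℂ h (X • z) z) X := by
        intro X hX
        have h1 : HasFDerivAt h (fderiv ℂ h (X • z)) (X • z) :=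
          ((hd _ (hmem X hX)).differentiableAt (isOpen_ball.mem_nhds (hmem X hX))).hasFDerivAt
        have h2 : HasDerivAt (fun X : ℂ => X • z) z X := by
          simpa using (hasDerivAt_id X).smul_const z
        exact h1.comp_hasDerivAt X h2
      have hφ : DifferentiableOn ℂ (fun X : ℂ => h (X • z)) (ball 0 (r / ‖z‖)) :=
        fun X hX => (hφd X hX).differentiableAt.differentiableWithinAt
      have hle : ∀ X ∈ ball (0 : ℂ) (r / ‖z‖), ‖h (X • z)‖ ≤ (C₀ * ‖z‖ ^ 2) * ‖X‖ ^ 2 := by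
        intro X hX
        have h1 := hq _ (hmem X hX) 0 h0m
        rw [h0, sub_zero, sub_zero, norm_zero, add_zero, norm_smul] at h1
        calc ‖h (X • z)‖ ≤ _ := h1
          _ = _ := by ring
      obtain ⟨ψ, hψd, hψe, hψl⟩ := one_var hρ hφ hle
      have hGd : HasDerivAt (fun X : ℂ => fderiv ℂ h (X • z) z)
          (fderiv ℂ (fderiv ℂ h) 0 z z) 0 := by
        have h2 : HasDerivAt (fun X : ℂ => X • z) z 0 := by
          simpa using (hasDerivAt_id (0 : ℂ)).smul_const z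
        have h3 : HasFDerivAt (fderiv ℂ h) (fderiv ℂ (fderiv ℂ h) 0) ((0 : ℂ) • z) := by
          rw [zero_smul]; exact hA
        have h4 : HasDerivAt (fun X : ℂ => fderiv ℂ h (X • z)) (fderiv ℂ (fderiv ℂ h) 0 z) 0 :=
          h3.comp_hasDerivAt 0 h2
        have h5 := h4.clm_apply (hasDerivAt_const (0 : ℂ) z)
        simpa using h5
      have hco := coef hρ hψd hψe hφd hGd
      have h1m : (1 : ℂ) ∈ ball (0 : ℂ) (r / ‖z‖) := by
        rw [mem_ball_zero_iff, norm_one]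
        exact (one_lt_div hzp).2 hzr
      have hB : ((1 / 2 : ℂ) • fderiv ℂ (fderiv ℂ h) 0) z z = ψ 0 := by
        rw [ContinuousLinearMap.smul_apply, ContinuousLinearMap.smul_apply, hco, smul_smul]
        norm_num
      have h1 := hψe 1
      rw [one_smul, one_pow, one_smul] at h1
      rw [hB, h1]
      refine (hψl 1 h1m).trans ?_
      rw [norm_one, mul_one]
      have e1 : 2 * (C₀ * ‖z‖ ^ 2) / (r / ‖z‖) = 2 * C₀ / r * ‖z‖ ^ 3 := by
        field_simp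
      rw [e1]
      have e2 : 2 * C₀ / r ≤ 32 * C₀ / r := by
        gcongr
        norm_num
      exact mul_le_mul_of_nonneg_right e2 (by positivity)

end Pool.Agent.Lib.BedG
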