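import Pool.Agent.Lib.BedG.SpecR

/-!
# MP_6f050a_an, theorem G: the maps of the blocks
-/

set_option autoImplicit false

open scoped Topology
open Set Filter Metric

namespace Pool.Agent.Lib.BedG

theorem sTh : S_Th := by
  intro hOrb k ε ℓ r C₀ f L h t n
  have hD : ∀ (j : ℕ) (z : EE k), z ∈ Dom r L j ↔ La L j z ∈ ball (0 : EE k) r := by
    intro j z
    rw [mem_ball_zero_iff]
    rfl
  have hmt : ∀ j, MapsTo (La L j) (Dom r L j) (ball (0 : EE k) r) :=
    fun j z hz => (hD j z).1 hz
  have hop : ∀ j, IsOpen (Dom r L j) := by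
    intro j
    exact isOpen_lt ((La L j).continuous.norm) continuous_const
  have hLd : ∀ j, Differentiable ℂ (La L j) := fun j => (La L j).differentiable
  obtain ⟨h1, h2, h3, h4, -⟩ := hOrb k ε ℓ r C₀ f L h t n
  refine ⟨hop t, ?_, fun z hz => ?_, fun z hz w hw hzw => ?_, fun z hz w hw => ?_⟩
  · have e1 : DifferentiableOn ℂ (fun z => orbE f t n (La L t z))
        (Dom r L t) := h1.comp (hLd t).differentiableOn (hmt t)
    exact (La L (t + n)).symm.differentiable.comp_differentiableOn e1
  · rw [hD, Th, ContinuousLinearEquiv.apply_symm_apply]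
    exact h2 (hmt t hz)
  · have e1 := (La L (t + n)).symm.injective hzw
    exact (La L t).injective (h3 (hmt t hz) (hmt t hw) e1)
  · have e1 : HasFDerivAt (La L t) (La L t : EE k →L[ℂ] EE k) z :=
      (La L t).hasFDerivAt
    have e2 : HasFDerivAt (orbE f t n)
        (fderiv ℂ (orbE f t n) (La L t z)) (La L t z) :=
      (h1.differentiableAt (isOpen_ball.mem_nhds (hmt t hz))).hasFDerivAt
    have e3 := (La L (t + n)).symm.hasFDerivAt.comp z (e2.comp z e1)
    have e4 : fderiv ℂ (Th L f t n) z w = (La L (t + n)).symm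
        (fderiv ℂ (orbE f t n) (La L t z) (La L t w)) := by
      rw [show fderiv ℂ (Th L f t n) z = _ from e3.fderiv]
      rfl
    rw [e4] at hw
    have e5 := (La L (t + n)).symm.map_eq_zero_iff.1 hw
    have e6 := h4 _ (hmt t hz) _ e5
    exact (La L t).map_eq_zero_iff.1 e6

end Pool.Agent.Lib.BedG
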