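import Pool.Agent.Lib.BedG.SpecL

/-!
# Triangular maps are automorphisms
-/

set_option autoImplicit false

open scoped Topology
open Set Filter Metric

namespace Pool.Agent.Lib.BedG

namespace sTrIAux

variable {k : ℕ} (e : Fin k → EE k) (c : Fin k → EE k →L[ℂ] ℂ)

/-- Coordinates of a combination of the vectors of the basis. -/
theorem coord (hd : ∀ i j, c i (e j) = if i = j then 1 else 0) (d : Fin k → ℂ) (j : Fin k) :
    c j (∑ i, d i • e i) = d j := by
  rw [map_sum, Finset.sum_eq_single j]
  · rw [map_smul, hd, if_pos rfl, smul_eq_mul, mul_one]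
  · intro i _ hi
    rw [map_smul, hd, if_neg (Ne.symm hi), smul_zero]
  · intro h
    exact absurd (Finset.mem_univ j) h

/-- The first `i` coordinates agree. -/
def Agr (i : ℕ) (w w' : EE k) : Prop := ∀ j : Fin k, j.val < i → c j w = c j w'

theorem Agr.Pj {i : ℕ} {w w' : EE k} (h : Agr c i w w') {j : ℕ} (hj : j ≤ i) :
    Pj e c j w = Pj e c j w' := by
  unfold BedG.Pj
  refine Finset.sum_congr rfl fun l _ => ?_
  by_cases hl : l.val < j
  · rw [if_pos hl, if_pos hl, h l (by omega)]
  · rw [if_neg hl, if_neg hl]

theorem Agr.step (hd : ∀ i j, c i (e j) = if i = j then 1 else 0) (Q : EE k → EE k) (z : EE k)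
    {i : ℕ} {w w' : EE k} (h : Agr c i w w') :
    Agr c (i + 1) (z - Tri e c Q w) (z - Tri e c Q w') := by
  intro j hj
  rw [map_sub, map_sub]
  unfold Tri
  rw [coord e c hd, coord e c hd, h.Pj e c (Nat.lt_succ_iff.1 hj)]

theorem agr_iterate (hd : ∀ i j, c i (e j) = if i = j then 1 else 0) (Q : EE k → EE k) (z : EE k)
    (w w' : EE k) (i : ℕ) :
    Agr c i ((fun w => z - Tri e c Q w)^[i] w) ((fun w => z - Tri e c Q w)^[i] w') := by
  induction i with
  | zero =>
    intro j hj
    exact absurd hj (Nat.not_lt_zero _)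
  | succ i ih =>
    rw [Function.iterate_succ_apply', Function.iterate_succ_apply']
    exact Agr.step e c hd Q z ih

theorem iterate_const (he : ∀ z, ∑ i, c i z • e i = z)
    (hd : ∀ i j, c i (e j) = if i = j then 1 else 0) (Q : EE k → EE k) (z : EE k)
    (w w' : EE k) : (fun w => z - Tri e c Q w)^[k] w = (fun w => z - Tri e c Q w)^[k] w' := by
  rw [← he ((fun w => z - Tri e c Q w)^[k] w), ← he ((fun w => z - Tri e c Q w)^[k] w')]
  refine Finset.sum_congr rfl fun j _ => ?_
  rw [agr_iterate e c hd Q z w w' k j j.isLt]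

theorem differentiable_Tri {Q : EE k → EE k} (hQ : Differentiable ℂ Q) :
    Differentiable ℂ (Tri e c Q) := by
  unfold Tri
  refine Differentiable.fun_sum fun i _ => ?_
  exact ((c i).differentiable.comp (hQ.comp (differentiable_Pj e c i.val))).smul_const (e i)

theorem differentiable_iterate {Q : EE k → EE k} (hQ : Differentiable ℂ Q) (n : ℕ) :
    Differentiable ℂ fun z : EE k => (fun w => z - Tri e c Q w)^[n] 0 := by
  induction n with
  | zero => exact differentiable_const _
  | succ n ih =>
    have h : (fun z : EE k => (fun w => z - Tri e c Q w)^[n + 1] 0) =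
        fun z : EE k => z - Tri e c Q ((fun w => z - Tri e c Q w)^[n] 0) := by
      funext z
      rw [Function.iterate_succ_apply']
    rw [h]
    exact differentiable_id.sub ((differentiable_Tri e c hQ).comp ih)

end sTrIAux

theorem sTrI : S_TrI := by
  intro k e c he hd Q hQ
  refine ⟨sTrIAux.differentiable_Tri e c hQ, sTrIAux.differentiable_iterate e c hQ k, ?_, ?_⟩
  · intro z
    set F : EE k → EE k := fun w => z - Tri e c Q w with hF
    have h1 : F (TriI e c Q z) = TriI e c Q z := by
      change F (F^[k] 0) = F^[k] 0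
      rw [← Function.iterate_succ_apply' F k 0, Function.iterate_succ_apply F k 0]
      exact sTrIAux.iterate_const e c he hd Q z _ _
    have h2 : z - Tri e c Q (TriI e c Q z) = TriI e c Q z := h1
    nth_rewrite 1 [← h2]
    exact sub_add_cancel _ _
  · intro z
    set G : EE k → EE k := fun w => (z + Tri e c Q z) - Tri e c Q w with hG
    have h1 : G z = z := add_sub_cancel_right _ _
    have h2 : G^[k] z = z := Function.iterate_fixed h1 k
    change G^[k] 0 = z
    exact (sTrIAux.iterate_const e c he hd Q (z + Tri e c Q z) 0 z).trans h2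

end Pool.Agent.Lib.BedG
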