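import Pool.Agent.Lib.BedG.SpecN

/-!
# MP_6f050a_an, theorem G, UD: the difference of the `D`-terms
-/

set_option autoImplicit false

open scoped Topology
open Set Filter Metric

namespace Pool.Agent.Lib.BedG

namespace sUDAux

theorem rho_sum_le {k : ℕ} (ε ℓ : ℝ) (L : ℕ → EE k ≃L[ℂ] EE k) (t : ℕ) (n : ℕ) (g : ℕ → EE k)
    (b : ℝ) (h : ∀ j, j < n → rho ε ℓ L t (g j) ≤ b) :
    rho ε ℓ L t (∑ j ∈ Finset.range n, g j) ≤ n * b := by
  induction n with
  | zero =>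
    rw [Finset.sum_range_zero, Nat.cast_zero, zero_mul, rho_le_iff]
    intro m _
    simp [Nm_zero]
  | succ n ih =>
    rw [Finset.sum_range_succ]
    have h1 := ih fun j hj => h j (by omega)
    have h2 := h n (by omega)
    have h3 := rho_add_le ε ℓ L t (∑ j ∈ Finset.range n, g j) (g n)
    push_cast
    linarith

end sUDAux

theorem sUD : S_UD := by
  intro k ε ℓ C κ L B hL hC a t n e c hD R w u hR hw hu
  have hcB : 1 ≤ cB ε ℓ C := one_le_cB hC hL.ε_pos.le hL.ℓ_pos.le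
  have hcD : 0 ≤ cD k ε ℓ C := by
    unfold cD
    positivity
  have hN0 : 0 ≤ Nm ℓ L a u := Nm_nonneg ℓ L a u
  have hNw : 0 ≤ Nm ℓ L a w := Nm_nonneg ℓ L a w
  set E : ℝ := cD k ε ℓ C * Real.exp (-(κ * ℓ * t)) with hE
  have hE0 : 0 ≤ E := by positivity
  rw [DD_diff]
  have h1 : ∀ j, j < n → rho ε ℓ L (t + n)
      (Dm L B e c (t + j) w u + Dm L B e c (t + j) u w + Dm L B e c (t + j) u u) ≤
      3 * (E * (R * Nm ℓ L a u)) := by
    intro j hj
    have hm1 : t ≤ t + j := by omega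
    have hm2 : t + j < t + n := by omega
    have a1 := hD (t + j) hm1 hm2 w u
    have a2 := hD (t + j) hm1 hm2 u w
    have a3 := hD (t + j) hm1 hm2 u u
    have b1 : E * (Nm ℓ L a w * Nm ℓ L a u) ≤ E * (R * Nm ℓ L a u) :=
      mul_le_mul_of_nonneg_left (mul_le_mul_of_nonneg_right hw hN0) hE0
    have b2 : E * (Nm ℓ L a u * Nm ℓ L a w) ≤ E * (R * Nm ℓ L a u) := by
      rw [mul_comm (Nm ℓ L a u)]
      exact b1
    have b3 : E * (Nm ℓ L a u * Nm ℓ L a u) ≤ E * (R * Nm ℓ L a u) :=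
      mul_le_mul_of_nonneg_left (mul_le_mul_of_nonneg_right hu hN0) hE0
    have c1 := rho_add_le ε ℓ L (t + n) (Dm L B e c (t + j) w u + Dm L B e c (t + j) u w)
      (Dm L B e c (t + j) u u)
    have c2 := rho_add_le ε ℓ L (t + n) (Dm L B e c (t + j) w u) (Dm L B e c (t + j) u w)
    linarith
  have h2 := sUDAux.rho_sum_le ε ℓ L (t + n) n _ _ h1
  refine h2.trans ?_
  have h3 : 0 ≤ E * (R * Nm ℓ L a u) := by positivity
  have h4 : (n : ℝ) * (3 * (E * (R * Nm ℓ L a u))) ≤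
      ((t : ℝ) + n) * (3 * (E * (R * Nm ℓ L a u))) := by
    refine mul_le_mul_of_nonneg_right ?_ (by positivity)
    have : (0 : ℝ) ≤ t := Nat.cast_nonneg t
    linarith
  refine h4.trans (le_of_eq ?_)
  rw [hE]
  ring

end Pool.Agent.Lib.BedG
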