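import Pool.Agent.Lib.BedG.SpecN

/-!
# MP_6f050a_an, theorem G, UI: the pull-back of an error
-/

set_option autoImplicit false

open scoped Topology
open Set Filter Metric

namespace Pool.Agent.Lib.BedG

theorem sUI : S_UI := by
  intro hUP hTrI hUQ hUD k ε ℓ C
  obtain ⟨C', hC', hup⟩ := hUP hUQ hUD k ε ℓ C
  refine ⟨C', hC', ?_⟩
  intro L B hL hC hB κ a t s n e c hblk hexp hdual hD R hR hsm w ζ hw hζ
  obtain ⟨-, hT, hST, hTS⟩ := hTrI k e c hexp hdual (QQ L B t n) (differentiable_QQ B L t n)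
  have hTc : Continuous (Tb L B e c t n) := hT.continuous
  have hST' : ∀ z, Sb L B e c t n (Tb L B e c t n z) = z := hST
  have hTS' : ∀ z, Tb L B e c t n (Sb L B e c t n z) = z := hTS
  have hR1 : 1 ≤ R := by linarith
  have hA : 0 ≤ C' * ((t : ℝ) + n) * R := by positivity
  have key : ∀ u ζ', Nm ℓ L a u ≤ R → Sb L B e c t n (w + u) = Sb L B e c t n w + ζ' →
      rho ε ℓ L t u ≤ C' * ((t : ℝ) + n) * R * rho ε ℓ L (t + n) ζ' :=
    fun u ζ' hu h => hup L B hL hC hB κ a t s n e c hblk hexp hD R hR1 hsm w u ζ' hw hu h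
  let u : ℝ → EE k := fun θ => Tb L B e c t n (Sb L B e c t n w + (θ : ℂ) • ζ) - w
  have huc : Continuous u := by
    refine (hTc.comp (continuous_const.add ?_)).sub continuous_const
    exact Complex.continuous_ofReal.smul continuous_const
  have hu0 : u 0 = 0 := by simp [u, hTS']
  have hSu : ∀ θ : ℝ, Sb L B e c t n (w + u θ) = Sb L B e c t n w + (θ : ℂ) • ζ := by
    intro θ
    simp only [u]
    rw [add_sub_cancel, hST']
  let φ : ℝ → ℝ := fun θ => Nm ℓ L a (u θ)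
  have hφc : Continuous φ := (continuous_Nm ℓ L a).comp huc
  have hφ1 : ∀ θ ∈ Icc (0 : ℝ) 1, φ θ ≤ R → φ θ ≤ 1 := by
    intro θ hθ h
    have h1 := key (u θ) ((θ : ℂ) • ζ) h (hSu θ)
    have h2 : φ θ ≤ rho ε ℓ L t (u θ) :=
      Nm_le_rho hL.ε_pos.le hL.ℓ_pos.le hblk.a_le_t (u θ)
    have h3 : rho ε ℓ L (t + n) ((θ : ℂ) • ζ) ≤ rho ε ℓ L (t + n) ζ := by
      refine (rho_smul ε ℓ L (t + n) (θ : ℂ) ζ).trans ?_
      have h4 : ‖(θ : ℂ)‖ ≤ 1 := by
        rw [Complex.norm_real, Real.norm_eq_abs, abs_of_nonneg hθ.1]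
        exact hθ.2
      exact mul_le_of_le_one_left (rho_nonneg ε ℓ L (t + n) ζ) h4
    calc φ θ ≤ rho ε ℓ L t (u θ) := h2
      _ ≤ _ := h1
      _ ≤ C' * ((t : ℝ) + n) * R * rho ε ℓ L (t + n) ζ := mul_le_mul_of_nonneg_left h3 hA
      _ ≤ 1 := hζ
  have hφR : φ 1 ≤ R := by
    by_contra hcon
    push Not at hcon
    have hφ0 : φ 0 = 0 := by simp [φ, hu0, Nm_zero]
    have h2 : (2 : ℝ) ∈ Icc (φ 0) (φ 1) := ⟨by rw [hφ0]; norm_num, by linarith⟩
    obtain ⟨θ, hθ, hθ2⟩ := intermediate_value_Icc zero_le_one hφc.continuousOn h2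
    have h5 := hφ1 θ hθ (by rw [hθ2]; exact hR)
    linarith
  have h1 := key (u 1) ζ hφR (by simpa using hSu 1)
  simpa [u] using h1

end Pool.Agent.Lib.BedG
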