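import Pool.Agent.Lib.BedG.SpecN
import Pool.Agent.Lib.BedG.Basic

/-!
# The pull-back of an error, with an a priori bound
-/

set_option autoImplicit false

open scoped Topology
open Set Filter Metric

namespace Pool.Agent.Lib.BedG

namespace sUPAux

/-- the numerical part -/
theorem num (c₀ N R E z p q : ℝ) (hc : 1 ≤ c₀) (hN : 1 ≤ N) (hR : 1 ≤ R) (hE : 0 < E)
    (hz : 0 ≤ z) (hp : 0 ≤ p) (hq : 0 ≤ q)
    (h : (1 + 16 * c₀ ^ 2) * N ^ 2 * R ^ 2 * E ≤ 1)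
    (h1 : q ≤ z + c₀ * N * R * E * q + c₀ * N * R * E * p)
    (h2 : p ≤ z + c₀ * N * R * q + c₀ * N * R * E * p) :
    p ≤ (1 + 16 * c₀ ^ 2) * N * R * z := by
  set b := c₀ * N * R with hb
  set δ := b * E with hδ
  have hNR : 1 ≤ N * R := by nlinarith
  have hb1 : 1 ≤ b := by
    rw [hb, mul_assoc]
    nlinarith
  have hδ0 : 0 < δ := mul_pos (by linarith) hE
  have hδb : δ * b ≤ 1 / 16 := by
    have e1 : 16 * (δ * b) = 16 * c₀ ^ 2 * N ^ 2 * R ^ 2 * E := by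
      rw [hδ, hb]; ring
    have e2 : 0 ≤ N ^ 2 * R ^ 2 * E := by positivity
    nlinarith
  have hδ1 : δ ≤ 1 / 16 := by nlinarith
  have h3 : q ≤ 2 * z + 2 * δ * p := by nlinarith [mul_nonneg hδ0.le hq, mul_nonneg hδ0.le hp]
  have h4 : b * q ≤ b * (2 * z + 2 * δ * p) := mul_le_mul_of_nonneg_left h3 (by linarith)
  have h5 : b * (2 * z + 2 * δ * p) = 2 * b * z + 2 * (δ * b) * p := by ring
  have h6 : (δ * b) * p ≤ 1 / 16 * p := mul_le_mul_of_nonneg_right hδb hp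
  have h7 : δ * p ≤ 1 / 16 * p := mul_le_mul_of_nonneg_right hδ1 hp
  have h8 : z ≤ b * z := le_mul_of_one_le_left hz hb1
  have h9 : p ≤ 8 * b * z := by nlinarith
  refine h9.trans ?_
  have e3 : 8 * b * z = 8 * c₀ * (N * R * z) := by rw [hb]; ring
  have e4 : (1 + 16 * c₀ ^ 2) * N * R * z = (1 + 16 * c₀ ^ 2) * (N * R * z) := by ring
  rw [e3, e4]
  refine mul_le_mul_of_nonneg_right ?_ (by positivity)
  nlinarith

end sUPAux

theorem sUP : S_UP := by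
  intro hUQ hUD k ε ℓ C
  refine ⟨1 + 16 * (3 * cB ε ℓ C + 3 * cD k ε ℓ C) ^ 2, by
    have := sq_nonneg (3 * cB ε ℓ C + 3 * cD k ε ℓ C)
    linarith, ?_⟩
  intro L B hP hC hB κ a t s n e c hblk hexp hD R hR hsm w u ζ hw hu hS
  have hcB : 1 ≤ cB ε ℓ C := one_le_cB hC hP.ε_pos.le hP.ℓ_pos.le
  have hcD : 0 ≤ cD k ε ℓ C := by
    unfold cD
    have : 0 ≤ cB ε ℓ C := by linarith
    positivity
  set c₀ := 3 * cB ε ℓ C + 3 * cD k ε ℓ C with hc₀
  set E := Real.exp (-(κ * ℓ * t)) with hE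
  set N := (t : ℝ) + n with hN
  have hN1 : 1 ≤ N := by
    have h1 : (1 : ℝ) ≤ t := by exact_mod_cast hblk.one_le
    have h2 : (0 : ℝ) ≤ n := Nat.cast_nonneg n
    linarith
  have hE0 : 0 < E := Real.exp_pos _
  obtain ⟨q1, q2⟩ := hUQ k ε ℓ C L B hP hC hB κ a t s n hblk R w u hR hw hu
  have d1 := hUD k ε ℓ C κ L B hP hC a t n e c hD R w u hR hw hu
  set ΔQ := QQ L B t n (w + u) - QQ L B t n w with hΔQ
  set ΔD := DD L B e c t n (w + u) - DD L B e c t n w with hΔD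
  have hu2 : u = ζ + (-ΔQ) + ΔD := by
    rw [Sb_eq B e c hexp, Sb_eq B e c hexp] at hS
    have h1 : ζ = (w + u + QQ L B t n (w + u) - DD L B e c t n (w + u)) -
        (w + QQ L B t n w - DD L B e c t n w) := by
      rw [hS]; abel
    rw [h1, hΔQ, hΔD]
    abel
  set q := sg ε ℓ L t n u with hq
  set p := rho ε ℓ L t u with hp
  set z := rho ε ℓ L (t + n) ζ with hz
  have hq0 : 0 ≤ q := sg_nonneg _ _ _ _ _ _
  have hp0 : 0 ≤ p := rho_nonneg _ _ _ _ _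
  have hz0 : 0 ≤ z := rho_nonneg _ _ _ _ _
  have hNau : Nm ℓ L a u ≤ p := Nm_le_rho hP.ε_pos.le hP.ℓ_pos.le hblk.a_le_t u
  have hNau0 : 0 ≤ Nm ℓ L a u := Nm_nonneg _ _ _ _
  have hR0 : 0 < R := by linarith
  have hN0 : 0 < N := by linarith
  -- the estimate of the D terms
  have hDp : rho ε ℓ L (t + n) ΔD ≤ c₀ * N * R * E * p := by
    refine d1.trans ?_
    have e1 : 3 * cD k ε ℓ C * N * R * E * Nm ℓ L a u ≤ 3 * cD k ε ℓ C * N * R * E * p :=
      mul_le_mul_of_nonneg_left hNau (by positivity)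
    refine e1.trans ?_
    have e2 : 0 ≤ N * R * E * p := by positivity
    have e3 : c₀ * N * R * E * p - 3 * cD k ε ℓ C * N * R * E * p =
        3 * cB ε ℓ C * (N * R * E * p) := by rw [hc₀]; ring
    have e4 : 0 ≤ 3 * cB ε ℓ C * (N * R * E * p) := mul_nonneg (by linarith) e2
    linarith
  have hQs : sg ε ℓ L t n ΔQ ≤ c₀ * N * R * E * q := by
    refine q1.trans ?_
    have e2 : 0 ≤ N * R * E * q := by positivity
    have e3 : c₀ * N * R * E * q - 3 * cB ε ℓ C * N * R * E * q =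
        3 * cD k ε ℓ C * (N * R * E * q) := by rw [hc₀]; ring
    have e4 : 0 ≤ 3 * cD k ε ℓ C * (N * R * E * q) := mul_nonneg (by positivity) e2
    linarith
  have hQr : rho ε ℓ L t ΔQ ≤ c₀ * N * R * q := by
    refine q2.trans ?_
    have e2 : 0 ≤ N * R * q := by positivity
    have e3 : c₀ * N * R * q - 3 * cB ε ℓ C * N * R * q =
        3 * cD k ε ℓ C * (N * R * q) := by rw [hc₀]; ring
    have e4 : 0 ≤ 3 * cD k ε ℓ C * (N * R * q) := mul_nonneg (by positivity) e2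
    linarith
  refine sUPAux.num c₀ N R E z p q (by linarith) hN1 hR hE0 hz0 hp0 hq0 hsm ?_ ?_
  · calc q = sg ε ℓ L t n (ζ + (-ΔQ) + ΔD) := by rw [hq, ← hu2]
      _ ≤ sg ε ℓ L t n (ζ + (-ΔQ)) + sg ε ℓ L t n ΔD := sg_add_le _ _ _ _ _ _ _
      _ ≤ sg ε ℓ L t n ζ + sg ε ℓ L t n (-ΔQ) + sg ε ℓ L t n ΔD :=
          add_le_add_left (sg_add_le _ _ _ _ _ _ _) _
      _ ≤ z + c₀ * N * R * E * q + c₀ * N * R * E * p := by
          rw [sg_neg]
          have e1 := sg_le_rho ε ℓ L t n ζ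
          have e2 := sg_le_rho ε ℓ L t n ΔD
          linarith
  · calc p = rho ε ℓ L t (ζ + (-ΔQ) + ΔD) := by rw [hp, ← hu2]
      _ ≤ rho ε ℓ L t (ζ + (-ΔQ)) + rho ε ℓ L t ΔD := rho_add_le _ _ _ _ _ _
      _ ≤ rho ε ℓ L t ζ + rho ε ℓ L t (-ΔQ) + rho ε ℓ L t ΔD :=
          add_le_add_left (rho_add_le _ _ _ _ _ _) _
      _ ≤ z + c₀ * N * R * q + c₀ * N * R * E * p := by
          rw [rho_neg]
          have e1 := rho_mono ε ℓ L (Nat.le_add_right t n) ζ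
          have e2 := rho_mono ε ℓ L (Nat.le_add_right t n) ΔD
          linarith

end Pool.Agent.Lib.BedG
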