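import Pool.Agent.Lib.BedG.SpecN

/-!
# MP_6f050a_an, theorem G, part U: the difference of the quadratic map at two points (`S_UQ`)
-/

set_option autoImplicit false

open scoped Topology
open Set Filter Metric

namespace Pool.Agent.Lib.BedG

namespace sUQAux

variable {k : ℕ} {ε ℓ C : ℝ} {L : ℕ → EE k ≃L[ℂ] EE k} {B : ℕ → EE k →L[ℂ] EE k →L[ℂ] EE k}

theorem one (hc : 0 ≤ cB ε ℓ C) (hB : BmC ε ℓ C L B) (m m' : ℕ) (p q : EE k) {Y : ℝ}
    (hY : Nm ℓ L m p * Nm ℓ L m q ≤ Real.exp (-(ε * ℓ * m)) * Y) :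
    (m' ≤ m + 1 → Real.exp (ε * ℓ * m') * Nm ℓ L m' (bm L B m p q) ≤
      cB ε ℓ C * Real.exp (-(ℓ * m')) * Y) ∧
    (m + 1 ≤ m' → Real.exp (ε * ℓ * m') * Nm ℓ L m' (bm L B m p q) ≤
      cB ε ℓ C * Real.exp (ε * ℓ * m' - (1 + ε) * ℓ * m) * Y) := by
  obtain ⟨h1, h2⟩ := hB m m' p q
  constructor
  · intro h
    calc Real.exp (ε * ℓ * m') * Nm ℓ L m' (bm L B m p q)
        ≤ Real.exp (ε * ℓ * m') * (cB ε ℓ C * Real.exp (ℓ * ((1 + ε) * ((m : ℝ) - m') - m)) *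
          (Real.exp (-(ε * ℓ * m)) * Y)) := by
          refine mul_le_mul_of_nonneg_left ((h1 h).trans ?_) (Real.exp_pos _).le
          exact mul_le_mul_of_nonneg_left hY (mul_nonneg hc (Real.exp_pos _).le)
      _ = cB ε ℓ C * Real.exp (ε * ℓ * m' + ℓ * ((1 + ε) * ((m : ℝ) - m') - m) +
          -(ε * ℓ * m)) * Y := by
          rw [Real.exp_add, Real.exp_add]
          ring
      _ = _ := by
          congr 3
          ring
  · intro h
    calc Real.exp (ε * ℓ * m') * Nm ℓ L m' (bm L B m p q)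
        ≤ Real.exp (ε * ℓ * m') * (cB ε ℓ C * Real.exp (-(ℓ * m)) *
          (Real.exp (-(ε * ℓ * m)) * Y)) := by
          refine mul_le_mul_of_nonneg_left ((h2 h).trans ?_) (Real.exp_pos _).le
          exact mul_le_mul_of_nonneg_left hY (mul_nonneg hc (Real.exp_pos _).le)
      _ = cB ε ℓ C * Real.exp (ε * ℓ * m' + -(ℓ * m) + -(ε * ℓ * m)) * Y := by
          rw [Real.exp_add, Real.exp_add]
          ring
      _ = _ := by
          congr 3
          ring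

/-- The three terms together. -/
theorem three {m m' : ℕ} {w u : EE k} {K : ℝ}
    (h1 : Real.exp (ε * ℓ * m') * Nm ℓ L m' (bm L B m w u) ≤ K)
    (h2 : Real.exp (ε * ℓ * m') * Nm ℓ L m' (bm L B m u w) ≤ K)
    (h3 : Real.exp (ε * ℓ * m') * Nm ℓ L m' (bm L B m u u) ≤ K) :
    Real.exp (ε * ℓ * m') * Nm ℓ L m' (bm L B m w u + bm L B m u w + bm L B m u u) ≤ 3 * K := by
  have h4 := Nm_add_le ℓ L m' (bm L B m w u + bm L B m u w) (bm L B m u u)
  have h5 := Nm_add_le ℓ L m' (bm L B m w u) (bm L B m u w)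
  have h6 : Real.exp (ε * ℓ * m') * Nm ℓ L m' (bm L B m w u + bm L B m u w + bm L B m u u) ≤
      Real.exp (ε * ℓ * m') * (Nm ℓ L m' (bm L B m w u) + Nm ℓ L m' (bm L B m u w) +
        Nm ℓ L m' (bm L B m u u)) :=
    mul_le_mul_of_nonneg_left (by linarith) (Real.exp_pos _).le
  rw [mul_add, mul_add] at h6
  linarith

theorem summ (t n m' : ℕ) (w u : EE k) {K : ℝ} (hK : 0 ≤ K)
    (h : ∀ j < n, Real.exp (ε * ℓ * m') * Nm ℓ L m'
      (bm L B (t + j) w u + bm L B (t + j) u w + bm L B (t + j) u u) ≤ K) :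
    Real.exp (ε * ℓ * m') * Nm ℓ L m' (QQ L B t n (w + u) - QQ L B t n w) ≤ ((t : ℝ) + n) * K := by
  rw [QQ_diff]
  calc Real.exp (ε * ℓ * m') * Nm ℓ L m' (∑ j ∈ Finset.range n,
        (bm L B (t + j) w u + bm L B (t + j) u w + bm L B (t + j) u u))
      ≤ Real.exp (ε * ℓ * m') * ∑ j ∈ Finset.range n, Nm ℓ L m'
        (bm L B (t + j) w u + bm L B (t + j) u w + bm L B (t + j) u u) :=
        mul_le_mul_of_nonneg_left (Nm_sum_le ℓ L m' _ _) (Real.exp_pos _).le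
    _ = ∑ j ∈ Finset.range n, Real.exp (ε * ℓ * m') * Nm ℓ L m'
        (bm L B (t + j) w u + bm L B (t + j) u w + bm L B (t + j) u u) := Finset.mul_sum _ _ _
    _ ≤ ∑ j ∈ Finset.range n, K := Finset.sum_le_sum fun j hj => h j (Finset.mem_range.1 hj)
    _ = n * K := by simp
    _ ≤ _ := by
        have h0 : (0 : ℝ) ≤ t := Nat.cast_nonneg t
        nlinarith [mul_nonneg h0 hK]

theorem eps_le {κ : ℝ} {a t s n : ℕ} (hb : Blk ε κ a t s n) :
    ε * ((t : ℝ) + n) ≤ (1 - κ) * t := by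
  have h1 := hb.c1
  have h2 := hb.c2
  nlinarith

theorem kap_le {κ : ℝ} (hε : 0 < ε) {a t s n : ℕ} (hb : Blk ε κ a t s n) : κ ≤ 1 := by
  have h1 := eps_le hb
  have h2 : (1 : ℝ) ≤ t := by exact_mod_cast hb.one_le
  have h3 : (0 : ℝ) ≤ n := Nat.cast_nonneg n
  by_contra hc
  have h4 : 1 < κ := not_le.1 hc
  nlinarith [mul_pos (sub_pos.2 h4) (by linarith : (0 : ℝ) < t),
    mul_pos hε (by linarith : (0 : ℝ) < (t : ℝ) + n)]

/-- The products of the three terms. -/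
theorem prods (hp : Pin ε ℓ L) {a t n m : ℕ} (hat : a ≤ t) (h1 : t ≤ m) (h2 : m ≤ t + n) {R : ℝ}
    {p u : EE k} (hw : Nm ℓ L a p ≤ R) :
    Nm ℓ L m p * Nm ℓ L m u ≤ Real.exp (-(ε * ℓ * m)) * (R * sg ε ℓ L t n u) := by
  have h3 : Nm ℓ L m p ≤ R := (hp.Nm_anti (hat.trans h1) p).trans hw
  have h4 := le_sg ε ℓ L h1 h2 u
  have h5 : Nm ℓ L m u ≤ Real.exp (-(ε * ℓ * m)) * sg ε ℓ L t n u := by
    have h6 := mul_le_mul_of_nonneg_left h4 (Real.exp_pos (-(ε * ℓ * m))).le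
    rw [← mul_assoc, ← Real.exp_add, neg_add_cancel, Real.exp_zero, one_mul] at h6
    exact h6
  calc Nm ℓ L m p * Nm ℓ L m u ≤ R * (Real.exp (-(ε * ℓ * m)) * sg ε ℓ L t n u) :=
        mul_le_mul h3 h5 (Nm_nonneg ℓ L m u) ((Nm_nonneg ℓ L m p).trans h3)
    _ = _ := by ring

end sUQAux

open sUQAux in
/-- **UQ.** -/
theorem sUQ : S_UQ := by
  intro k ε ℓ C L B hp hC hB κ a t s n hb R w u hR hw hu
  have hε := hp.ε_pos
  have hℓ := hp.ℓ_pos
  have hc : 1 ≤ cB ε ℓ C := one_le_cB hC hε.le hℓ.le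
  have hc0 : 0 ≤ cB ε ℓ C := by linarith
  have hS : 0 ≤ sg ε ℓ L t n u := sg_nonneg ε ℓ L t n u
  have hY : 0 ≤ R * sg ε ℓ L t n u := mul_nonneg (by linarith) hS
  have hk := eps_le hb
  have hk1 := kap_le hε hb
  have ht0 : (0 : ℝ) ≤ t := Nat.cast_nonneg t
  have key : ∀ (j m' : ℕ), j < n →
      (m' ≤ t + j + 1 → Real.exp (ε * ℓ * m') * Nm ℓ L m'
        (bm L B (t + j) w u + bm L B (t + j) u w + bm L B (t + j) u u) ≤
        3 * (cB ε ℓ C * Real.exp (-(ℓ * m')) * (R * sg ε ℓ L t n u))) ∧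
      (t + j + 1 ≤ m' → Real.exp (ε * ℓ * m') * Nm ℓ L m'
        (bm L B (t + j) w u + bm L B (t + j) u w + bm L B (t + j) u u) ≤
        3 * (cB ε ℓ C * Real.exp (ε * ℓ * m' - (1 + ε) * ℓ * ((t + j : ℕ) : ℝ)) *
          (R * sg ε ℓ L t n u))) := by
    intro j m' hj
    have e1 : Nm ℓ L (t + j) w * Nm ℓ L (t + j) u ≤
        Real.exp (-(ε * ℓ * ((t + j : ℕ) : ℝ))) * (R * sg ε ℓ L t n u) :=
      prods hp hb.a_le_t (by omega) (by omega) hw
    have e2 : Nm ℓ L (t + j) u * Nm ℓ L (t + j) w ≤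
        Real.exp (-(ε * ℓ * ((t + j : ℕ) : ℝ))) * (R * sg ε ℓ L t n u) := by
      rw [mul_comm]
      exact e1
    have e3 : Nm ℓ L (t + j) u * Nm ℓ L (t + j) u ≤
        Real.exp (-(ε * ℓ * ((t + j : ℕ) : ℝ))) * (R * sg ε ℓ L t n u) :=
      prods hp hb.a_le_t (by omega) (by omega) hu
    exact ⟨fun h => three ((one hc0 hB (t + j) m' w u e1).1 h) ((one hc0 hB (t + j) m' u w e2).1 h)
      ((one hc0 hB (t + j) m' u u e3).1 h),
      fun h => three ((one hc0 hB (t + j) m' w u e1).2 h) ((one hc0 hB (t + j) m' u w e2).2 h)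
      ((one hc0 hB (t + j) m' u u e3).2 h)⟩
  constructor
  · rw [sg_le_iff]
    intro m' h1 h2
    have hK : 0 ≤ 3 * (cB ε ℓ C * Real.exp (-(κ * ℓ * t)) * (R * sg ε ℓ L t n u)) := by positivity
    refine (summ t n m' w u hK fun j hj => ?_).trans (le_of_eq (by ring))
    have h1' : (t : ℝ) ≤ m' := by exact_mod_cast h1
    have h2' : (m' : ℝ) ≤ t + n := by exact_mod_cast h2
    have hj0 : (0 : ℝ) ≤ j := Nat.cast_nonneg j
    rcases le_total m' (t + j + 1) with h | h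
    · refine ((key j m' hj).1 h).trans ?_
      have h3 : Real.exp (-(ℓ * m')) ≤ Real.exp (-(κ * ℓ * t)) := by
        apply Real.exp_le_exp.2
        have : κ * ℓ * t ≤ ℓ * m' := by
          calc κ * ℓ * t = κ * (ℓ * t) := by ring
            _ ≤ 1 * (ℓ * t) := mul_le_mul_of_nonneg_right hk1 (by positivity)
            _ = ℓ * t := one_mul _
            _ ≤ ℓ * m' := mul_le_mul_of_nonneg_left h1' hℓ.le
        linarith
      gcongr
    · refine ((key j m' hj).2 h).trans ?_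
      have h3 : Real.exp (ε * ℓ * m' - (1 + ε) * ℓ * ((t + j : ℕ) : ℝ)) ≤
          Real.exp (-(κ * ℓ * t)) := by
        apply Real.exp_le_exp.2
        push_cast
        have e1 : ε * m' ≤ (1 - κ) * t := (mul_le_mul_of_nonneg_left h2' hε.le).trans hk
        have e4 := mul_nonneg hε.le ht0
        have e5 := mul_nonneg hε.le hj0
        have e2 : ε * m' - (1 + ε) * (t + j) ≤ -(κ * t) := by nlinarith
        have e3 := mul_le_mul_of_nonneg_left e2 hℓ.le
        linarith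
      gcongr
  · rw [rho_le_iff]
    intro m' h1
    have hK : 0 ≤ 3 * (cB ε ℓ C * 1 * (R * sg ε ℓ L t n u)) := by positivity
    refine (summ t n m' w u hK fun j hj => ?_).trans (le_of_eq (by ring))
    refine ((key j m' hj).1 (by omega)).trans ?_
    have h3 : Real.exp (-(ℓ * m')) ≤ 1 := by
      rw [Real.exp_le_one_iff]
      have : 0 ≤ ℓ * (m' : ℝ) := by positivity
      linarith
    gcongr

end Pool.Agent.Lib.BedG
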