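import Pool.Agent.Lib.BedG.SpecL

/-!
# bmE: the size of `b_m` at all times
-/

set_option autoImplicit false

open scoped Topology
open Set Filter Metric

namespace Pool.Agent.Lib.BedG

namespace sbmEAux

theorem base {k : ℕ} {ℓ r C : ℝ} {f : ℕ → EE k → EE k} {L : ℕ → EE k ≃L[ℂ] EE k}
    {B : ℕ → EE k →L[ℂ] EE k →L[ℂ] EE k} (hQ : Qd r C f L B) (m : ℕ) (p q : EE k) :
    Nm ℓ L (m + 1) (bm L B m p q) ≤
      C * Real.exp (ℓ - ℓ * m) * (Nm ℓ L m p * Nm ℓ L m q) := by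
  have h1 := hQ.bd m (La L m p) (La L m q)
  have h2 : Nm ℓ L (m + 1) (bm L B m p q) =
      Real.exp (ℓ * ((m + 1 : ℕ) : ℝ)) * ‖B m (La L m p) (La L m q)‖ := by
    unfold Nm
    rw [La_bm B L m p q]
  rw [h2]
  refine (mul_le_mul_of_nonneg_left h1 (Real.exp_pos _).le).trans (le_of_eq ?_)
  rw [norm_La ℓ L m p, norm_La ℓ L m q]
  have h3 : Real.exp (ℓ - ℓ * m) =
      Real.exp (ℓ * ((m + 1 : ℕ) : ℝ)) * (Real.exp (-(ℓ * m)) * Real.exp (-(ℓ * m))) := by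
    rw [← Real.exp_add, ← Real.exp_add]
    congr 1
    push_cast
    ring
  rw [h3]
  ring

end sbmEAux

open sbmEAux in
theorem sbmE : S_bmE := by
  intro k ε ℓ r C f L B hP hQ m m' p q
  have hε := hP.ε_pos
  have hℓ := hP.ℓ_pos
  have hC : 0 ≤ C := zero_le_one.trans hQ.one_le
  have hN : 0 ≤ Nm ℓ L m p * Nm ℓ L m q :=
    mul_nonneg (Nm_nonneg ℓ L m p) (Nm_nonneg ℓ L m q)
  have hb := base (ℓ := ℓ) hQ m p q
  refine ⟨fun h => ?_, fun h => ?_⟩
  · refine (hP.Nm_le_exp h _).trans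
      ((mul_le_mul_of_nonneg_left hb (Real.exp_pos _).le).trans (le_of_eq ?_))
    have h3 : Real.exp ((2 + ε) * ℓ) * Real.exp (ℓ * ((1 + ε) * ((m : ℝ) - m') - m)) =
        Real.exp ((1 + ε) * ℓ * (((m + 1 : ℕ) : ℝ) - m')) * Real.exp (ℓ - ℓ * m) := by
      rw [← Real.exp_add, ← Real.exp_add]
      congr 1
      push_cast
      ring
    calc _ = C * (Real.exp ((1 + ε) * ℓ * (((m + 1 : ℕ) : ℝ) - m')) * Real.exp (ℓ - ℓ * m)) *
          (Nm ℓ L m p * Nm ℓ L m q) := by ring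
      _ = _ := by
        rw [← h3]
        unfold cB
        ring
  · refine (hP.Nm_anti h _).trans (hb.trans ?_)
    refine mul_le_mul_of_nonneg_right ?_ hN
    unfold cB
    rw [mul_assoc, ← Real.exp_add]
    refine mul_le_mul_of_nonneg_left (Real.exp_le_exp.2 ?_) hC
    nlinarith [mul_pos hε hℓ]

end Pool.Agent.Lib.BedG
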