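import Pool.Agent.Lib.BedG.Fin
import Pool.Agent.Lib.Bed.Main2
import Pool.Agent.Lib.BedG.SVD
import Pool.Agent.Lib.BedG.SB
import Pool.Agent.Lib.BedG.Prj
import Pool.Agent.Lib.BedG.TrI
import Pool.Agent.Lib.BedG.Tay
import Pool.Agent.Lib.BedG.QdE
import Pool.Agent.Lib.BedG.bmE
import Pool.Agent.Lib.BedG.DmA
import Pool.Agent.Lib.BedG.DmB
import Pool.Agent.Lib.BedG.DmE
import Pool.Agent.Lib.BedG.Orb
import Pool.Agent.Lib.BedG.OBd
import Pool.Agent.Lib.BedG.Wdf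
import Pool.Agent.Lib.BedG.EmE
import Pool.Agent.Lib.BedG.EmR
import Pool.Agent.Lib.BedG.Near
import Pool.Agent.Lib.BedG.UQ
import Pool.Agent.Lib.BedG.UD
import Pool.Agent.Lib.BedG.UP
import Pool.Agent.Lib.BedG.UI
import Pool.Agent.Lib.BedG.GS
import Pool.Agent.Lib.BedG.GB
import Pool.Agent.Lib.BedG.GA
import Pool.Agent.Lib.BedG.Cau
import Pool.Agent.Lib.BedG.TLi
import Pool.Agent.Lib.BedG.TPh
import Pool.Agent.Lib.BedG.TFa
import Pool.Agent.Lib.BedG.TFb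
import Pool.Agent.Lib.BedG.EK
import Pool.Agent.Lib.BedG.EL1
import Pool.Agent.Lib.BedG.EL2
import Pool.Agent.Lib.BedG.Th
import Pool.Agent.Lib.BedG.Cmp
import Pool.Agent.Lib.BedG.MkA
import Pool.Agent.Lib.BedG.MkB
import Pool.Agent.Lib.BedG.SE
import Pool.Agent.Lib.BedG.PD
import Pool.Agent.Lib.BedG.QL
import Pool.Agent.Lib.BedG.QB

/-!
# MP_6f050a_an, theorem G: assembly
-/

set_option autoImplicit false

namespace Pool.Agent.Lib.BedG

theorem bkA : BkA :=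
  sMkA sSVD sSB sPrj sTrI sTay sQdE sbmE sDmA sDmB sDmE sOrb sOBd sWdf sEmE sEmR sNear sUQ sUD sUP sUI sGS

theorem mkC : MkC := sMkB bkA sEK sEL1 sEL2 sOrb sOBd sWdf sTh sCmp sGB sGA

theorem seqGC : SeqGC := sSE mkC (trnC Bed.sWei sTLi sTPh sCau sTFa sTFb) sOrb

/-- Theorem G. -/
theorem bedfordG : BedfordG := sFinG Bed.setupC2 (seqDC sQL sQB seqGC) sPD

end Pool.Agent.Lib.BedG
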