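import Pool.Agent.Lib.Bed.DefsM

/-!
# Stable manifolds in all dimensions, uniform pinching with the exponent 5/2 (MP_6f050a_an): definitions

`EE k` is `ℂ^k` with the Euclidean norm.  Only forward sequences.
-/

set_option autoImplicit false

open scoped Topology
open Set Filter Metric

namespace Pool.Agent.Lib.BedG

/-- `ℂ^k` with the Euclidean norm. -/
abbrev EE (k : ℕ) : Type := EuclideanSpace ℂ (Fin k)

/-- A sequence of linear maps, pinched with the exponent `2 + ε`, `0 < ε < 1 / 2`. -/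
structure Pin {k : ℕ} (ε ℓ : ℝ) (L : ℕ → EE k ≃L[ℂ] EE k) : Prop where
  ε_pos : 0 < ε
  ε_lt : ε < 1 / 2
  ℓ_pos : 0 < ℓ
  up : ∀ n z, ‖L n z‖ ≤ Real.exp (-ℓ) * ‖z‖
  low : ∀ n z, Real.exp (-((2 + ε) * ℓ)) * ‖z‖ ≤ ‖L n z‖

/-- The products `L (m-1) ∘ ... ∘ L 0`. -/
noncomputable def La {k : ℕ} (L : ℕ → EE k ≃L[ℂ] EE k) : ℕ → EE k ≃L[ℂ] EE k
  | 0 => ContinuousLinearEquiv.refl ℂ (EE k)
  | m + 1 => (La L m).trans (L m)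

/-- The norm `N_m z = e^{ℓ m} |Λ_m z|`. -/
noncomputable def Nm {k : ℕ} (ℓ : ℝ) (L : ℕ → EE k ≃L[ℂ] EE k) (m : ℕ) (z : EE k) : ℝ :=
  Real.exp (ℓ * m) * ‖La L m z‖

/-- The maximum of `e^{ε ℓ m} N_m z` over `t ≤ m ≤ t + n`. -/
noncomputable def sg {k : ℕ} (ε ℓ : ℝ) (L : ℕ → EE k ≃L[ℂ] EE k) (t : ℕ) : ℕ → EE k → ℝ
  | 0, z => Real.exp (ε * ℓ * t) * Nm ℓ L t z
  | n + 1, z => max (sg ε ℓ L t n z)
      (Real.exp (ε * ℓ * ((t + n + 1 : ℕ) : ℝ)) * Nm ℓ L (t + n + 1) z)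

/-- The norm of the errors at the time `t`: the maximum of `e^{ε ℓ m} N_m z` over `m ≤ t`. -/
noncomputable def rho {k : ℕ} (ε ℓ : ℝ) (L : ℕ → EE k ≃L[ℂ] EE k) (t : ℕ) (z : EE k) : ℝ :=
  sg ε ℓ L 0 t z

/-- `i` steps of the orbit of `z`, starting at the time `m`. -/
def orbE {k : ℕ} (f : ℕ → EE k → EE k) (m : ℕ) : ℕ → EE k → EE k
  | 0, z => z
  | i + 1, z => f (m + i) (orbE f m i z)

/-- The vectors `e i` are a basis which is orthonormal for the norm `N_a` and orthogonal for the norm `N_s`, with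
decreasing lengths `σ i` (for `N_s`); `c i` are the coordinates. -/
structure SB {k : ℕ} (ℓ : ℝ) (L : ℕ → EE k ≃L[ℂ] EE k) (a s : ℕ) (e : Fin k → EE k)
    (c : Fin k → EE k →L[ℂ] ℂ) (σ : Fin k → ℝ) : Prop where
  expand : ∀ z, ∑ i, c i z • e i = z
  dual : ∀ i j, c i (e j) = if i = j then 1 else 0
  Na : ∀ z, Nm ℓ L a z ^ 2 = ∑ i, ‖c i z‖ ^ 2
  Ns : ∀ z, Nm ℓ L s z ^ 2 = ∑ i, σ i ^ 2 * ‖c i z‖ ^ 2
  pos : ∀ i, 0 < σ i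
  anti : Antitone σ

/-- The projection on the first `i` vectors of the basis. -/
noncomputable def Pj {k : ℕ} (e : Fin k → EE k) (c : Fin k → EE k →L[ℂ] ℂ) (i : ℕ) (z : EE k) :
    EE k :=
  ∑ j, if j.val < i then c j z • e j else 0

/-- The triangular part of the map `Q`: the coordinate `i` is the coordinate `i` of `Q (P_i w)`. -/
noncomputable def Tri {k : ℕ} (e : Fin k → EE k) (c : Fin k → EE k →L[ℂ] ℂ) (Q : EE k → EE k)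
    (w : EE k) : EE k :=
  ∑ i : Fin k, c i (Q (Pj e c i.val w)) • e i

/-- The inverse of `w ↦ w + Tri e c Q w`. -/
noncomputable def TriI {k : ℕ} (e : Fin k → EE k) (c : Fin k → EE k →L[ℂ] ℂ) (Q : EE k → EE k)
    (z : EE k) : EE k :=
  (fun w => z - Tri e c Q w)^[k] 0

/-- The bilinear map `b_m`. -/
noncomputable def bm {k : ℕ} (L : ℕ → EE k ≃L[ℂ] EE k) (B : ℕ → EE k →L[ℂ] EE k →L[ℂ] EE k)
    (m : ℕ) (p q : EE k) : EE k :=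
  (La L (m + 1)).symm (B m (La L m p) (La L m q))

/-- The bilinear map `D_m`. -/
noncomputable def Dm {k : ℕ} (L : ℕ → EE k ≃L[ℂ] EE k) (B : ℕ → EE k →L[ℂ] EE k →L[ℂ] EE k)
    (e : Fin k → EE k) (c : Fin k → EE k →L[ℂ] ℂ) (m : ℕ) (p q : EE k) : EE k :=
  ∑ i : Fin k, c i (bm L B m p q - bm L B m (Pj e c i.val p) (Pj e c i.val q)) • e i

/-- The quadratic map of the block of the times `t ≤ m < t + n`. -/
noncomputable def QQ {k : ℕ} (L : ℕ → EE k ≃L[ℂ] EE k) (B : ℕ → EE k →L[ℂ] EE k →L[ℂ] EE k)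
    (t n : ℕ) (w : EE k) : EE k :=
  ∑ j ∈ Finset.range n, bm L B (t + j) w w

/-- The sum of the `D_m w w` of the block. -/
noncomputable def DD {k : ℕ} (L : ℕ → EE k ≃L[ℂ] EE k) (B : ℕ → EE k →L[ℂ] EE k →L[ℂ] EE k)
    (e : Fin k → EE k) (c : Fin k → EE k →L[ℂ] ℂ) (t n : ℕ) (w : EE k) : EE k :=
  ∑ j ∈ Finset.range n, Dm L B e c (t + j) w w

/-- The automorphism of the block. -/
noncomputable def Sb {k : ℕ} (L : ℕ → EE k ≃L[ℂ] EE k) (B : ℕ → EE k →L[ℂ] EE k →L[ℂ] EE k)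
    (e : Fin k → EE k) (c : Fin k → EE k →L[ℂ] ℂ) (t n : ℕ) (w : EE k) : EE k :=
  w + Tri e c (QQ L B t n) w

/-- The inverse of the automorphism of the block. -/
noncomputable def Tb {k : ℕ} (L : ℕ → EE k ≃L[ℂ] EE k) (B : ℕ → EE k →L[ℂ] EE k →L[ℂ] EE k)
    (e : Fin k → EE k) (c : Fin k → EE k →L[ℂ] ℂ) (t n : ℕ) (z : EE k) : EE k :=
  TriI e c (QQ L B t n) z

/-- The map of the block of the times `t ≤ m < t + n`, in the linear coordinates. -/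
noncomputable def Th {k : ℕ} (L : ℕ → EE k ≃L[ℂ] EE k) (f : ℕ → EE k → EE k) (t n : ℕ)
    (w : EE k) : EE k :=
  (La L (t + n)).symm (orbE f t n (La L t w))

/-- The orbit in the linear coordinates. -/
noncomputable def Wo {k : ℕ} (L : ℕ → EE k ≃L[ℂ] EE k) (f : ℕ → EE k → EE k) (t : ℕ) (w : EE k)
    (i : ℕ) : EE k :=
  (La L (t + i)).symm (orbE f t i (La L t w))

/-- The times of a block: `t ≤ m < t + n`, with the auxiliary times `a ≤ t ≤ s`. -/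
structure Blk (ε κ : ℝ) (a t s n : ℕ) : Prop where
  κ_pos : 0 < κ
  one_le : 1 ≤ t
  a_le_t : a ≤ t
  t_le_s : t ≤ s
  s_le : s ≤ t + n
  a_ge : ε * t ≤ (1 + ε) * a
  a_le : (1 + ε) * a ≤ ε * t + (1 + ε)
  c1 : 2 * ε * ((t : ℝ) + n) + κ * t ≤ (1 + ε) * s
  c2 : (1 + ε) * s ≤ (2 - κ) * t

/-- The constant `c_B`. -/
noncomputable def cB (ε ℓ C : ℝ) : ℝ := C * Real.exp ((2 + ε) * ℓ)

/-! ## Sequences of maps -/

/-- A uniformly attracting sequence of injective holomorphic maps with pinched linear parts. -/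
structure SeqG {k : ℕ} (ε ℓ r C₀ : ℝ) (f : ℕ → EE k → EE k) (L : ℕ → EE k ≃L[ℂ] EE k) : Prop where
  pin : Pin ε ℓ L
  r_pos : 0 < r
  C_pos : 0 < C₀
  diff : ∀ n, DifferentiableOn ℂ (f n) (ball 0 r)
  inj : ∀ n, InjOn (f n) (ball 0 r)
  dinj : ∀ n, ∀ z ∈ ball (0 : EE k) r, ∀ w, fderiv ℂ (f n) z w = 0 → w = 0
  contr : ∀ n, ∀ z ∈ ball (0 : EE k) r, ‖f n z‖ ≤ Real.exp (-(ℓ / 2)) * ‖z‖
  quad : ∀ n, ∀ z ∈ ball (0 : EE k) r, ∀ w ∈ ball (0 : EE k) r,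
    ‖(f n z - L n z) - (f n w - L n w)‖ ≤ C₀ * (‖z‖ + ‖w‖) * ‖z - w‖

/-- The quadratic parts of the maps. -/
structure Qd {k : ℕ} (r C : ℝ) (f : ℕ → EE k → EE k) (L : ℕ → EE k ≃L[ℂ] EE k)
    (B : ℕ → EE k →L[ℂ] EE k →L[ℂ] EE k) : Prop where
  one_le : 1 ≤ C
  bd : ∀ m p q, ‖B m p q‖ ≤ C * ‖p‖ * ‖q‖
  ap : ∀ m, ∀ z ∈ ball (0 : EE k) r, ‖f m z - L m z - B m z z‖ ≤ C * ‖z‖ ^ 3

/-- The basin is biholomorphic to `ℂ^k`. -/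
def BasinG {k : ℕ} (r : ℝ) (f : ℕ → EE k → EE k) : Prop :=
  ∃ Ψ : ℕ → EE k → EE k, (∀ n, DifferentiableOn ℂ (Ψ n) (ball 0 r)) ∧
    (∀ n, ∀ z ∈ ball (0 : EE k) r, Ψ (n + 1) (f n z) = Ψ n z) ∧
    (∀ n, InjOn (Ψ n) (ball 0 r)) ∧
    (∀ n, ∀ z ∈ ball (0 : EE k) r, ∀ w, fderiv ℂ (Ψ n) z w = 0 → w = 0) ∧
    ∀ u, ∃ n, ∃ z ∈ ball (0 : EE k) r, Ψ n z = u

/-! ## Trains -/

/-- A seminorm, not larger than the norm. -/
structure IsNu {k : ℕ} (ν : EE k → ℝ) : Prop where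
  nonneg : ∀ z, 0 ≤ ν z
  add_le : ∀ z w, ν (z + w) ≤ ν z + ν w
  smul : ∀ (c : ℂ) z, ν (c • z) = ‖c‖ * ν z
  le : ∀ z, ν z ≤ ‖z‖

/-- A train: maps `Θ j : dom j → dom (j+1)` very close to the polynomial automorphisms `S j` (with
inverse `T j`) on huge balls of the norms `ν j`; the errors are measured by `ρ j`. -/
structure Trn {k : ℕ} (dom : ℕ → Set (EE k)) (Θ S T : ℕ → EE k → EE k) (ν ρ : ℕ → EE k → ℝ)
    (R e A : ℕ → ℝ) : Prop where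
  open_dom : ∀ j, IsOpen (dom j)
  diff : ∀ j, DifferentiableOn ℂ (Θ j) (dom j)
  maps : ∀ j, MapsTo (Θ j) (dom j) (dom (j + 1))
  inj : ∀ j, InjOn (Θ j) (dom j)
  dinj : ∀ j, ∀ z ∈ dom j, ∀ w, fderiv ℂ (Θ j) z w = 0 → w = 0
  S_diff : ∀ j, Differentiable ℂ (S j)
  T_diff : ∀ j, Differentiable ℂ (T j)
  ST : ∀ j z, S j (T j z) = z
  TS : ∀ j z, T j (S j z) = z
  nu : ∀ j, IsNu (ν j)
  le_rho : ∀ j z, ‖z‖ ≤ ρ j z
  R_ge : ∀ j, 8 ≤ R j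
  e_nonneg : ∀ j, 0 ≤ e j
  A_ge : ∀ j, 1 ≤ A j
  dom_of : ∀ j z, ν j z ≤ R j → z ∈ dom j
  prop : ∀ j z, ν j z ≤ R j → ν (j + 1) (Θ j z) ≤ R (j + 1)
  near : ∀ j z, ν j z ≤ R j → ρ (j + 1) (Θ j z - S j z) ≤ e j
  pull : ∀ j w ζ, ν j w ≤ 2 * R j → A j * ρ (j + 1) ζ ≤ 1 →
    ρ j (T j (S j w + ζ) - w) ≤ A j * ρ (j + 1) ζ
  small : ∀ i j, i ≤ j → e j * ∏ l ∈ Finset.Icc i j, A l ≤ (1 / 2) ^ (j + 3)
  S_orb : ∀ u, ∀ᶠ l in atTop, ν l (orbE S 0 l u) ≤ R l / 4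
  bdd : ∀ l, ∀ z ∈ dom l, ∀ᶠ i in atTop, ν (l + i) (orbE Θ l i z) ≤ R (l + i) / 4

/-- `T l ∘ ... ∘ T (l+i-1)`. -/
def bk {k : ℕ} (T : ℕ → EE k → EE k) : ℕ → ℕ → EE k → EE k
  | 0, _, z => z
  | i + 1, l, z => T l (bk T i (l + 1) z)

/-- `Φ l` is the limit of `T 0 ∘ ... ∘ T (l+i-1) ∘ Θ (l+i-1) ∘ ... ∘ Θ l`, and `Φ l = T 0 ∘ ... ∘ T (l-1) ∘ H`
with `H` close to the identity on `{ν l < R l}`. -/
structure IsPhi {k : ℕ} (dom : ℕ → Set (EE k)) (Θ T Φ : ℕ → EE k → EE k) (ν : ℕ → EE k → ℝ)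
    (R : ℕ → ℝ) : Prop where
  lim : ∀ l, ∀ z ∈ dom l,
    Tendsto (fun i => bk T (l + i) 0 (orbE Θ l i z)) atTop (𝓝 (Φ l z))
  H : ∀ l, ∃ H : EE k → EE k, DifferentiableOn ℂ H {z | ν l z < R l} ∧
    ∀ z, ν l z < R l → z ∈ dom l ∧ ‖H z - z‖ ≤ 1 / 4 ∧ Φ l z = bk T l 0 (H z)

/-- The conclusion of the train lemma: the abstract basin of the maps `Θ j` is biholomorphic to `ℂ^k`. -/
def TrnC {k : ℕ} (dom : ℕ → Set (EE k)) (Θ : ℕ → EE k → EE k) : Prop :=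
  ∃ Φ : ℕ → EE k → EE k, (∀ l, DifferentiableOn ℂ (Φ l) (dom l)) ∧
    (∀ l, ∀ z ∈ dom l, Φ (l + 1) (Θ l z) = Φ l z) ∧ (∀ l, InjOn (Φ l) (dom l)) ∧
    (∀ l, ∀ z ∈ dom l, ∀ w, fderiv ℂ (Φ l) z w = 0 → w = 0) ∧
    ∀ u, ∃ l, ∃ z ∈ dom l, Φ l z = u

/-- The domain of the map of the block which begins at the time `t`. -/
def Dom {k : ℕ} (r : ℝ) (L : ℕ → EE k ≃L[ℂ] EE k) (t : ℕ) : Set (EE k) := {z | ‖La L t z‖ < r}

/-! ## Condition (G) -/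

/-- Uniform pinching with an exponent smaller than 5/2, for a sequence of linear maps of `ℂ^k`. -/
def GCond (k : ℕ) (Λ : ℕ → (Fin k → ℂ) →L[ℂ] (Fin k → ℂ)) : Prop :=
  ∃ C lam mu : ℝ, 0 < C ∧ 0 < lam ∧ lam < 1 ∧ 0 < mu ∧ lam ^ 5 < mu ^ 2 ∧
    ∀ n q z, mu ^ q * ‖Λ n z‖ ≤ C * ‖Λ (n + q) z‖ ∧ ‖Λ (n + q) z‖ ≤ C * lam ^ q * ‖Λ n z‖

open scoped Manifold in
/-- Condition (G) at `p`: along the forward orbit of `p` all vectors of `Es` are contracted with rates between `mu`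
and `lam`, where `lam ^ 5 < mu ^ 2`. -/
def PtG {E : Type} [NormedAddCommGroup E] [NormedSpace ℂ E] {X : Type} [MetricSpace X]
    [ChartedSpace E X] (nrm : (x : X) → TangentSpace 𝓘(ℂ, E) x → ℝ) (f : X ≃ X) (p : X)
    (Ep : Submodule ℂ (TangentSpace 𝓘(ℂ, E) p)) : Prop :=
  ∃ C lam mu : ℝ, 0 < C ∧ 0 < lam ∧ lam < 1 ∧ 0 < mu ∧ lam ^ 5 < mu ^ 2 ∧
    ∀ n m : ℕ, ∀ v ∈ Ep, mu ^ m * Bed.nit nrm f p n v ≤ C * Bed.nit nrm f p (n + m) v ∧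
      Bed.nit nrm f p (n + m) v ≤ C * lam ^ m * Bed.nit nrm f p n v

/-- `ℂ^k` with the Euclidean norm and `ℂ^k` with the sup norm. -/
noncomputable def io (k : ℕ) : EE k ≃L[ℂ] (Fin k → ℂ) := EuclideanSpace.equiv (Fin k) ℂ

/-- The compositions of `q` steps, as maps of `EE k`. -/
noncomputable def qst {k : ℕ} (F : ℕ → (Fin k → ℂ) → (Fin k → ℂ)) (q n : ℕ) (z : EE k) : EE k :=
  (io k).symm (Bed.orb F (q * n) q (io k z))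

end Pool.Agent.Lib.BedG
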