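import Pool.Agent.Lib.BedG.SpecR
import Pool.Agent.Lib.Bed.Str

/-!
# MP_6f050a_an, theorem G: the final statement
-/

set_option autoImplicit false

open scoped Manifold ContDiff Topology
open Set Filter Metric

namespace Pool.Agent.Lib.BedG

/-- **Theorem G.** -/
def BedfordG : Prop := ∀ (E : Type) [NormedAddCommGroup E] [NormedSpace ℂ E] [FiniteDimensional ℂ E] (X : Type)
  [MetricSpace X] [ChartedSpace E X] [IsManifold 𝓘(ℂ, E) 1 X] (nrm : (x : X) → TangentSpace 𝓘(ℂ, E) x → ℝ) (f : X ≃ X)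
  (K : Set X) (Es Eu : (x : X) → Submodule ℂ (TangentSpace 𝓘(ℂ, E) x)) (C lam : ℝ), Bed.IsFinsler nrm →
  Bed.IsHyp nrm f K Es Eu C lam → ∀ p ∈ K, PtG nrm f p (Es p) → Bed.StabCk E (Module.finrank ℂ (Es p)) f p

theorem sFinG (hSet : Bed.SetupC2) (hS : SeqDC) (hPD : S_PD) : BedfordG := by
  intro E _ _ _ X _ _ _ nrm f K Es Eu C lam hF hH p hp hD
  obtain ⟨N, k, A, F, j, r, C', c, a₁, b₁, C₂, c₂, hk, hseq, hck, hcmp, -⟩ :=
    hSet E X nrm f K Es Eu C lam p hF hH hp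
  subst hk
  exact hck (hS _ r (1 / 4) C' c F A hseq (hPD E X nrm f p (Es p) N _ j _ a₁ b₁ hcmp hD))

end Pool.Agent.Lib.BedG
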