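import Pool.Agent.Lib.BedG.Basic

/-!
# MP_6f050a_an, theorem G, part L: linear algebra, the bilinear maps, the triangular automorphisms

Every task: prove `theorem sX : S_X` (namespace `Pool.Agent.Lib.BedG`) in the file named in the task; auxiliary lemmas in the
namespace `Pool.Agent.Lib.BedG.sXAux`.  All proofs are complete in the docstrings.  Basic facts are in `Basic.lean`.

Notation of the proofs: `Λ_m = La L m`, `N_m = Nm ℓ L m` (`N_m z = e^{ℓm} ‖Λ_m z‖`, decreasing in `m`: `Pin.Nm_anti`, and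
`N_m ≤ e^{(1+ε)ℓ(n-m)} N_n` for `m ≤ n`: `Pin.Nm_le_exp`), `P_i = Pj e c i`, `b_m = bm L B m`, `D_m = Dm L B e c m`, `c_B = cB ε ℓ C`,
`t' = t + n`.
-/

set_option autoImplicit false

open scoped Topology
open Set Filter Metric

namespace Pool.Agent.Lib.BedG

/-- **SVD.** The singular basis of an isomorphism.

Proof.  `G = T† ∘ T` (`ContinuousLinearMap.adjoint`, or as a linear map `LinearMap.adjoint T ∘ T`) is symmetric; let `b` be the orthonormal basis of eigenvectors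
(`LinearMap.IsSymmetric.eigenvectorBasis`, `finrank = k`), with the eigenvalues `λ_i` (real) in decreasing order (`LinearMap.IsSymmetric.eigenvalues_antitone`).
`⟨T b_i, T b_j⟩ = ⟨b_i, G b_j⟩ = λ_j ⟨b_i, b_j⟩`, which is `0` for `i ≠ j`, and `‖T b_i‖² = λ_i`, so `‖T b_i‖ = √λ_i` is decreasing. -/
def S_SVD : Prop := ∀ (k : ℕ) (T : EE k ≃L[ℂ] EE k), ∃ b : OrthonormalBasis (Fin k) ℂ (EE k),
  (∀ i j, i ≠ j → inner ℂ (T (b i)) (T (b j)) = (0 : ℂ)) ∧ Antitone fun i => ‖T (b i)‖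

/-- **SB.** The basis adapted to two times.  (Uses `S_SVD`.)

Proof.  `T = Λ_s ∘ Λ_a⁻¹`, `b` from `S_SVD`, `e i = e^{-ℓa} Λ_a⁻¹ (b i)`, `c i z = ⟨b i, e^{ℓa} Λ_a z⟩` (a continuous linear map: `innerSL ℂ (b i)` composed), `σ i = e^{ℓ(s-a)} ‖T (b i)‖`.
`e^{ℓa} Λ_a z = ∑ c_i z • b i` (`OrthonormalBasis.sum_repr'`), so `z = ∑ c_i z • e i`, and `N_a z ^ 2 = ‖∑ c_i z • b i‖² = ∑ |c_i z|²`
(`OrthonormalBasis.sum_sq_norm_inner_right`, Parseval).  `Λ_s z = e^{-ℓa} ∑ c_i z • T (b i)`, and the `T (b i)` are orthogonal, so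
`N_s z ^ 2 = e^{2ℓ(s-a)} ∑ |c_i z|² ‖T (b i)‖²` (Pythagoras; expand `‖∑ v_i‖² = re ⟨∑ v_i, ∑ v_j⟩`).  `c_i (e j) = ⟨b i, b j⟩`. -/
def S_SB : Prop := S_SVD → ∀ (k : ℕ) (ℓ : ℝ) (L : ℕ → EE k ≃L[ℂ] EE k) (a s : ℕ),
  ∃ (e : Fin k → EE k) (c : Fin k → EE k →L[ℂ] ℂ) (σ : Fin k → ℝ), SB ℓ L a s e c σ

/-- The facts on the coordinates and the projections. -/
structure PrC {k : ℕ} (ℓ : ℝ) (L : ℕ → EE k ≃L[ℂ] EE k) (a s : ℕ) (e : Fin k → EE k)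
    (c : Fin k → EE k →L[ℂ] ℂ) (σ : Fin k → ℝ) : Prop where
  c_a : ∀ i z, ‖c i z‖ ≤ Nm ℓ L a z
  c_s : ∀ i z, σ i * ‖c i z‖ ≤ Nm ℓ L s z
  P_a : ∀ (i : ℕ) z, Nm ℓ L a (Pj e c i z) ≤ Nm ℓ L a z
  P_s : ∀ (i : ℕ) z, Nm ℓ L s (Pj e c i z) ≤ Nm ℓ L s z
  R_a : ∀ (i : ℕ) z, Nm ℓ L a (z - Pj e c i z) ≤ Nm ℓ L a z
  R_s : ∀ (i : ℕ) z, Nm ℓ L s (z - Pj e c i z) ≤ Nm ℓ L s z
  R_σ : ∀ (i : Fin k) z, Nm ℓ L s (z - Pj e c i.val z) ≤ σ i * Nm ℓ L a z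
  e_a : ∀ d : Fin k → ℂ, Nm ℓ L a (∑ i, d i • e i) ≤ ∑ i, ‖d i‖
  e_s : ∀ d : Fin k → ℂ, Nm ℓ L s (∑ i, d i • e i) ≤ ∑ i, σ i * ‖d i‖

/-- **Prj.** The facts on the coordinates and the projections.

Proof.  `c_j (P_i z) = c_j z` for `j < i` and `0` otherwise (`dual`); `c_j (z - P_i z)` is the rest.  All claims follow from the formulas `SB.Na`, `SB.Ns` for the
squares: monotone sums of nonnegative terms; for `R_σ`: `N_s (z - P_i z)² = ∑_{j ≥ i} σ_j² |c_j z|² ≤ σ_i² ∑ |c_j z|²` (`anti`).  `e_a`: `N_a` of a sum is at most the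
sum, `N_a (d i • e i) = |d i|` (`Na`, `dual`; `Nm_smul`, `Nm_sum_le`); the same for `e_s`, `N_s (e i) = σ i`.  (`Nm` is nonnegative; `abs_le_of_sq_le_sq`, `pow_le_pow_left₀`.) -/
def S_Prj : Prop := ∀ (k : ℕ) (ℓ : ℝ) (L : ℕ → EE k ≃L[ℂ] EE k) (a s : ℕ) (e : Fin k → EE k)
  (c : Fin k → EE k →L[ℂ] ℂ) (σ : Fin k → ℝ), SB ℓ L a s e c σ → PrC ℓ L a s e c σ

/-- **TrI.** Triangular maps are automorphisms.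

Proof.  `Tri e c Q` is differentiable (`differentiable_Pj`).  `TriI e c Q` is the iterate number `k` at the point `0` of `F_z : w ↦ z - Tri e c Q w`; by induction on `n`,
`z ↦ F_z^[n] 0` is differentiable (`Function.iterate_succ_apply'`).
Claim: for `i ≤ k`... more precisely for every `i : ℕ`: if `P_i w = P_i w'` then `P_{i+1} (F_z w) = P_{i+1} (F_z w')`.  Indeed `c_j (Tri e c Q w) = c_j (Q (P_j w))` (`dual`), and for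
`j < i + 1` `P_j w = P_j (P_i w)`, so it depends on `P_i w` only (`P_i w = P_i w'` iff `c_j w = c_j w'` for all `j < i`).  `P_0 w = 0` for all `w`.  So by induction `P_i (F_z^[i] w) = P_i (F_z^[i] w')`
for all `w`, `w'`, and `P_k = id` (`expand`): `F_z^[k]` is constant.  Hence with `w₀ = F_z^[k] 0`: `F_z w₀ = F_z^[k] (F_z 0) = w₀`, that is `w₀ + Tri e c Q w₀ = z`.  If `z' = z + Tri e c Q z`, then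
`F_{z'} z = z`, so `z = F_{z'}^[k] z = F_{z'}^[k] 0 = TriI e c Q z'`. -/
def S_TrI : Prop := ∀ (k : ℕ) (e : Fin k → EE k) (c : Fin k → EE k →L[ℂ] ℂ),
  (∀ z, ∑ i, c i z • e i = z) → (∀ i j, c i (e j) = if i = j then 1 else 0) →
  ∀ Q : EE k → EE k, Differentiable ℂ Q → Differentiable ℂ (Tri e c Q) ∧
    Differentiable ℂ (TriI e c Q) ∧ (∀ z, TriI e c Q z + Tri e c Q (TriI e c Q z) = z) ∧
    ∀ z, TriI e c Q (z + Tri e c Q z) = z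

/-- **Tay.** Second order Taylor expansion with uniform constants.

Proof.  (Any other proof is fine, for instance by one variable theory on the lines `s ↦ h (s • z)`; compare `BedD/Tay.lean`.)
(1) `g = fderiv ℂ h` is differentiable on `ball 0 r` (`Osgood.differentiableOn_fderiv`), and `‖g z‖ ≤ 2 C₀ ‖z‖` (limit of the difference quotients: `‖h (z + x) - h z‖ ≤ C₀ (2 ‖z‖ + ‖x‖) ‖x‖`;
for instance `HasFDerivAt.le_of_lip'`), in particular `g 0 = 0`.  (2) `A = fderiv ℂ g 0`; `‖A‖ ≤ 2 C₀` (`‖g z - g 0‖ ≤ 2 C₀ ‖z‖`, `HasFDerivAt.le_of_lip'`).  `B = (1/2) A`, so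
`‖B p q‖ ≤ C₀ ‖p‖ ‖q‖`.  (3) For `z ∈ ball 0 (r/4)`: `‖fderiv ℂ (fderiv ℂ g) ‖` on `ball 0 (r/4)` is at most `M₂`: `‖g‖ ≤ 2 C₀ r` on `ball 0 r`, so `‖fderiv ℂ g y‖ ≤ 2 C₀ r / (r/4) = 8 C₀` on
`ball 0 (3r/4)` (`Osgood.norm_fderiv_le`) and `‖fderiv ℂ (fderiv ℂ g) y‖ ≤ 8 C₀ / (r/4) = 32 C₀ / r` on `ball 0 (r/2)`.  So `‖fderiv ℂ g y - A‖ ≤ (32 C₀/r) ‖y‖` on `ball 0 (r/2)`
(`Convex.norm_image_sub_le_of_norm_fderiv_le`), `‖g y - A y‖ ≤ (32 C₀/r) ‖y‖²` (mean value inequality for `g - A` on the convex set `ball 0 (‖y‖ + δ)`, or on the segment),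
and with `A` symmetric (`A p q = A q p`: second derivatives, `second_derivative_symmetric`, or `ContDiffAt.isSymmSndFDerivAt`, over `ℂ`; `Osgood.analyticOnNhd`) the derivative of `z ↦ h z - B z z` at `y` is
`x ↦ g y x - (1/2)(A x y + A y x) = (g y - A y) x`, so `‖h z - B z z‖ ≤ (32 C₀/r) ‖z‖³` for `z ∈ ball 0 (r/2)`.  (4) For `r/2 ≤ ‖z‖ < r`: `‖h z‖ + ‖B z z‖ ≤ 2 C₀ ‖z‖² ≤ (4 C₀/r) ‖z‖³`.
`C = max 1 (max C₀ (32 C₀/r))`. -/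
def S_Tay : Prop := ∀ (k : ℕ) (r C₀ : ℝ) (h : EE k → EE k), 0 < r → 0 < C₀ → DifferentiableOn ℂ h (ball 0 r) → h 0 = 0 →
  (∀ z ∈ ball (0 : EE k) r, ∀ w ∈ ball (0 : EE k) r, ‖h z - h w‖ ≤ C₀ * (‖z‖ + ‖w‖) * ‖z - w‖) →
  ∃ B : EE k →L[ℂ] EE k →L[ℂ] EE k, (∀ p q, ‖B p q‖ ≤ C₀ * ‖p‖ * ‖q‖) ∧
    ∀ z ∈ ball (0 : EE k) r, ‖h z - B z z‖ ≤ 32 * C₀ / r * ‖z‖ ^ 3

/-- **QdE.** The quadratic parts of the maps.  (Uses `S_Tay`.)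

Proof.  `h = f m - L m`, `f m 0 = 0` (`contr`); `C = max 1 (max C₀ (32 C₀/r))`; choose `B m`. -/
def S_QdE : Prop := S_Tay → ∀ (k : ℕ) (ε ℓ r C₀ : ℝ) (f : ℕ → EE k → EE k) (L : ℕ → EE k ≃L[ℂ] EE k), SeqG ε ℓ r C₀ f L →
  ∃ (C : ℝ) (B : ℕ → EE k →L[ℂ] EE k →L[ℂ] EE k), Qd r C f L B

/-- **bmE.** The size of `b_m` at all times.

Proof.  `N_{m+1} (b_m p q) = e^{ℓ(m+1)} ‖B m (Λ_m p) (Λ_m q)‖ ≤ C e^{ℓ(m+1)} e^{-2ℓm} N_m p N_m q = C e^ℓ e^{-ℓm} N_m p N_m q` (`La_bm`, `norm_La`).  For `m' ≤ m + 1` multiply with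
`e^{(1+ε)ℓ(m+1-m')}` (`Pin.Nm_le_exp`), for `m' ≥ m + 1` use `Pin.Nm_anti` and `e^ℓ ≤ e^{(2+ε)ℓ}`. -/
def S_bmE : Prop := ∀ (k : ℕ) (ε ℓ r C : ℝ) (f : ℕ → EE k → EE k) (L : ℕ → EE k ≃L[ℂ] EE k)
  (B : ℕ → EE k →L[ℂ] EE k →L[ℂ] EE k), Pin ε ℓ L → Qd r C f L B → ∀ (m m' : ℕ) (p q : EE k),
  (m' ≤ m + 1 → Nm ℓ L m' (bm L B m p q) ≤
    cB ε ℓ C * Real.exp (ℓ * ((1 + ε) * ((m : ℝ) - m') - m)) * (Nm ℓ L m p * Nm ℓ L m q)) ∧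
  (m + 1 ≤ m' → Nm ℓ L m' (bm L B m p q) ≤
    cB ε ℓ C * Real.exp (-(ℓ * m)) * (Nm ℓ L m p * Nm ℓ L m q))

/-- The conclusion of `S_bmE` for one sequence. -/
def BmC {k : ℕ} (ε ℓ C : ℝ) (L : ℕ → EE k ≃L[ℂ] EE k) (B : ℕ → EE k →L[ℂ] EE k →L[ℂ] EE k) : Prop :=
  ∀ (m m' : ℕ) (p q : EE k),
  (m' ≤ m + 1 → Nm ℓ L m' (bm L B m p q) ≤
    cB ε ℓ C * Real.exp (ℓ * ((1 + ε) * ((m : ℝ) - m') - m)) * (Nm ℓ L m p * Nm ℓ L m q)) ∧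
  (m + 1 ≤ m' → Nm ℓ L m' (bm L B m p q) ≤
    cB ε ℓ C * Real.exp (-(ℓ * m)) * (Nm ℓ L m p * Nm ℓ L m q))

/-- **DmA.** The terms `D_m` for `m ≥ s`.

Proof.  `D_m p q = ∑ d_i e_i`, `d_i = c_i z_i`, `z_i = b_m p q - b_m (P_i p) (P_i q) = b_m (p - P_i p) q + b_m (P_i p) (q - P_i q)` (`bm_proj`).  For all `p'`, `q'`, by `BmC` (`m' = s ≤ m + 1`) and
`Pin.Nm_anti`: `N_s (b_m p' q') ≤ c_B E N_s p' N_s q'`, `E = e^{ℓ((1+ε)(m-s)-m)} = e^{ℓ(ε(m-s)-s)}`.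
`N_s`: `σ_i |d_i| ≤ N_s z_i ≤ N_s (b_m p q) + N_s (b_m (P_i p) (P_i q)) ≤ 2 c_B E N_s p N_s q ≤ 2 c_B E N_a p N_a q` (`c_s`, `P_s`; `a ≤ s`); sum over `i` (`e_s`).
`N_a`: `σ_i |d_i| ≤ N_s z_i ≤ c_B E (σ_i N_a p N_s q + N_s p σ_i N_a q) ≤ 2 c_B E σ_i N_a p N_a q` (`R_σ`, `P_s`), divide by `σ_i > 0` (`SB.pos`) and sum (`e_a`). -/
def S_DmA : Prop := ∀ (k : ℕ) (ε ℓ C : ℝ) (L : ℕ → EE k ≃L[ℂ] EE k)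
  (B : ℕ → EE k →L[ℂ] EE k →L[ℂ] EE k), Pin ε ℓ L → 1 ≤ C → BmC ε ℓ C L B →
  ∀ (a s : ℕ) (e : Fin k → EE k) (c : Fin k → EE k →L[ℂ] ℂ) (σ : Fin k → ℝ), SB ℓ L a s e c σ → PrC ℓ L a s e c σ →
  a ≤ s → ∀ m : ℕ, s ≤ m → ∀ p q : EE k,
  Nm ℓ L s (Dm L B e c m p q) ≤
    2 * k * cB ε ℓ C * Real.exp (ℓ * (ε * ((m : ℝ) - s) - s)) * (Nm ℓ L a p * Nm ℓ L a q) ∧
  Nm ℓ L a (Dm L B e c m p q) ≤
    2 * k * cB ε ℓ C * Real.exp (ℓ * (ε * ((m : ℝ) - s) - s)) * (Nm ℓ L a p * Nm ℓ L a q)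

/-- **DmB.** The terms `D_m` for `a ≤ m < s`.

Proof.  As in `S_DmA`, but by `BmC` with `m' = s ≥ m + 1`: `N_s (b_m p' q') ≤ c_B e^{-ℓm} N_m p' N_m q'`.  `N_m (P_i p) ≤ N_a (P_i p) ≤ N_a p` (`Pin.Nm_anti`, `a ≤ m`), `N_m p ≤ N_a p`.
`N_s`: `σ_i |d_i| ≤ N_s (b_m p q) + N_s (b_m (P_i p) (P_i q)) ≤ 2 c_B e^{-ℓm} N_a p N_a q`.
`N_a`: `N_m (p - P_i p) ≤ e^{(1+ε)ℓ(s-m)} N_s (p - P_i p) ≤ e^{(1+ε)ℓ(s-m)} σ_i N_a p` (`Pin.Nm_le_exp`, `R_σ`), so `σ_i |d_i| ≤ 2 c_B e^{-ℓm} e^{(1+ε)ℓ(s-m)} σ_i N_a p N_a q`; divide by `σ_i`. -/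
def S_DmB : Prop := ∀ (k : ℕ) (ε ℓ C : ℝ) (L : ℕ → EE k ≃L[ℂ] EE k)
  (B : ℕ → EE k →L[ℂ] EE k →L[ℂ] EE k), Pin ε ℓ L → 1 ≤ C → BmC ε ℓ C L B →
  ∀ (a s : ℕ) (e : Fin k → EE k) (c : Fin k → EE k →L[ℂ] ℂ) (σ : Fin k → ℝ), SB ℓ L a s e c σ → PrC ℓ L a s e c σ →
  ∀ m : ℕ, a ≤ m → m < s → ∀ p q : EE k,
  Nm ℓ L s (Dm L B e c m p q) ≤
    2 * k * cB ε ℓ C * Real.exp (-(ℓ * m)) * (Nm ℓ L a p * Nm ℓ L a q) ∧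
  Nm ℓ L a (Dm L B e c m p q) ≤
    2 * k * cB ε ℓ C * Real.exp (ℓ * ((1 + ε) * ((s : ℝ) - m) - m)) * (Nm ℓ L a p * Nm ℓ L a q)

/-- The constant `c_D`. -/
noncomputable def cD (k : ℕ) (ε ℓ C : ℝ) : ℝ := 2 * (k + 1) * cB ε ℓ C * Real.exp ((1 + ε) * ℓ)

/-- **DmE.** The key estimate.  (Uses `S_DmA`, `S_DmB`, in the form of their conclusions for the given sequence.)

Proof.  `X = 2 k c_B N_a p N_a q`, `D = D_m p q`, `t' = t + n`.  From `Blk`: `a ≤ t ≤ s ≤ t'`, `ε t' ≤ (1-κ) t` (from `c1`, `c2`).  Let `m' ≤ t'`; claim `e^{εℓm'} N_{m'} D ≤ X e^{(1+ε)ℓ} e^{-κℓt}` (`rho_le_iff`).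
Case A, `m ≥ s` (`S_DmA`): `N_s D`, `N_a D ≤ X e^{ℓ(ε(m-s)-s)}`.  (A1) `m' ≥ s`: `e^{εℓm'} N_{m'} D ≤ e^{εℓt'} N_s D`, exponent `ε t' + ε (m-s) - s ≤ 2 ε t' - (1+ε) s ≤ -κ t` (`c1`).  (A2) `a ≤ m' < s`: `≤ e^{εℓs} N_a D`, exponent
`ε s + ε (m-s) - s = ε m - s ≤ ε t' - t ≤ -κ t`.  (A3) `m' < a`: `N_{m'} D ≤ e^{(1+ε)ℓ(a-m')} N_a D`, exponent `ε m' + (1+ε)(a-m') + ε(m-s) - s ≤ (1+ε) a + ε (m-s) - s ≤ ε t + (1+ε) + ε t' - (1+ε) s ≤ (1+ε) - κ t`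
(`a_le`, `t ≤ t'`, `c1`).
Case B, `m < s` (`S_DmB`, `a ≤ t ≤ m`): `N_s D ≤ X e^{-ℓm}`, `N_a D ≤ X e^{ℓ((1+ε)(s-m)-m)}`.  (B1) `m' ≥ s`: exponent `ε t' - m ≤ ε t' - t ≤ -κ t`.  (B2) `m ≤ m' < s`: `N_{m'} D ≤ e^{(1+ε)ℓ(s-m')} N_s D`, exponent
`ε m' + (1+ε)(s-m') - m = (1+ε) s - m' - m ≤ (1+ε) s - 2 t ≤ -κ t` (`c2`).  (B3) `a ≤ m' < m`: `N_{m'} D ≤ N_a D`, exponent `ε m' + (1+ε)(s-m) - m ≤ ε m + (1+ε)(s-m) - m = (1+ε) s - 2 m ≤ -κ t`.  (B4) `m' < a`: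
`N_{m'} D ≤ e^{(1+ε)ℓ(a-m')} N_a D`, exponent `ε m' + (1+ε)(a-m') + (1+ε)(s-m) - m ≤ (1+ε) a + (1+ε)(s-m) - m ≤ ε t + (1+ε) + (1+ε)(s-t) - t = (1+ε) + (1+ε) s - 2 t ≤ (1+ε) - κ t`. -/
def S_DmE : Prop := S_DmA → S_DmB → ∀ (k : ℕ) (ε ℓ C : ℝ) (L : ℕ → EE k ≃L[ℂ] EE k)
  (B : ℕ → EE k →L[ℂ] EE k →L[ℂ] EE k), Pin ε ℓ L → 1 ≤ C → BmC ε ℓ C L B →
  ∀ (κ : ℝ) (a t s n : ℕ) (e : Fin k → EE k) (c : Fin k → EE k →L[ℂ] ℂ) (σ : Fin k → ℝ), Blk ε κ a t s n →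
  SB ℓ L a s e c σ → PrC ℓ L a s e c σ → ∀ m : ℕ, t ≤ m → m < t + n → ∀ p q : EE k,
  rho ε ℓ L (t + n) (Dm L B e c m p q) ≤
    cD k ε ℓ C * Real.exp (-(κ * ℓ * t)) * (Nm ℓ L a p * Nm ℓ L a q)

/-- The conclusion of `S_DmE` for one block. -/
def DmC {k : ℕ} (ε ℓ C κ : ℝ) (L : ℕ → EE k ≃L[ℂ] EE k) (B : ℕ → EE k →L[ℂ] EE k →L[ℂ] EE k)
    (a t n : ℕ) (e : Fin k → EE k) (c : Fin k → EE k →L[ℂ] ℂ) : Prop :=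
  ∀ m : ℕ, t ≤ m → m < t + n → ∀ p q : EE k,
  rho ε ℓ L (t + n) (Dm L B e c m p q) ≤
    cD k ε ℓ C * Real.exp (-(κ * ℓ * t)) * (Nm ℓ L a p * Nm ℓ L a q)

end Pool.Agent.Lib.BedG
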