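import Pool.Agent.Lib.BedG.SpecL

/-!
# MP_6f050a_an, theorem G, part N: the map of a block is close to the automorphism; part U: errors are pulled back
without loss; part G: growth

Every task: prove `theorem sX : S_X` (namespace `Pool.Agent.Lib.BedG`) in the file named in the task; auxiliary lemmas in the
namespace `Pool.Agent.Lib.BedG.sXAux`.  All proofs are complete in the docstrings.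

Notation of the proofs: as in `SpecL.lean`; `ρ_t = rho ε ℓ L t`, `sg = sg ε ℓ L t n`, `h_m z = f m z - L m z`, `x_i = orbE f t i (Λ_t w)`,
`W_i = Wo L f t w i = Λ_{t+i}⁻¹ x_i`, `t' = t + n`.
-/

set_option autoImplicit false

open scoped Topology
open Set Filter Metric

namespace Pool.Agent.Lib.BedG

/-! ## Part N -/

/-- **Orb.** Orbits: basic facts.

Proof.  As `BedD.sOrb` (`BedD/Orb.lean`).  Induction on `i` (`orbE_succ`), chain rule, `contr`. -/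
def S_Orb : Prop := ∀ (k : ℕ) (ε ℓ r C₀ : ℝ) (f : ℕ → EE k → EE k) (L : ℕ → EE k ≃L[ℂ] EE k), SeqG ε ℓ r C₀ f L →
  ∀ m i : ℕ, DifferentiableOn ℂ (orbE f m i) (ball 0 r) ∧ MapsTo (orbE f m i) (ball 0 r) (ball 0 r) ∧
  InjOn (orbE f m i) (ball 0 r) ∧ (∀ z ∈ ball (0 : EE k) r, ∀ w, fderiv ℂ (orbE f m i) z w = 0 → w = 0) ∧
  ∀ z ∈ ball (0 : EE k) r, ‖orbE f m i z‖ ≤ Real.exp (-(ℓ / 2)) ^ i * ‖z‖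

/-- **OBd.** The orbits decay like `e^{-ℓ i}`.  (Uses `S_Orb`.)

Proof.  `y_i = ‖orbE f m i z‖ ≤ e^{-ℓi/2} r`.  `f 0 = 0` (`contr`), so `‖h w‖ ≤ C₀ ‖w‖²` (`quad` with `0`) and `y_{i+1} ≤ e^{-ℓ} y_i + C₀ y_i² ≤ e^{-ℓ} y_i (1 + M q^i) ≤ e^{-ℓ} y_i exp (M q^i)`, `M = C₀ e^ℓ r`, `q = e^{-ℓ/2} < 1`.  So
`y_i ≤ e^{-ℓi} exp (M ∑_{j<i} q^j) y_0` and `∑_{j<i} q^j ≤ 1/(1-q)`.  `C = exp (M/(1-q)) ≥ 1`. -/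
def S_OBd : Prop := S_Orb → ∀ (k : ℕ) (ε ℓ r C₀ : ℝ) (f : ℕ → EE k → EE k) (L : ℕ → EE k ≃L[ℂ] EE k), SeqG ε ℓ r C₀ f L →
  ∃ C : ℝ, 1 ≤ C ∧ ∀ (m i : ℕ) (z : EE k), ‖z‖ < r → ‖orbE f m i z‖ ≤ C * Real.exp (-(ℓ * i)) * ‖z‖

/-- **Wdf.** The orbits in the linear coordinates.  (Uses `S_OBd`.)

Proof.  `C₁` from `S_OBd`, `X = N_t w`, `‖Λ_t w‖ = e^{-ℓt} X` (`norm_La`), so `‖x_i‖ ≤ C₁ e^{-ℓi} e^{-ℓt} X`: the first claim.  `Λ_{t+i+1} (W_{i+1} - W_i) = h_{t+i} x_i` (`La_Wo_sub`) and `‖h x‖ ≤ C₀ ‖x‖²`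
(`‖x_i‖ < r` by `S_Orb`: `quad` with `0`, `f 0 = 0`), so `N_{t+i+1} (W_{i+1} - W_i) ≤ e^{ℓ(t+i+1)} C₀ C₁² e^{-2ℓ(t+i)} X² = C₀ C₁² e^ℓ e^{-ℓ(t+i)} X²`.  Third: `W_i - w = ∑_{j<i} (W_{j+1} - W_j)` (`Wo_zero`), and
`N_{t+i} ≤ N_{t+j+1}` for `j < i`, so it is at most `C₀ C₁² e^ℓ X² e^{-ℓt} ∑_j e^{-ℓj} ≤ C₀ C₁² e^ℓ/(1-e^{-ℓ}) X² e^{-ℓt}`. -/
def S_Wdf : Prop := S_Orb → S_OBd → ∀ (k : ℕ) (ε ℓ r C₀ : ℝ) (f : ℕ → EE k → EE k) (L : ℕ → EE k ≃L[ℂ] EE k), SeqG ε ℓ r C₀ f L →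
  ∃ C : ℝ, 1 ≤ C ∧ ∀ (t : ℕ) (w : EE k), ‖La L t w‖ < r → ∀ i : ℕ,
    ‖orbE f t i (La L t w)‖ ≤ C * Real.exp (-(ℓ * (t + i))) * Nm ℓ L t w ∧
    Nm ℓ L (t + i + 1) (Wo L f t w (i + 1) - Wo L f t w i) ≤ C * Real.exp (-(ℓ * (t + i))) * Nm ℓ L t w ^ 2 ∧
    Nm ℓ L (t + i) (Wo L f t w i - w) ≤ C * Real.exp (-(ℓ * t)) * Nm ℓ L t w ^ 2

/-- The conclusion of `S_Wdf` for one sequence, with the constant `C`. -/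
def WdC {k : ℕ} (ℓ r C : ℝ) (f : ℕ → EE k → EE k) (L : ℕ → EE k ≃L[ℂ] EE k) : Prop :=
  ∀ (t : ℕ) (w : EE k), ‖La L t w‖ < r → ∀ i : ℕ,
    ‖orbE f t i (La L t w)‖ ≤ C * Real.exp (-(ℓ * (t + i))) * Nm ℓ L t w ∧
    Nm ℓ L (t + i + 1) (Wo L f t w (i + 1) - Wo L f t w i) ≤ C * Real.exp (-(ℓ * (t + i))) * Nm ℓ L t w ^ 2 ∧
    Nm ℓ L (t + i) (Wo L f t w i - w) ≤ C * Real.exp (-(ℓ * t)) * Nm ℓ L t w ^ 2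

/-- **EmE.** The increments of the orbit and the quadratic terms.  (`S_Orb` gives `‖x_i‖ < r`.)

Proof.  `m = t + i`, `y = Λ_m w`, `x = x_i = Λ_m W_i` (`La_Wo`).  `Λ_{m+1} (W_{i+1} - W_i - b_m w w) = h_m x - B m y y = (h_m x - B m x x) + B m (x - y) x + B m y (x - y)` (`La_Wo_sub`, `La_bm`).
`‖x‖ ≤ C₁ R e^{-ℓm}`, `‖y‖ = e^{-ℓm} N_m w ≤ R e^{-ℓm}` (`Pin.Nm_anti`), `‖x - y‖ = e^{-ℓm} N_m (W_i - w) ≤ C₁ R² e^{-ℓt-ℓm}`.  So the norm is at most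
`C C₁³ R³ e^{-3ℓm} + C C₁ R² e^{-ℓt-ℓm} (C₁ + 1) R e^{-ℓm} ≤ 3 C C₁³ R³ e^{-2ℓm-ℓt}` (`m ≥ t`, `C₁ ≥ 1`), and `N_{m+1}` multiplies with `e^{ℓ(m+1)}`. -/
def S_EmE : Prop := S_Orb → ∀ (k : ℕ) (ε ℓ r C₀ C C₁ : ℝ) (f : ℕ → EE k → EE k) (L : ℕ → EE k ≃L[ℂ] EE k)
  (B : ℕ → EE k →L[ℂ] EE k →L[ℂ] EE k), SeqG ε ℓ r C₀ f L → Qd r C f L B → 1 ≤ C₁ → WdC ℓ r C₁ f L →
  ∀ (t : ℕ) (w : EE k) (R : ℝ), ‖La L t w‖ < r → 1 ≤ R → Nm ℓ L t w ≤ R → ∀ i : ℕ,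
    Nm ℓ L (t + i + 1) (Wo L f t w (i + 1) - Wo L f t w i - bm L B (t + i) w w) ≤
      3 * C * C₁ ^ 3 * Real.exp ℓ * R ^ 3 * Real.exp (-(ℓ * (2 * t + i)))

/-- **EmR.** From the time `m + 1` to all times.

Proof.  `m = t + i`.  For `m' ≤ m + 1`: `e^{εℓm'} N_{m'} E ≤ e^{εℓm'} e^{(1+ε)ℓ(m+1-m')} Y e^{-ℓ(t+m)} = e^{(1+ε)ℓ} Y e^{ℓ(ε m - m' - t)} ≤ e^{(1+ε)ℓ} Y e^{ℓ(ε (t+n) - t)} ≤ e^{(1+ε)ℓ} Y e^{-κℓt}` (`Pin.Nm_le_exp`, `i < n`).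
For `m + 1 ≤ m' ≤ t + n`: `e^{εℓ(t+n)} Y e^{-ℓ(t+m)}`, exponent `ε(t+n) - t - m ≤ -κ t`. -/
def S_EmR : Prop := ∀ (k : ℕ) (ε ℓ κ Y : ℝ) (L : ℕ → EE k ≃L[ℂ] EE k), Pin ε ℓ L → 0 ≤ Y →
  ∀ (t n i : ℕ) (E : EE k), ε * ((t : ℝ) + n) ≤ (1 - κ) * t → i < n →
    Nm ℓ L (t + i + 1) E ≤ Y * Real.exp (-(ℓ * (2 * t + i))) →
    rho ε ℓ L (t + n) E ≤ Real.exp ((1 + ε) * ℓ) * Y * Real.exp (-(κ * ℓ * t))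

/-- **Near.** The map of the block is close to the automorphism.  (Uses the conclusions of the previous lemmas.)

Proof.  `Th L f t n w = W_n = w + ∑_{i<n} (W_{i+1} - W_i)` and `Sb L B e c t n w = w + ∑_{i<n} b_{t+i} w w - ∑_{i<n} D_{t+i} w w` (`Th_eq`, `Wo_zero`, `Sb_eq`), so the difference is `∑_{i<n} (E_i + D_{t+i} w w)`,
`E_i = W_{i+1} - W_i - b_{t+i} w w`.  `N_t w ≤ N_a w ≤ R`, so by `S_EmE` and `S_EmR` (`Y = 3 C C₁³ e^ℓ R³`; `ε (t+n) ≤ (1-κ) t` from `c1`, `c2`) `ρ_{t'} E_i ≤ 3 C C₁³ e^{(2+ε)ℓ} R³ e^{-κℓt}`, and `ρ_{t'} (D w w) ≤ c_D R² e^{-κℓt}` (`DmC`).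
`n ≤ t + n`, `R² ≤ R³`; `C' = 3 C C₁³ e^{(2+ε)ℓ} + c_D`. -/
def S_Near : Prop := S_Orb → S_EmE → S_EmR → ∀ (k : ℕ) (ε ℓ r C₀ C C₁ : ℝ) (f : ℕ → EE k → EE k) (L : ℕ → EE k ≃L[ℂ] EE k)
  (B : ℕ → EE k →L[ℂ] EE k →L[ℂ] EE k), SeqG ε ℓ r C₀ f L → Qd r C f L B → 1 ≤ C₁ → WdC ℓ r C₁ f L →
  ∃ C' : ℝ, 1 ≤ C' ∧ ∀ (κ : ℝ) (a t s n : ℕ) (e : Fin k → EE k) (c : Fin k → EE k →L[ℂ] ℂ), Blk ε κ a t s n →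
    (∀ z, ∑ i, c i z • e i = z) → DmC ε ℓ C κ L B a t n e c →
    ∀ (R : ℝ) (w : EE k), 1 ≤ R → Nm ℓ L a w ≤ R → ‖La L t w‖ < r →
    rho ε ℓ L (t + n) (Th L f t n w - Sb L B e c t n w) ≤
      C' * ((t : ℝ) + n) * R ^ 3 * Real.exp (-(κ * ℓ * t))

/-! ## Part U -/

/-- **UQ.** The difference of the quadratic map at two points.

Proof.  `ΔQ = ∑_{j<n} (b_m w u + b_m u w + b_m u u)`, `m = t + j` (`QQ_diff`).  `N_m w ≤ N_a w ≤ R`, `N_m u ≤ R`, and `N_m u ≤ e^{-εℓm} sg u` (`le_sg`, as `t ≤ m ≤ t + n`), so every product `N_m p N_m q` of the three terms is at most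
`R e^{-εℓm} sg u`.  By `BmC`: for `m' ≤ m + 1`: `e^{εℓm'} N_{m'} (b_m p q) ≤ c_B R e^{ℓ(ε m' + (1+ε)(m-m') - m - ε m)} sg u = c_B R e^{-ℓm'} sg u`; for `m + 1 ≤ m' ≤ t + n`:
`e^{εℓm'} N_{m'} (b_m p q) ≤ c_B R e^{ℓ(ε (t+n) - (1+ε) t)} sg u ≤ c_B R e^{-κℓt} sg u` (`ε (t+n) ≤ (1-κ) t`, from `c1`, `c2`).
First claim (`t ≤ m' ≤ t + n`): `e^{-ℓm'} ≤ e^{-ℓt} ≤ e^{-κℓt}` (`κ ≤ 1`: from `0 ≤ ε (t+n) ≤ (1-κ) t`, `t ≥ 1`).  Second claim (`m' ≤ t`): `e^{-ℓm'} ≤ 1`.  Sum over `j < n ≤ t + n`. -/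
def S_UQ : Prop := ∀ (k : ℕ) (ε ℓ C : ℝ) (L : ℕ → EE k ≃L[ℂ] EE k)
  (B : ℕ → EE k →L[ℂ] EE k →L[ℂ] EE k), Pin ε ℓ L → 1 ≤ C → BmC ε ℓ C L B →
  ∀ (κ : ℝ) (a t s n : ℕ), Blk ε κ a t s n → ∀ (R : ℝ) (w u : EE k), 1 ≤ R → Nm ℓ L a w ≤ R → Nm ℓ L a u ≤ R →
    sg ε ℓ L t n (QQ L B t n (w + u) - QQ L B t n w) ≤
      3 * cB ε ℓ C * ((t : ℝ) + n) * R * Real.exp (-(κ * ℓ * t)) * sg ε ℓ L t n u ∧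
    rho ε ℓ L t (QQ L B t n (w + u) - QQ L B t n w) ≤
      3 * cB ε ℓ C * ((t : ℝ) + n) * R * sg ε ℓ L t n u

/-- **UD.** The difference of the `D`-terms at two points.

Proof.  `DD_diff`, `DmC` and `rho_add_le`: each of the three terms has `ρ_{t'}` at most `c_D e^{-κℓt} R N_a u` (`N_a w ≤ R`, `N_a u ≤ R`); sum over `j < n ≤ t + n`. -/
def S_UD : Prop := ∀ (k : ℕ) (ε ℓ C κ : ℝ) (L : ℕ → EE k ≃L[ℂ] EE k)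
  (B : ℕ → EE k →L[ℂ] EE k →L[ℂ] EE k), Pin ε ℓ L → 1 ≤ C →
  ∀ (a t n : ℕ) (e : Fin k → EE k) (c : Fin k → EE k →L[ℂ] ℂ), DmC ε ℓ C κ L B a t n e c →
  ∀ (R : ℝ) (w u : EE k), 1 ≤ R → Nm ℓ L a w ≤ R → Nm ℓ L a u ≤ R →
    rho ε ℓ L (t + n) (DD L B e c t n (w + u) - DD L B e c t n w) ≤
      3 * cD k ε ℓ C * ((t : ℝ) + n) * R * Real.exp (-(κ * ℓ * t)) * Nm ℓ L a u

/-- **UP.** The pull-back of an error, with an a priori bound.  (Uses `S_UQ`, `S_UD`.)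

Proof.  `c₀ = 3 c_B + 3 c_D ≥ 1`, `C' = 16 c₀²`, `N = t + n ≥ 1`, `B' = c₀ N R ≥ 1`, `δ = c₀ N R e^{-κℓt}`; so `δ B' ≤ 1/16` (hypothesis) and `δ ≤ 1/16`.  By `Sb_eq`: `u = ζ - ΔQ + ΔD`.  Let `q = sg u`, `p = ρ_t u`, `z = ρ_{t'} ζ`.
`N_a u ≤ p` (`Nm_le_rho`, `a ≤ t`), `ρ_t ΔD ≤ ρ_{t'} ΔD`, `sg ΔD ≤ ρ_{t'} ΔD` (`rho_mono`, `sg_le_rho`), `ρ_{t'} ΔD ≤ δ p`.  So `q ≤ z + δ q + δ p` and `p ≤ z + B' q + δ p` (`sg_add_le`, `sg_neg`, `rho_add_le`, `rho_neg`).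
Hence `q ≤ 2 z + 2 δ p` and `p ≤ 2 z + 2 B' q ≤ 2 z + 4 B' z + 4 B' δ p ≤ (2 + 4 B') z + p/4`, `p ≤ 8 B' z ≤ C' N R z`. -/
def S_UP : Prop := S_UQ → S_UD → ∀ (k : ℕ) (ε ℓ C : ℝ), ∃ C' : ℝ, 1 ≤ C' ∧ ∀ (L : ℕ → EE k ≃L[ℂ] EE k)
  (B : ℕ → EE k →L[ℂ] EE k →L[ℂ] EE k), Pin ε ℓ L → 1 ≤ C → BmC ε ℓ C L B →
  ∀ (κ : ℝ) (a t s n : ℕ) (e : Fin k → EE k) (c : Fin k → EE k →L[ℂ] ℂ), Blk ε κ a t s n →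
    (∀ z, ∑ i, c i z • e i = z) → DmC ε ℓ C κ L B a t n e c →
    ∀ R : ℝ, 1 ≤ R → C' * ((t : ℝ) + n) ^ 2 * R ^ 2 * Real.exp (-(κ * ℓ * t)) ≤ 1 →
    ∀ w u ζ : EE k, Nm ℓ L a w ≤ R → Nm ℓ L a u ≤ R → Sb L B e c t n (w + u) = Sb L B e c t n w + ζ →
    rho ε ℓ L t u ≤ C' * ((t : ℝ) + n) * R * rho ε ℓ L (t + n) ζ

/-- **UI.** The pull-back of an error.  (Uses `S_UP`, `S_TrI`.)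

Proof.  `C'` from `S_UP`, `A = C' (t+n) R`.  `T = Tb L B e c t n` is continuous and inverse to `S = Sb L B e c t n` (`S_TrI` with `Q = QQ L B t n`, `differentiable_QQ`).  For `θ ∈ [0, 1]` let `u θ = T (S w + θ • ζ) - w`; `u 0 = 0`,
`S (w + u θ) = S w + θ • ζ`, and `φ θ = N_a (u θ)` is continuous (`continuous_Nm`).  If `φ θ ≤ R`, then by `S_UP` `φ θ ≤ ρ_t (u θ) ≤ A ρ_{t'} (θ • ζ) ≤ A ρ_{t'} ζ ≤ 1` (`Nm_le_rho`, `rho_smul`).  So `φ` does not take values in `(1, R]`, and by the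
intermediate value theorem (`φ 0 = 0`, `R ≥ 2`; if `φ 1 > R` it would take the value `2`) `φ 1 ≤ R`, and `S_UP` for `u 1`, `ζ` is the claim. -/
def S_UI : Prop := S_UP → S_TrI → S_UQ → S_UD → ∀ (k : ℕ) (ε ℓ C : ℝ), ∃ C' : ℝ, 1 ≤ C' ∧ ∀ (L : ℕ → EE k ≃L[ℂ] EE k)
  (B : ℕ → EE k →L[ℂ] EE k →L[ℂ] EE k), Pin ε ℓ L → 1 ≤ C → BmC ε ℓ C L B →
  ∀ (κ : ℝ) (a t s n : ℕ) (e : Fin k → EE k) (c : Fin k → EE k →L[ℂ] ℂ), Blk ε κ a t s n →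
    (∀ z, ∑ i, c i z • e i = z) → (∀ i j, c i (e j) = if i = j then 1 else 0) → DmC ε ℓ C κ L B a t n e c →
    ∀ R : ℝ, 2 ≤ R → C' * ((t : ℝ) + n) ^ 2 * R ^ 2 * Real.exp (-(κ * ℓ * t)) ≤ 1 →
    ∀ w ζ : EE k, Nm ℓ L a w ≤ R → C' * ((t : ℝ) + n) * R * rho ε ℓ L (t + n) ζ ≤ 1 →
    rho ε ℓ L t (Tb L B e c t n (Sb L B e c t n w + ζ) - w) ≤ C' * ((t : ℝ) + n) * R * rho ε ℓ L (t + n) ζ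

/-! ## Part G -/

/-- **GS.** Growth of the automorphism of a block.

Proof.  `Sb_eq`: `N_{a'} (S w) ≤ N_{a'} w + ∑_{j<n} N_{a'} (b_m w w) + ∑_{j<n} N_{a'} (D_m w w)`, `m = t + j < t + n`.  `N_{a'} w ≤ N_a w` (`a ≤ a'`).  `b`: if `a' ≤ m + 1`: `≤ c_B e^{ℓ((1+ε)(m-a')-m)} (N_m w)² ≤ c_B (N_a w)²`, as
`(1+ε)(m-a') - m = ε m - (1+ε) a' ≤ ε (t+n) - (1+ε) a' ≤ 0` and `a ≤ t ≤ m`; if `a' > m + 1`: `≤ c_B e^{-ℓm} (N_m w)²`.  `D`: `N_{a'} ≤ ρ_{t'}` (`Nm_le_rho`), `DmC`, `e^{-κℓt} ≤ 1`.  So with `y = N_a w`, `N = t + n ≥ 1`: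
`N_{a'} (S w) ≤ y + (c_B + c_D) N y² ≤ C' N (1+y)²`, `C' = 1 + c_B + c_D`. -/
def S_GS : Prop := ∀ (k : ℕ) (ε ℓ C : ℝ), ∃ C' : ℝ, 1 ≤ C' ∧ ∀ (L : ℕ → EE k ≃L[ℂ] EE k)
  (B : ℕ → EE k →L[ℂ] EE k →L[ℂ] EE k), Pin ε ℓ L → 1 ≤ C → BmC ε ℓ C L B →
  ∀ (κ : ℝ) (a t s n a' : ℕ) (e : Fin k → EE k) (c : Fin k → EE k →L[ℂ] ℂ), Blk ε κ a t s n →
    (∀ z, ∑ i, c i z • e i = z) → DmC ε ℓ C κ L B a t n e c → a ≤ a' → a' ≤ t + n →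
    ε * ((t : ℝ) + n) ≤ (1 + ε) * a' → ∀ w : EE k,
    Nm ℓ L a' (Sb L B e c t n w) ≤ C' * ((t : ℝ) + n) * (1 + Nm ℓ L a w) ^ 2

/-- **GB.** The orbits in the linear coordinates grow slowly.

Proof.  `X = N_t w`, `W_n = w + ∑_{i<n} (W_{i+1} - W_i)` (`Wo_zero`), `N_a w ≤ ‖w‖`.  `m = t + i`, `i < n`: if `a ≤ m + 1`: `N_a (W_{i+1} - W_i) ≤ e^{(1+ε)ℓ(m+1-a)} C₁ e^{-ℓm} X² = C₁ e^{(1+ε)ℓ} X² e^{ℓ(ε m - (1+ε) a)} ≤ C₁ e^{(1+ε)ℓ} X²`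
(`ε m ≤ ε (t+n) ≤ (1+ε) a`); if `a > m + 1`: `≤ C₁ e^{-ℓm} X²`.  So `N_a (W_n) ≤ ‖w‖ + n C₁ e^{(1+ε)ℓ} X²`. -/
def S_GB : Prop := ∀ (k : ℕ) (ε ℓ r C₁ : ℝ) (f : ℕ → EE k → EE k) (L : ℕ → EE k ≃L[ℂ] EE k), Pin ε ℓ L → 1 ≤ C₁ → WdC ℓ r C₁ f L →
  ∀ (t : ℕ) (w : EE k), ‖La L t w‖ < r → ∃ M : ℝ, 0 ≤ M ∧ ∀ n a : ℕ, ε * ((t : ℝ) + n) ≤ (1 + ε) * a →
    Nm ℓ L a (Wo L f t w n) ≤ M * (1 + n)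

/-- **GA.** Doubling is slower than the growth of the times.

Proof.  `Y j = log (1 + y j) ≥ 0`; `1 + y (j+1) ≤ (1 + C) t_{j+1} (1 + y j)²` (`t_{j+1} ≥ 1`), so `Y (j+1) ≤ log ((1+C) t_{j+1}) + 2 Y j`.  `z j = Y j / t_j`: `z (j+1) ≤ η j + (2/K₁) z j` with `η j = log ((1+C) t_{j+1}) / t_{j+1} → 0` (`t_j → ∞`),
`2/K₁ < 1`; so `z j → 0` (let `η j ≤ η` for `j ≥ j₀`; then `z (j₀+i) ≤ (2/K₁)^i z j₀ + η/(1-2/K₁)`; or limsup).  So `Y j ≤ (δ/2) t_j` eventually, and `y j ≤ e^{(δ/2) t_j} ≤ e^{δ t_j}/4` as soon as `e^{(δ/2) t_j} ≥ 4`. -/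
def S_GA : Prop := ∀ (C K₁ δ : ℝ) (t y : ℕ → ℝ), 0 < C → 2 < K₁ → 0 < δ → (∀ j, 1 ≤ t j) → (∀ j, K₁ * t j ≤ t (j + 1)) → (∀ j, 0 ≤ y j) →
  (∀ j, y (j + 1) ≤ C * t (j + 1) * (1 + y j) ^ 2) → ∀ᶠ j in atTop, y j ≤ Real.exp (δ * t j) / 4

end Pool.Agent.Lib.BedG
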