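import Pool.Agent.Lib.BedG.SpecT

/-!
# MP_6f050a_an, theorem G, part E: the times, the numbers, the train, the basin; part R: reduction

Every task: prove `theorem sX : S_X` (namespace `Pool.Agent.Lib.BedG`) in the file named in the task; auxiliary lemmas in the
namespace `Pool.Agent.Lib.BedG.sXAux`.  All proofs are complete in the docstrings.
-/

set_option autoImplicit false

open scoped Topology
open Set Filter Metric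

namespace Pool.Agent.Lib.BedG

/-! ## Part E -/

/-- The times of the blocks. -/
structure Tms (ε κ K₁ K : ℝ) (t a s n : ℕ → ℕ) : Prop where
  succ : ∀ j, t (j + 1) = t j + n j
  blk : ∀ j, Blk ε κ (a j) (t j) (s j) (n j)
  low : ∀ j, K₁ * (t j : ℝ) ≤ t (j + 1)
  up : ∀ j, (t (j + 1) : ℝ) ≤ K * t j
  a_mono : ∀ j, a j ≤ a (j + 1)

/-- **EK.** The times.

Proof.  `K = 1 + 1/(2ε) > 2`, so `ε K = ε + 1/2`; `κ = (1-2ε)/4 ∈ (0, 1/4)`, `K₁ = (K+2)/2`.  Given `T` let `t 0` be a large natural number, `t (j+1) = ⌊K t j⌋` (`Nat.floor`), `a j = ⌈ε t j/(1+ε)⌉`, `s j = ⌊(2-κ) t j/(1+ε)⌋`, `n j = t (j+1) - t j`.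
Let `τ = t j ≥ t 0`.  `t (j+1) ≥ K τ - 1 ≥ K₁ τ` if `(K-K₁) τ ≥ 1`; in particular `t (j+1) ≥ 2 τ ≥ τ`, so the times increase and all inequalities of the form `τ ≥` constant need only be required for `t 0`.
`a_ge`, `a_le`: ceiling.  `a ≤ τ`: `ε τ/(1+ε) ≤ τ/3`, so `a ≤ τ/3 + 1 ≤ τ` if `τ ≥ 2`.  `a_mono`: `Nat.ceil_mono`.  `c2`: floor.  `c1`: `2 ε t(j+1) ≤ 2 ε K τ = (1+2ε) τ` and `(1+ε) s ≥ (2-κ) τ - (1+ε)`, so it suffices that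
`(1 - 2ε - 2κ) τ ≥ 1 + ε`, where `1 - 2ε - 2κ = (1-2ε)/2 > 0`.  `τ ≤ s`: `(2-κ) τ/(1+ε) ≥ τ + 1` iff `(1-κ-ε) τ ≥ 1 + ε`, and `1-κ-ε ≥ 1/4`.  `s ≤ t (j+1)`: `s ≤ 2 τ ≤ K₁ τ`. -/
def S_EK : Prop := ∀ ε : ℝ, 0 < ε → ε < 1 / 2 → ∃ κ K₁ K : ℝ, 0 < κ ∧ κ ≤ 1 ∧ 2 < K₁ ∧ K₁ < K ∧
  ∀ T : ℕ, ∃ t a s n : ℕ → ℕ, T ≤ t 0 ∧ Tms ε κ K₁ K t a s n

/-- **EL1.** Large numbers.

Proof.  Let `α = κ ℓ > 0`.  All claims are of the form `P τ ≤ e^{c τ}` or `e^{-cτ} < r` with `c > 0` and a polynomial `P`, using `τ' ≤ K τ`: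
(1) `e^{ατ/10} ≥ 8`.  (2) `e^{(κ/10-1)ℓτ} < r`.  (3) `4 C K² τ² ≤ e^{(4/5)ατ}`.  (4) `(1+R)² ≤ 4 R²`, `C τ' R³ e^{-ατ} ≤ 1 ≤ C τ' R²` (by (5) below), so the left side is at most `5 C τ' R² ≤ 5 C K τ e^{ατ/5} ≤ e^{αK₁τ/10} ≤ e^{ατ'/10}` as `K₁ > 2`.
(5) `C K τ ≤ e^{ατ/10}`.  (6) `2 C K τ ≤ e^{ατ/20}`; `1 ≤ C τ' (2R)` is clear. -/
def S_EL1 : Prop := ∀ C κ ℓ K₁ K r : ℝ, 1 ≤ C → 0 < κ → κ ≤ 1 → 0 < ℓ → 2 < K₁ → K₁ < K → 0 < r →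
  ∃ τ₀ : ℝ, 1 ≤ τ₀ ∧ ∀ τ τ' R R' : ℝ, τ₀ ≤ τ → K₁ * τ ≤ τ' → τ' ≤ K * τ →
    R = Real.exp (κ * ℓ / 10 * τ) → R' = Real.exp (κ * ℓ / 10 * τ') →
    8 ≤ R ∧ Real.exp (-(ℓ * τ)) * R < r ∧
    C * τ' ^ 2 * (2 * R) ^ 2 * Real.exp (-(κ * ℓ * τ)) ≤ 1 ∧
    C * τ' * (1 + R) ^ 2 + C * τ' * R ^ 3 * Real.exp (-(κ * ℓ * τ)) ≤ R' ∧
    C * τ' * R ^ 3 * Real.exp (-(κ * ℓ * τ)) ≤ Real.exp (-(3 / 5 * κ * ℓ * τ)) ∧
    1 ≤ C * τ' * (2 * R) ∧ C * τ' * (2 * R) ≤ Real.exp (3 / 20 * κ * ℓ * τ)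

/-- **EL2.** The products of the factors.

Proof.  `t l ≤ 2^{-(j-l)} t j` for `l ≤ j`, so `∑_{l ≤ j} t l ≤ 2 t j` (or by induction on `j`: `∑_{i ≤ l ≤ j} t l ≤ 2 t j - t i`...), and `∏ A l ≤ exp (3/20 κℓ ∑ t l) ≤ exp (3/10 κℓ t j)`.  So the product is at most `exp (-(3/10) κℓ t j)`.
`t j ≥ 2^j t 0`, so `(3/10) κℓ t j ≥ 2.1 * 2^j ≥ (j+3) log 2` (`2^j ≥ (j+3)/3`, `log 2 < 0.7`). -/
def S_EL2 : Prop := ∀ (κ ℓ : ℝ) (t e A : ℕ → ℝ), 0 < κ → 0 < ℓ → 7 ≤ κ * ℓ * t 0 → (∀ j, 2 * t j ≤ t (j + 1)) →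
  (∀ j, 0 ≤ e j ∧ e j ≤ Real.exp (-(3 / 5 * κ * ℓ * t j))) →
  (∀ j, 1 ≤ A j ∧ A j ≤ Real.exp (3 / 20 * κ * ℓ * t j)) →
  ∀ i j : ℕ, i ≤ j → e j * ∏ l ∈ Finset.Icc i j, A l ≤ (1 / 2) ^ (j + 3)

/-- **Th.** The maps of the blocks.  (Uses `S_Orb`.)

Proof.  `Th L f t n` is the composition of the linear isomorphism `Λ_t`, which maps `Dom r L t` onto `ball 0 r`, of `orbE f t n` (`S_Orb`) and of the linear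
isomorphism `Λ_{t+n}⁻¹`.  `maps`: `Λ_{t+n} (Th z) = orbE f t n (Λ_t z) ∈ ball 0 r`.  (Compare `BedD/Th.lean`.) -/
def S_Th : Prop := S_Orb → ∀ (k : ℕ) (ε ℓ r C₀ : ℝ) (f : ℕ → EE k → EE k) (L : ℕ → EE k ≃L[ℂ] EE k), SeqG ε ℓ r C₀ f L →
  ∀ t n : ℕ, IsOpen (Dom r L t) ∧ DifferentiableOn ℂ (Th L f t n) (Dom r L t) ∧
    MapsTo (Th L f t n) (Dom r L t) (Dom r L (t + n)) ∧ InjOn (Th L f t n) (Dom r L t) ∧
    ∀ z ∈ Dom r L t, ∀ w, fderiv ℂ (Th L f t n) z w = 0 → w = 0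

/-- **Cmp.** Compositions of the maps of the blocks.

Proof.  Induction on `i`: `Th L f (t l + N) n' (Wo L f (t l) z N) = Wo L f (t l) z (N + n')` (`La_Wo`, `orbE_add`). -/
def S_Cmp : Prop := ∀ (k : ℕ) (f : ℕ → EE k → EE k) (L : ℕ → EE k ≃L[ℂ] EE k) (t n : ℕ → ℕ), (∀ j, t (j + 1) = t j + n j) →
  ∀ (l i : ℕ) (z : EE k), ∃ N : ℕ, t (l + i) = t l + N ∧
    orbE (fun j => Th L f (t j) (n j)) l i z = Wo L f (t l) z N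

/-- All facts on one block, with the constant `C`. -/
structure BkC {k : ℕ} (ε ℓ r C κ : ℝ) (f : ℕ → EE k → EE k) (L : ℕ → EE k ≃L[ℂ] EE k) (a t n : ℕ)
    (S T : EE k → EE k) : Prop where
  S_diff : Differentiable ℂ S
  T_diff : Differentiable ℂ T
  ST : ∀ z, S (T z) = z
  TS : ∀ z, T (S z) = z
  near : ∀ (R : ℝ) (w : EE k), 1 ≤ R → Nm ℓ L a w ≤ R → ‖La L t w‖ < r →
    rho ε ℓ L (t + n) (Th L f t n w - S w) ≤ C * ((t : ℝ) + n) * R ^ 3 * Real.exp (-(κ * ℓ * t))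
  pull : ∀ R : ℝ, 2 ≤ R → C * ((t : ℝ) + n) ^ 2 * R ^ 2 * Real.exp (-(κ * ℓ * t)) ≤ 1 →
    ∀ w ζ : EE k, Nm ℓ L a w ≤ R → C * ((t : ℝ) + n) * R * rho ε ℓ L (t + n) ζ ≤ 1 →
    rho ε ℓ L t (T (S w + ζ) - w) ≤ C * ((t : ℝ) + n) * R * rho ε ℓ L (t + n) ζ
  grow : ∀ a' : ℕ, a ≤ a' → a' ≤ t + n → ε * ((t : ℝ) + n) ≤ (1 + ε) * a' → ∀ w : EE k,
    Nm ℓ L a' (S w) ≤ C * ((t : ℝ) + n) * (1 + Nm ℓ L a w) ^ 2

/-- All blocks, with the same constant. -/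
def BkA : Prop := ∀ (k : ℕ) (ε ℓ r C₀ : ℝ) (f : ℕ → EE k → EE k) (L : ℕ → EE k ≃L[ℂ] EE k), SeqG ε ℓ r C₀ f L →
  ∃ C : ℝ, 1 ≤ C ∧ ∀ (κ : ℝ) (a t s n : ℕ), Blk ε κ a t s n → ∃ S T : EE k → EE k, BkC ε ℓ r C κ f L a t n S T

/-- **MkA.** Collecting the facts on one block.

Proof.  `Qd` from `S_QdE`, `BmC` from `S_bmE`, `C₁` and `WdC` from `S_Wdf`, constants of `S_Near`, `S_UI`, `S_GS`; `C` = their maximum.  For a block: the basis from `S_SB`, `PrC` from `S_Prj`, `DmC` from `S_DmE`; `S = Sb L B e c t n`, `T = Tb L B e c t n`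
(`S_TrI` with `Q = QQ L B t n`, `differentiable_QQ`).  A larger constant makes the hypotheses stronger and the conclusions weaker. -/
def S_MkA : Prop := S_SVD → S_SB → S_Prj → S_TrI → S_Tay → S_QdE → S_bmE → S_DmA → S_DmB → S_DmE → S_Orb → S_OBd → S_Wdf → S_EmE → S_EmR →
  S_Near → S_UQ → S_UD → S_UP → S_UI → S_GS → BkA

/-- The times and the train for a pinched sequence. -/
def MkC : Prop := ∀ (k : ℕ) (ε ℓ r C₀ : ℝ) (f : ℕ → EE k → EE k) (L : ℕ → EE k ≃L[ℂ] EE k), SeqG ε ℓ r C₀ f L →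
  ∃ (t n : ℕ → ℕ) (S T : ℕ → EE k → EE k) (ν ρ : ℕ → EE k → ℝ) (R e A : ℕ → ℝ),
    (∀ j, t (j + 1) = t j + n j) ∧ (∀ j, 1 ≤ n j) ∧
    Trn (fun j => Dom r L (t j)) (fun j => Th L f (t j) (n j)) S T ν ρ R e A

/-- **MkB.** The maps of the blocks form a train.

Proof.  `κ, K₁, K` from `S_EK`, `C` from `BkA`, `τ₀` from `S_EL1`; `T ≥ τ₀`, `T ≥ 7/(κℓ)`, and the times from `S_EK` (`t j ≥ t 0 ≥ T` as `K₁ > 2`); `S j`, `T j` from `BkA`; `ν j = N_{a j}`, `ρ j = rho ε ℓ L (t j)`, `R j = exp (κℓ/10 t_j)`,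
`e j = C t_{j+1} R_j³ e^{-κℓt_j}`, `A j = C t_{j+1} (2 R_j)`; `t_{j+1} = t_j + n_j`.  `dom_of`: `‖Λ_t z‖ = e^{-ℓt} N_t z ≤ e^{-ℓt} N_a z ≤ e^{-ℓt} R < r`.  `near`: `BkC.near`.  `pull`: `BkC.pull` with `2 R_j`.  `prop`: `N_{a'} (Θ z) ≤ N_{a'} (S z) + ρ_{j+1} (Θ z - S z)`
(`Nm_le_rho`, `a' = a (j+1) ≤ t (j+1)`), `BkC.grow`, `BkC.near` and the fourth claim of `S_EL1`.  `small`: `S_EL2`.  `le_rho`: `norm_le_rho`.  `nu`: `Pin.isNu`.  The first five fields: `S_Th`.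
`S_orb`: `y l = N_{a l} (orbE S 0 l u)`, `y (l+1) ≤ C t_{l+1} (1 + y l)²` (`BkC.grow`, `orbE_succ`), `S_GA` with `δ = κℓ/10`.  `bdd`: `WdC` from `S_Wdf`, `S_Cmp` and `S_GB`: `ν (l+i) (orbE Θ l i z) ≤ M (1 + t_{l+i})`, which is eventually at most
`exp (κℓ/10 t_{l+i})/4` (`t_j → ∞`).  `1 ≤ n j` as `t (j+1) ≥ 2 t j > t j`. -/
def S_MkB : Prop := BkA → S_EK → S_EL1 → S_EL2 → S_Orb → S_OBd → S_Wdf → S_Th → S_Cmp → S_GB → S_GA → MkC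

/-- The theorem for pinched sequences of maps of `EE k`. -/
def SeqGC : Prop := ∀ (k : ℕ) (ε ℓ r C₀ : ℝ) (f : ℕ → EE k → EE k) (L : ℕ → EE k ≃L[ℂ] EE k), SeqG ε ℓ r C₀ f L → BasinG r f

/-- **SE.** The basin.  (Uses `MkC`, the train lemma, `S_Orb`.)  Compare `BedD/SE.lean`.

Proof.  Let `t`, `n` and the train be from `MkC`, `Φ` from the train lemma (`TrnC`).  `t` is strictly increasing, so `m ≤ t m`.  `Ψ m w = Φ m ((La L (t m))⁻¹ (orbE f m (t m - m) w))`; the argument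
is in `Dom r L (t m)` (`S_Orb`).  Compatibility: `Ψ (m+1) (f m w) = Φ (m+1) ((La L (t (m+1)))⁻¹ (orbE f (m+1) (t (m+1) - m - 1) (f m w)))`, and
`orbE f (m+1) (t (m+1) - m - 1) (f m w) = orbE f m (t (m+1) - m) w = orbE f (t m) (n m) (orbE f m (t m - m) w)` (`orbE_succ'`, `orbE_add`), so this is
`Φ (m+1) (Th L f (t m) (n m) y) = Φ m y`, `y = (La L (t m))⁻¹ (orbE f m (t m - m) w)`.  Differentiable, injective, immersion: compositions (`S_Orb`).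
Onto: `u = Φ l z`, `z ∈ Dom r L (t l)`, `w = La L (t l) z ∈ ball 0 r`.  Claim `Ψ (t l) w = Φ l z`: more generally, for `j ≥ l`, `Φ j ((La L (t j))⁻¹ (orbE f (t l) (t j - t l) w)) = Φ l z`
(induction on `j`, compatibility of `Φ`), for `j = t l ≥ l`. -/
def S_SE : Prop := MkC → (∀ (k : ℕ) (dom : ℕ → Set (EE k)) (Θ S T : ℕ → EE k → EE k) (ν ρ : ℕ → EE k → ℝ)
    (R e A : ℕ → ℝ), Trn dom Θ S T ν ρ R e A → TrnC dom Θ) → S_Orb → SeqGC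

/-! ## Part R -/

open scoped Manifold in
/-- **PD.** Translation of the condition (G).  Compare `BedD/PD.lean`.

Proof.  `lam' = lam^N < 1`, `mu' = mu^N`, `lam'^5 < mu'^2` (`N > 0`), `C' = C b / a`.  `mu^{Nq} a ‖Λ n z‖ ≤ mu^{Nq} nit (N n) (j z) ≤ C nit (N n + N q) (j z) ≤ C b ‖Λ (n+q) z‖` and
`a ‖Λ (n+q) z‖ ≤ nit (N n + N q) (j z) ≤ C lam^{Nq} nit (N n) (j z) ≤ C lam^{Nq} b ‖Λ n z‖` (`j z ∈ Ep` by `range`). -/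
def S_PD : Prop := ∀ (E : Type) [NormedAddCommGroup E] [NormedSpace ℂ E] [FiniteDimensional ℂ E] (X : Type) [MetricSpace X]
  [ChartedSpace E X] (nrm : (x : X) → TangentSpace 𝓘(ℂ, E) x → ℝ) (f : X ≃ X) (p : X)
  (Ep : Submodule ℂ (TangentSpace 𝓘(ℂ, E) p)) (N k : ℕ) (j : (Fin k → ℂ) →ₗ[ℂ] TangentSpace 𝓘(ℂ, E) p)
  (Λ : ℕ → (Fin k → ℂ) →L[ℂ] (Fin k → ℂ)) (a b : ℝ), Bed.Cmp nrm f p Ep N k j Λ a b → PtG nrm f p Ep → GCond k Λ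

/-- **QL.** The linear parts of `q` steps, for large `q`.  Compare `BedD/QL.lean` (`k = 2`).

Proof.  `Λ n = Bed.prodL A id n`, injective (`low`), hence bijective; let `A_{n,q} = A (n+q-1) ∘ ... ∘ A n`, so `Λ (n+q) = A_{n,q} Λ n` and for all `w` (write `w = Λ n z`)
`mu^q ‖w‖ ≤ C₁ ‖A_{n,q} w‖`, `‖A_{n,q} w‖ ≤ C₁ lam^q ‖w‖` (w.l.o.g. `C₁ ≥ 1`).  `‖io z‖ ≤ ‖z‖ ≤ (k+1) ‖io z‖` for `z ∈ EE k`.  Let `L n = io⁻¹ A_{qn,q} io`, so `‖L n z‖ ≤ (k+1) C₁ lam^q ‖z‖`,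
`‖L n z‖ ≥ mu^q/((k+1) C₁) ‖z‖`.  `ℓ = -log ((k+1) C₁ lam^q) = q |log lam| - log ((k+1) C₁) > 0` for large `q`.  As `lam^5 < mu^2` there is `x ∈ (2, 5/2)` with `-log mu < x (-log lam)`, `ε = x - 2`, and for large `q`
`x ℓ ≥ q (-log mu) + log ((k+1) C₁)`, that is `e^{-xℓ} ≤ mu^q/((k+1) C₁)`.
Quadratic estimate: for every `q` there is `C_q` with `‖(orb F n q z - A_{n,q} z) - (orb F n q z' - A_{n,q} z')‖ ≤ C_q (‖z‖ + ‖z'‖) ‖z - z'‖` on `ball 0 r`, for all `n`: induction on `q`,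
`y = orb F n q z`, `‖y‖ ≤ ‖z‖`, `‖y - y'‖ ≤ (1 + 2 C_q r) ‖z - z'‖`, `F y - A A_{n,q} z = (F y - A y) + A (y - A_{n,q} z)`, so `C_{q+1} = C (1 + 2 C_q r) + C_q` works
(`‖A‖ ≤ D < 1`, `‖A_{n,q}‖ ≤ 1`).  `C₀ = (k+1) C_q` (w.l.o.g. positive) for `qst F q n - L n` on `ball 0 r ⊆ EE k`, as `‖io z‖ ≤ ‖z‖`.  `r' ≤ r` with `e^{-ℓ} + C₀ r' ≤ e^{-ℓ/2}`: `contr`
(`qst F q n 0 = 0`).  `diff`, `inj`, `dinj`: compositions of the `F m` (which map `ball 0 r` into itself). -/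
def S_QL : Prop := ∀ (k : ℕ) (r D C c : ℝ) (F : ℕ → (Fin k → ℂ) → (Fin k → ℂ)) (A : ℕ → (Fin k → ℂ) →L[ℂ] (Fin k → ℂ)),
  Bed.SeqD k r D C c F A → GCond k (Bed.prodL A (ContinuousLinearMap.id ℂ (Fin k → ℂ))) →
  ∃ (q : ℕ) (ε ℓ r' C₀ : ℝ) (L : ℕ → EE k ≃L[ℂ] EE k), 0 < q ∧ r' ≤ r ∧ SeqG ε ℓ r' C₀ (qst F q) L

/-- **QB.** From the basin of the `q`-step maps to the basin of `F`.  Compare `BedD/QB.lean` (`k = 2`).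

Proof.  `‖io z‖ ≤ ‖z‖ ≤ (k+1) ‖io z‖`.  `Ψ` from `BasinG`.  `F m` maps `ball 0 r` into itself, `‖Bed.orb F m i z‖ ≤ D^i ‖z‖`.  Let `N₀` be such that `(k+1) D^i r < r'` for `i ≥ N₀`.  For every `m` let
`n(m) = m + N₀`; so `q n ≥ m + N₀` for `n ≥ n(m)`.  For `n ≥ n(m)` and `z ∈ ball 0 r` let `Ψ^n_m z = io (Ψ n (io⁻¹ (Bed.orb F m (q n - m) z)))`; the argument of `Ψ n` is in `ball 0 r'`; it does
not depend on `n ≥ n(m)` (compatibility of `Ψ` with `qst F q n`, as `Bed.orb F m (q (n+1) - m) z = Bed.orb F (q n) q (Bed.orb F m (q n - m) z)`).  `Ψ' m = Ψ^{n(m)}_m`.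
Compatibility: `Ψ' (m+1) (F m z) = Ψ^{n}_{m+1} (F m z) = Ψ^n_m z = Ψ' m z` with `n = n (m+1)`.  Differentiable, injective, immersion: compositions.  Onto: `u ∈ Fin k → ℂ`, `io⁻¹ u = Ψ n x`,
`x ∈ ball 0 r'`; `z = io x ∈ ball 0 r`, and `Ψ' (q n) z = io (Ψ n' (io⁻¹ (orb F (q n) (q n' - q n) z))) = io (Ψ n x) = u`, `n' = n (q n)` (compatibility of `Ψ`, `qst`). -/
def S_QB : Prop := ∀ (k : ℕ) (r D C c : ℝ) (F : ℕ → (Fin k → ℂ) → (Fin k → ℂ)) (A : ℕ → (Fin k → ℂ) →L[ℂ] (Fin k → ℂ)),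
  Bed.SeqD k r D C c F A → ∀ (q : ℕ) (r' : ℝ), 0 < q → 0 < r' → r' ≤ r → BasinG r' (qst F q) → Bed.BasinCk k r F

/-- The conclusion for uniformly attracting sequences with the condition (G). -/
def SeqDC : Prop := ∀ (k : ℕ) (r D C c : ℝ) (F : ℕ → (Fin k → ℂ) → (Fin k → ℂ)) (A : ℕ → (Fin k → ℂ) →L[ℂ] (Fin k → ℂ)),
  Bed.SeqD k r D C c F A → GCond k (Bed.prodL A (ContinuousLinearMap.id ℂ (Fin k → ℂ))) → Bed.BasinCk k r F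

theorem seqDC (hQL : S_QL) (hQB : S_QB) (hE : SeqGC) : SeqDC := by
  intro k r D C c F A hF hD
  obtain ⟨q, ε, ℓ, r', C₀, L, hq, hr, hS⟩ := hQL k r D C c F A hF hD
  exact hQB k r D C c F A hF q r' hq hS.r_pos hr (hE k ε ℓ r' C₀ _ L hS)

end Pool.Agent.Lib.BedG
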