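import Pool.Agent.Lib.BedG.SpecN
import Pool.Agent.Lib.Bed.SpecN

/-!
# MP_6f050a_an, theorem G, part T: trains of maps

Every task: prove `theorem sX : S_X` (namespace `Pool.Agent.Lib.BedG`) in the file named in the task; auxiliary lemmas in the
namespace `Pool.Agent.Lib.BedG.sXAux`.  All proofs are complete in the docstrings.  The files `BedD/Cau.lean`, `BedD/TLi.lean`, `BedD/TPh.lean`, `BedD/TFa.lean`, `BedD/TFb.lean`
(the same lemmas in dimension two, with balls instead of the sets `{ν l < R l}`) can be adapted.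
`Bed.S_Wei` (proved: `Bed.sWei` in `Pool/Agent/Lib/Bed/Wei.lean`) is the holomorphy of uniform limits in several variables; Cauchy's
estimate for the derivative is `Osgood.norm_fderiv_le` in `Pool/Agent/Lib/Osgood.lean`.
-/

set_option autoImplicit false

open scoped Topology
open Set Filter Metric

namespace Pool.Agent.Lib.BedG

/-- **Cau.** Cauchy's estimate on the ball of a smaller norm.

Proof.  For `ν z < ρ/2` the ball `ball z (ρ/2)` is contained in `{ν < ρ}` (`ν y ≤ ν z + ν (y - z)`, `IsNu.le`), so `‖fderiv ℂ h z‖ ≤ ε / (ρ/2)` (`Osgood.norm_fderiv_le`).  The second part: mean value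
inequality on the convex set `{ν < ρ/2}` (`IsNu.convex`, `Convex.norm_image_sub_le_of_norm_fderiv_le`). -/
def S_Cau : Prop := ∀ (k : ℕ) (ν : EE k → ℝ) (h : EE k → EE k) (ρ ε : ℝ), IsNu ν → 0 < ρ → 0 ≤ ε →
  DifferentiableOn ℂ h {z | ν z < ρ} → (∀ z, ν z < ρ → ‖h z‖ ≤ ε) →
  (∀ z, ν z < ρ / 2 → ∀ w, ‖fderiv ℂ h z w‖ ≤ 2 * ε / ρ * ‖w‖) ∧
  ∀ z, ν z < ρ / 2 → ∀ z', ν z' < ρ / 2 → ‖h z - h z'‖ ≤ 2 * ε / ρ * ‖z - z'‖

/-- **TLi.** The estimates for a train.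

Proof.  (a) `ν (l+i) (orbE Θ l i z) ≤ R (l+i)`: induction on `i`, `prop`.  (b) Let `h l i z = bk T i l (orbE Θ l i z)`; `h l (i+1) z = T l (h (l+1) i (Θ l z))` (`orbE_succ'`, `bk_succ`), `h l 0 z = z`.
Claim: for all `i`, all `l` and `z` with `ν l z ≤ R l`: `ρ l (h l (i+1) z - h l i z) ≤ e (l+i) * ∏ j ∈ Icc l (l+i), A j`.  Strong induction on `i`.
`i = 0`: `h l 1 z - z = T l (Θ l z) - z`; `Θ l z = S l z + ζ`, `ρ (l+1) ζ ≤ e l` (`near`), `A l * ρ (l+1) ζ ≤ A l * e l ≤ 1` (`small`), so `pull` (with `w = z`) gives `ρ l (T l (Θ l z) - z) ≤ A l * e l`.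
Step to `i + 1`: `z' = Θ l z` (`ν (l+1) z' ≤ R (l+1)`), `x = h (l+1) (i+1) z'`, `x' = h (l+1) i z'`, `ζ = x - x'`; by the induction hypothesis (`i`, at `l+1`, `z'`) `ρ (l+1) ζ ≤ e (l+1+i) ∏_{Icc (l+1) (l+1+i)} A`, so
`A l * ρ (l+1) ζ ≤ e (l+i+1) ∏_{Icc l (l+i+1)} A ≤ (1/2)^{..} ≤ 1` (`small`).  Let `w = T l x' = h l (i+1) z`; `S l w = x'`.  `ν l w ≤ ν l z + ∑_{j ≤ i} ‖h l (j+1) z - h l j z‖ ≤ R l + ∑_j (1/2)^{l+j+3} ≤ R l + 1 ≤ 2 R l`
(`IsNu.le`, `le_rho`, the induction hypothesis for `j ≤ i` at `l`, `z`, and `small`).  `pull`: `ρ l (T l (x' + ζ) - w) ≤ A l * ρ (l+1) ζ`.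
(c) With `le_rho` and `small`: `‖h l (i+1) z - h l i z‖ ≤ (1/2)^{l+i+3}`, and the sum over `j < i` is at most `(1/2)^{l+2} ≤ 1/4`. -/
def S_TLi : Prop := ∀ (k : ℕ) (dom : ℕ → Set (EE k)) (Θ S T : ℕ → EE k → EE k) (ν ρ : ℕ → EE k → ℝ) (R e A : ℕ → ℝ),
  Trn dom Θ S T ν ρ R e A → ∀ (l : ℕ) (z : EE k), ν l z ≤ R l →
    (∀ i, ν (l + i) (orbE Θ l i z) ≤ R (l + i)) ∧
    (∀ i, ‖bk T (i + 1) l (orbE Θ l (i + 1) z) - bk T i l (orbE Θ l i z)‖ ≤ (1 / 2) ^ (l + i + 3)) ∧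
    ∀ i, ‖bk T i l (orbE Θ l i z) - z‖ ≤ 1 / 4

/-- **TPh.** The limits of a train.  (Uses `Bed.S_Wei`, `S_TLi`.)

Proof.  Let `l` be given, `U = {z | ν l z < R l}`, open (`IsNu.isOpen`).  `h l i z = bk T i l (orbE Θ l i z)` is differentiable on `U` (`orbE Θ l i z ∈ dom (l+i)` by `dom_of`, `maps`; `Θ` differentiable on the open domains, `T` differentiable), so by
`Bed.S_Wei` with `b i = (1/2)^{l+i+3}` it converges on `U` to a differentiable function `H`, and `‖H z - z‖ ≤ 1/4` (limit of the last claim of `S_TLi`).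
`Φ l z`: let `z ∈ dom l`.  By `bdd` there is `i₀` with `ν (l+i₀) (orbE Θ l i₀ z) ≤ R (l+i₀)/4 < R (l+i₀)`.  For `i = i₀ + j`, `bk T (l+i) 0 (orbE Θ l i z) = bk T (l+i₀) 0 (h (l+i₀) j z₀)`, `z₀ = orbE Θ l i₀ z` (`bk_add`, `orbE_add`), which converges to
`bk T (l+i₀) 0 (H z₀)` (`T` continuous).  So the limit `Φ l z` exists (choose it; `Φ l z = 0` for `z ∉ dom l`).  For `z` with `ν l z < R l`: `z ∈ dom l` (`dom_of`) and in the same way with `i₀ = 0` `Φ l z = bk T l 0 (H z)` (uniqueness of limits). -/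
def S_TPh : Prop := Bed.S_Wei → S_TLi → ∀ (k : ℕ) (dom : ℕ → Set (EE k)) (Θ S T : ℕ → EE k → EE k) (ν ρ : ℕ → EE k → ℝ)
  (R e A : ℕ → ℝ), Trn dom Θ S T ν ρ R e A → ∃ Φ : ℕ → EE k → EE k, IsPhi dom Θ T Φ ν R

/-- **TFa.** The limits are injective immersions.  (Uses `S_Cau`.)

Proof.  Compatibility: `bk T (l+1+i) 0 (orbE Θ (l+1) i (Θ l z)) = bk T (l+(i+1)) 0 (orbE Θ l (i+1) z)` (`orbE_succ'`), uniqueness of the limit.  So
`Φ (l+i) (orbE Θ l i y) = Φ l y` for `y ∈ dom l` (induction on `i`).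
For every `l'` let `H` be the map of `IsPhi.H`, `h = H - id` on `{ν l' < R l'}`, `‖h‖ ≤ ε = 1/4`, so `2 ε / R l' ≤ 1/2` (`R_ge`) and by `S_Cau`: on `{ν l' < R l'/2}`, `H` is injective (`‖H z - H z'‖ ≥ ‖z - z'‖ / 2`) and
`fderiv ℂ H z w = 0` implies `w = 0`.  Let `z ∈ dom l` (and `z' ∈ dom l` for the injectivity); by `bdd` there is `i` such that with `l' = l + i` the point(s) `orbE Θ l i z` are in `{ν l' ≤ R l'/4} ⊆ {ν l' < R l'/2}` (`R l' ≥ 8`).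
Near `z` (`y ∈ dom l`, `ν l' (orbE Θ l i y) < R l'/2` by continuity, `IsNu.continuous`) `Φ l y = bk T l' 0 (H (orbE Θ l i y))`.  `orbE Θ l i` is differentiable at `z` with injective derivative, and injective on `dom l`
(`diff`, `maps`, `inj`, `dinj`, induction on `i`).  `bk T l' 0` is differentiable and has a differentiable left inverse (a composition of the `S j`, by `ST`), so it is injective with injective
derivatives (differentiate `S j (T j z) = z`).  Chain rule. -/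
def S_TFa : Prop := S_Cau → ∀ (k : ℕ) (dom : ℕ → Set (EE k)) (Θ S T : ℕ → EE k → EE k) (ν ρ : ℕ → EE k → ℝ)
  (R e A : ℕ → ℝ), Trn dom Θ S T ν ρ R e A → ∀ Φ : ℕ → EE k → EE k, IsPhi dom Θ T Φ ν R →
  (∀ l, DifferentiableOn ℂ (Φ l) (dom l)) ∧ (∀ l, ∀ z ∈ dom l, Φ (l + 1) (Θ l z) = Φ l z) ∧
    (∀ l, InjOn (Φ l) (dom l)) ∧ ∀ l, ∀ z ∈ dom l, ∀ w, fderiv ℂ (Φ l) z w = 0 → w = 0

/-- **TFb.** The limits are onto.  (Uses `S_Cau`.)

Proof.  Let `u ∈ EE k`, `u_l = orbE S 0 l u`; so `bk T l 0 u_l = u` (`TS`, `bk_succ'`, induction on `l`).  By `S_orb` there is `l` with `ν l u_l ≤ R l/4`.  `H` from `IsPhi.H`, `h = H - id`, `‖h‖ ≤ 1/4` on `{ν l < R l}`, so by `S_Cau` `h` is Lipschitz with the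
constant `2 (1/4)/R l ≤ 1/2` on `{ν l < R l/2}`.  For `‖z - u_l‖ ≤ 1`: `ν l z ≤ R l/4 + 1 < R l/2` (`R l ≥ 8`).  The map `z ↦ u_l - h z` maps the closed ball of radius `1` with centre `u_l` into itself and is a contraction with the constant `1/2`, so it has a
fixed point (Banach, for instance `ContractingWith.exists_fixedPoint'` on the complete set): `H z = u_l`.  So `z ∈ dom l` and `Φ l z = bk T l 0 (H z) = u`. -/
def S_TFb : Prop := S_Cau → ∀ (k : ℕ) (dom : ℕ → Set (EE k)) (Θ S T : ℕ → EE k → EE k) (ν ρ : ℕ → EE k → ℝ)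
  (R e A : ℕ → ℝ), Trn dom Θ S T ν ρ R e A → ∀ Φ : ℕ → EE k → EE k, IsPhi dom Θ T Φ ν R →
  ∀ u, ∃ l, ∃ z ∈ dom l, Φ l z = u

/-- The train lemma, from its parts. -/
theorem trnC (hW : Bed.S_Wei) (hTLi : S_TLi) (hTPh : S_TPh) (hCau : S_Cau) (hTFa : S_TFa)
    (hTFb : S_TFb) : ∀ (k : ℕ) (dom : ℕ → Set (EE k)) (Θ S T : ℕ → EE k → EE k) (ν ρ : ℕ → EE k → ℝ)
    (R e A : ℕ → ℝ), Trn dom Θ S T ν ρ R e A → TrnC dom Θ := by
  intro k dom Θ S T ν ρ R e A h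
  obtain ⟨Φ, hΦ⟩ := hTPh hW hTLi k dom Θ S T ν ρ R e A h
  obtain ⟨h1, h2, h3, h4⟩ := hTFa hCau k dom Θ S T ν ρ R e A h Φ hΦ
  exact ⟨Φ, h1, h2, h3, h4, hTFb hCau k dom Θ S T ν ρ R e A h Φ hΦ⟩

end Pool.Agent.Lib.BedG
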