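import Pool.Agent.Lib.BedG.SpecT
import Pool.Agent.Lib.BedG.Basic

/-! # BedG/TFb: the limits of a train are onto -/

set_option autoImplicit false

open scoped Topology
open Set Filter Metric

namespace Pool.Agent.Lib.BedG

namespace sTFbAux

variable {k : ℕ}

theorem bk_orb (S T : ℕ → EE k → EE k) (hTS : ∀ j z, T j (S j z) = z) (u : EE k) (l : ℕ) :
    bk T l 0 (orbE S 0 l u) = u := by
  induction l with
  | zero => rfl
  | succ l ih =>
    rw [bk_succ', Nat.zero_add, orbE_succ, Nat.zero_add, hTS]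
    exact ih

/-- A fixed point argument: a small Lipschitz perturbation of the identity attains `c`. -/
theorem hit (h : EE k → EE k) (c : EE k)
    (h1 : ∀ z ∈ closedBall c 1, ‖h z‖ ≤ 1)
    (h2 : ∀ z ∈ closedBall c 1, ∀ z' ∈ closedBall c 1, ‖h z - h z'‖ ≤ 1 / 2 * ‖z - z'‖) :
    ∃ z ∈ closedBall c 1, z + h z = c := by
  have hmaps : MapsTo (fun z => c - h z) (closedBall c 1) (closedBall c 1) := by
    intro z hz
    rw [mem_closedBall, dist_eq_norm]
    have : c - h z - c = - h z := by abel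
    rw [this, norm_neg]
    exact h1 z hz
  have hcon : ContractingWith (1 / 2 : NNReal) (hmaps.restrict (fun z => c - h z) _ _) := by
    refine ⟨by
      have : ((1 / 2 : NNReal) : ℝ) < ((1 : NNReal) : ℝ) := by push_cast; norm_num
      exact_mod_cast this, ?_⟩
    apply LipschitzWith.of_dist_le_mul
    intro z z'
    have h3 := h2 z.1 z.2 z'.1 z'.2
    rw [Subtype.dist_eq, Subtype.dist_eq, dist_eq_norm, dist_eq_norm]
    simp only [MapsTo.val_restrict_apply]
    have h4 : c - h z.1 - (c - h z'.1) = - (h z.1 - h z'.1) := by abel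
    rw [h4, norm_neg]
    push_cast
    exact h3
  obtain ⟨y, hy, hfix, -⟩ := ContractingWith.exists_fixedPoint' (isClosed_closedBall.isComplete)
    hmaps hcon (mem_closedBall_self (zero_le_one)) (edist_ne_top _ _)
  refine ⟨y, hy, ?_⟩
  have h5 : c - h y = y := hfix
  rw [← h5]
  have h6 : h (c - h y) = h y := by rw [h5]
  rw [h6]
  abel

end sTFbAux

open sTFbAux in
theorem sTFb : S_TFb := by
  intro hCau k dom Θ S T ν ρ R e A hT Φ hΦ u
  obtain ⟨l, hl⟩ := (hT.S_orb u).exists
  obtain ⟨H, hHd, hH⟩ := hΦ.H l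
  have hR := hT.R_ge l
  have hnu := hT.nu l
  have hcau := (hCau k (ν l) (fun z => H z - z) (R l) (1 / 4) hnu (by linarith) (by norm_num)
    (hHd.sub differentiableOn_id) (fun z hz => (hH z hz).2.1)).2
  have hsub : ∀ z ∈ closedBall (orbE S 0 l u) 1, ν l z < R l / 2 := by
    intro z hz
    rw [mem_closedBall, dist_eq_norm] at hz
    have h1 := hnu.sub_le z (orbE S 0 l u)
    have h2 := hnu.le (z - orbE S 0 l u)
    linarith
  have hsub2 : ∀ z ∈ closedBall (orbE S 0 l u) 1, ν l z < R l := by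
    intro z hz
    have := hsub z hz
    linarith
  have hcoef : 2 * (1 / 4) / R l ≤ 1 / 2 := by
    rw [div_le_iff₀ (by linarith)]
    linarith
  obtain ⟨z, hz, hzc⟩ := hit (fun z => H z - z) (orbE S 0 l u)
    (fun z hz => ((hH z (hsub2 z hz)).2.1).trans (by norm_num))
    (fun z hz z' hz' => (hcau z (hsub z hz) z' (hsub z' hz')).trans
      (mul_le_mul_of_nonneg_right hcoef (norm_nonneg _)))
  have hz2 := hH z (hsub2 z hz)
  refine ⟨l, z, hz2.1, ?_⟩
  rw [hz2.2.2]
  have h7 : H z = orbE S 0 l u := by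
    have : z + (H z - z) = orbE S 0 l u := hzc
    rw [← this]
    abel
  rw [h7]
  exact bk_orb S T hT.TS u l

end Pool.Agent.Lib.BedG
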