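import Pool.Agent.Lib.BedG.SpecN

/-!
# MP_6f050a_an, theorem G: Wdf, the orbits in the linear coordinates
-/

set_option autoImplicit false

open scoped Topology
open Set Filter Metric

namespace Pool.Agent.Lib.BedG

namespace sWdfAux

variable {k : ℕ} {ε ℓ r C₀ : ℝ} {f : ℕ → EE k → EE k} {L : ℕ → EE k ≃L[ℂ] EE k}

theorem f_zero (h : SeqG ε ℓ r C₀ f L) (n : ℕ) : f n 0 = 0 := by
  have h1 := h.contr n 0 (mem_ball_self h.r_pos)
  rw [norm_zero, mul_zero] at h1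
  exact norm_le_zero_iff.1 h1

theorem hq (h : SeqG ε ℓ r C₀ f L) (n : ℕ) (x : EE k) (hx : ‖x‖ < r) :
    ‖f n x - L n x‖ ≤ C₀ * ‖x‖ ^ 2 := by
  have h1 := h.quad n x (mem_ball_zero_iff.2 hx) 0 (mem_ball_self h.r_pos)
  rw [f_zero h n, map_zero, sub_zero, sub_zero, norm_zero, add_zero, sub_zero] at h1
  calc ‖f n x - L n x‖ ≤ C₀ * ‖x‖ * ‖x‖ := h1
    _ = C₀ * ‖x‖ ^ 2 := by ring

/-- The first claim. -/
theorem first {C₁ : ℝ}
    (hO : ∀ (m i : ℕ) (z : EE k), ‖z‖ < r → ‖orbE f m i z‖ ≤ C₁ * Real.exp (-(ℓ * i)) * ‖z‖)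
    (t : ℕ) (w : EE k) (hw : ‖La L t w‖ < r) (i : ℕ) :
    ‖orbE f t i (La L t w)‖ ≤ C₁ * Real.exp (-(ℓ * (t + i))) * Nm ℓ L t w := by
  have h1 := hO t i (La L t w) hw
  have h2 := norm_La ℓ L t w
  have h3 : Real.exp (-(ℓ * ((t : ℝ) + i))) = Real.exp (-(ℓ * i)) * Real.exp (-(ℓ * t)) := by
    rw [← Real.exp_add]
    congr 1
    ring
  calc ‖orbE f t i (La L t w)‖ ≤ C₁ * Real.exp (-(ℓ * i)) * ‖La L t w‖ := h1
    _ = C₁ * Real.exp (-(ℓ * i)) * (Real.exp (-(ℓ * t)) * Nm ℓ L t w) := by rw [h2]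
    _ = C₁ * (Real.exp (-(ℓ * i)) * Real.exp (-(ℓ * t))) * Nm ℓ L t w := by ring
    _ = _ := by rw [h3]

/-- The second claim. -/
theorem second (h : SeqG ε ℓ r C₀ f L) {C₁ : ℝ}
    (hO : ∀ (m i : ℕ) (z : EE k), ‖z‖ < r → ‖orbE f m i z‖ ≤ C₁ * Real.exp (-(ℓ * i)) * ‖z‖)
    (hM : ∀ m i : ℕ, MapsTo (orbE f m i) (ball 0 r) (ball 0 r))
    (t : ℕ) (w : EE k) (hw : ‖La L t w‖ < r) (i : ℕ) :
    Nm ℓ L (t + i + 1) (Wo L f t w (i + 1) - Wo L f t w i) ≤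
      C₀ * C₁ ^ 2 * Real.exp ℓ * Real.exp (-(ℓ * (t + i))) * Nm ℓ L t w ^ 2 := by
  have h1 := first (L := L) hO t w hw i
  have h2 : ‖orbE f t i (La L t w)‖ < r := mem_ball_zero_iff.1 (hM t i (mem_ball_zero_iff.2 hw))
  have h3 := hq h (t + i) _ h2
  have h4 : ‖orbE f t i (La L t w)‖ ^ 2 ≤
      (C₁ * Real.exp (-(ℓ * (t + i))) * Nm ℓ L t w) ^ 2 :=
    pow_le_pow_left₀ (norm_nonneg _) h1 2
  unfold Nm at h4 ⊢
  rw [La_Wo_sub]
  set E := Real.exp (-(ℓ * ((t : ℝ) + i))) with hE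
  have h5 : Real.exp (ℓ * ((t + i + 1 : ℕ) : ℝ)) * E = Real.exp ℓ := by
    rw [hE, ← Real.exp_add]
    congr 1
    push_cast
    ring
  calc Real.exp (ℓ * ((t + i + 1 : ℕ) : ℝ)) *
        ‖f (t + i) (orbE f t i (La L t w)) - L (t + i) (orbE f t i (La L t w))‖
      ≤ Real.exp (ℓ * ((t + i + 1 : ℕ) : ℝ)) * (C₀ *
        (C₁ * E * (Real.exp (ℓ * t) * ‖La L t w‖)) ^ 2) :=
        mul_le_mul_of_nonneg_left (h3.trans (mul_le_mul_of_nonneg_left h4 h.C_pos.le))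
          (Real.exp_pos _).le
    _ = C₀ * C₁ ^ 2 * (Real.exp (ℓ * ((t + i + 1 : ℕ) : ℝ)) * E) * E *
        (Real.exp (ℓ * t) * ‖La L t w‖) ^ 2 := by ring
    _ = _ := by rw [h5]

/-- The third claim. -/
theorem third (h : SeqG ε ℓ r C₀ f L) {A : ℝ}
    (t : ℕ) (w : EE k)
    (hS : ∀ i : ℕ, Nm ℓ L (t + i + 1) (Wo L f t w (i + 1) - Wo L f t w i) ≤
      A * Real.exp (-(ℓ * (t + i))) * Nm ℓ L t w ^ 2) (i : ℕ) :
    Nm ℓ L (t + i) (Wo L f t w i - w) ≤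
      A / (1 - Real.exp (-ℓ)) * Real.exp (-(ℓ * t)) * Nm ℓ L t w ^ 2 *
        (1 - Real.exp (-ℓ) ^ i) := by
  have hq1 : 0 < 1 - Real.exp (-ℓ) := by
    have : Real.exp (-ℓ) < 1 := Real.exp_lt_one_iff.2 (neg_lt_zero.2 h.pin.ℓ_pos)
    linarith
  induction i with
  | zero =>
    rw [Wo_zero, sub_self, Nm_zero, pow_zero, sub_self, mul_zero]
  | succ i ih =>
    have h1 := hS i
    have h2 := h.pin.Nm_succ_le (t + i) (Wo L f t w i - w)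
    have h3 := Nm_add_le ℓ L (t + i + 1) (Wo L f t w (i + 1) - Wo L f t w i)
      (Wo L f t w i - w)
    rw [sub_add_sub_cancel] at h3
    have h4 : Real.exp (-(ℓ * ((t : ℝ) + i))) = Real.exp (-(ℓ * t)) * Real.exp (-ℓ) ^ i := by
      rw [← Real.exp_nat_mul, ← Real.exp_add]
      congr 1
      ring
    rw [h4] at h1
    have h5 : A / (1 - Real.exp (-ℓ)) * (1 - Real.exp (-ℓ)) = A := div_mul_cancel₀ _ hq1.ne'
    change Nm ℓ L (t + i + 1) (Wo L f t w (i + 1) - w) ≤ _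
    calc Nm ℓ L (t + i + 1) (Wo L f t w (i + 1) - w)
        ≤ A * (Real.exp (-(ℓ * t)) * Real.exp (-ℓ) ^ i) * Nm ℓ L t w ^ 2 +
          A / (1 - Real.exp (-ℓ)) * Real.exp (-(ℓ * t)) * Nm ℓ L t w ^ 2 *
            (1 - Real.exp (-ℓ) ^ i) := by linarith
      _ = (A / (1 - Real.exp (-ℓ)) * (1 - Real.exp (-ℓ))) *
            (Real.exp (-(ℓ * t)) * Real.exp (-ℓ) ^ i) * Nm ℓ L t w ^ 2 +
          A / (1 - Real.exp (-ℓ)) * Real.exp (-(ℓ * t)) * Nm ℓ L t w ^ 2 *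
            (1 - Real.exp (-ℓ) ^ i) := by rw [h5]
      _ = _ := by ring

end sWdfAux

theorem sWdf : S_Wdf := by
  intro hOrb hOBd k ε ℓ r C₀ f L h
  obtain ⟨C₁, hC₁, hO⟩ := hOBd hOrb k ε ℓ r C₀ f L h
  have hM : ∀ m i : ℕ, MapsTo (orbE f m i) (ball 0 r) (ball 0 r) :=
    fun m i => (hOrb k ε ℓ r C₀ f L h m i).2.1
  have hq1 : 0 < 1 - Real.exp (-ℓ) := by
    have : Real.exp (-ℓ) < 1 := Real.exp_lt_one_iff.2 (neg_lt_zero.2 h.pin.ℓ_pos)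
    linarith
  have hA : 0 ≤ C₀ * C₁ ^ 2 * Real.exp ℓ := by
    have := h.C_pos
    positivity
  have hD : 0 ≤ C₀ * C₁ ^ 2 * Real.exp ℓ / (1 - Real.exp (-ℓ)) := div_nonneg hA hq1.le
  refine ⟨C₁ + C₀ * C₁ ^ 2 * Real.exp ℓ + C₀ * C₁ ^ 2 * Real.exp ℓ / (1 - Real.exp (-ℓ)),
    by linarith, ?_⟩
  intro t w hw i
  have h1 := sWdfAux.first (L := L) hO t w hw i
  have h2 := sWdfAux.second h hO hM t w hw
  have h3 := sWdfAux.third h t w h2 i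
  have hX : 0 ≤ Nm ℓ L t w := Nm_nonneg ℓ L t w
  refine ⟨h1.trans ?_, (h2 i).trans ?_, h3.trans ?_⟩
  · refine mul_le_mul_of_nonneg_right (mul_le_mul_of_nonneg_right ?_ (Real.exp_pos _).le) hX
    linarith
  · refine mul_le_mul_of_nonneg_right (mul_le_mul_of_nonneg_right ?_ (Real.exp_pos _).le)
      (by positivity)
    linarith
  · have h4 : 0 < Real.exp (-ℓ) ^ i := by positivity
    have h5 : 0 ≤ C₀ * C₁ ^ 2 * Real.exp ℓ / (1 - Real.exp (-ℓ)) * Real.exp (-(ℓ * t)) *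
        Nm ℓ L t w ^ 2 := by positivity
    refine (mul_le_of_le_one_right h5 (by linarith)).trans ?_
    refine mul_le_mul_of_nonneg_right (mul_le_mul_of_nonneg_right ?_ (Real.exp_pos _).le)
      (by positivity)
    linarith

end Pool.Agent.Lib.BedG
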